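import Pool.Agent.H875A.AR.Defs

/-! Task AG4 of project AR: the rotation operators are in the algebra (adapted from task AG of
project TR). -/

set_option autoImplicit false

open MeasureTheory Complex Filter
open scoped ComplexConjugate Matrix Topology InnerProductSpace

namespace Pool.Agent.H875A

open Pool.Agent.H460U (X mu M2 L2 e Uni Bd An bl Vm ell ta tt TT DD)

noncomputable section

namespace AG4aux

theorem alg (a b K : M4) (w : ℂ) (v : Idx → ℂ) (hab : w • b = a * K) (ha : aᴴ * a = 1)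
    (hb : bᴴ * b = 1) (J : Idx) :
    ∑ I : Idx, conj (a I J) * (w * v I) =
      ∑ L : Idx, (∑ I : Idx, conj (b I L) * v I) * K J L := by
  have hb' : b * bᴴ = 1 := mul_eq_one_comm.mp hb
  have h1 : w • (1 : M4) = (a * K) * bᴴ := by
    rw [← hab, Matrix.smul_mul, hb']
  have h2 : w • aᴴ = K * bᴴ := by
    calc w • aᴴ = aᴴ * (w • (1 : M4)) := by rw [Matrix.mul_smul, Matrix.mul_one]
      _ = (aᴴ * a) * (K * bᴴ) := by rw [h1]; simp only [Matrix.mul_assoc]
      _ = K * bᴴ := by rw [ha, Matrix.one_mul]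
  have e0 : ∀ I : Idx, w * conj (a I J) = ∑ L : Idx, K J L * conj (b I L) := by
    intro I
    have h3 := congrFun (congrFun h2 J) I
    rw [Matrix.mul_apply] at h3
    exact h3
  calc ∑ I : Idx, conj (a I J) * (w * v I)
      = ∑ I : Idx, ∑ L : Idx, (conj (b I L) * v I) * K J L := by
        refine Finset.sum_congr rfl fun I _ => ?_
        have h4 : conj (a I J) * (w * v I) = (w * conj (a I J)) * v I := by ring
        rw [h4, e0 I, Finset.sum_mul]
        refine Finset.sum_congr rfl fun L _ => ?_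
        ring
    _ = ∑ L : Idx, ∑ I : Idx, (conj (b I L) * v I) * K J L := Finset.sum_comm
    _ = ∑ L : Idx, (∑ I : Idx, conj (b I L) * v I) * K J L := by
        refine Finset.sum_congr rfl fun L _ => ?_
        rw [Finset.sum_mul]

theorem entry_le (a : M4) (ha : aᴴ * a = 1) (I J : Idx) : ‖a I J‖ ≤ 1 := by
  have h := congrFun (congrFun ha J) J
  rw [Matrix.mul_apply, Matrix.one_apply_eq] at h
  have h1 : ((∑ L : Idx, ‖a L J‖ ^ 2 : ℝ) : ℂ) = 1 := by
    rw [← h, Complex.ofReal_sum]
    refine Finset.sum_congr rfl fun L _ => ?_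
    rw [Matrix.conjTranspose_apply, Complex.star_def, mul_comm, Complex.mul_conj,
      Complex.normSq_eq_norm_sq]
  have h2 : ∑ L : Idx, ‖a L J‖ ^ 2 = 1 := by exact_mod_cast h1
  have h3 : ‖a I J‖ ^ 2 ≤ 1 := by
    rw [← h2]
    exact Finset.single_le_sum (f := fun L : Idx => ‖a L J‖ ^ 2)
      (fun L _ => sq_nonneg _) (Finset.mem_univ I)
  have h4 := norm_nonneg (a I J)
  nlinarith

theorem memLp_mul {φ f : X → ℂ} (hm : AEStronglyMeasurable φ mu) (hb : ∀ᵐ x ∂mu, ‖φ x‖ ≤ 1)
    (hf : MemLp f 2 mu) : MemLp (fun x => conj (φ x) * f x) 2 mu := by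
  refine hf.of_le ?_ ?_
  · exact (Complex.continuous_conj.comp_aestronglyMeasurable hm).mul hf.1
  · filter_upwards [hb] with x hx
    rw [norm_mul, RCLike.norm_conj]
    exact mul_le_of_le_one_left (norm_nonneg _) hx

theorem an_congr {f g : X → ℂ} (h : f =ᵐ[mu] g) (hf : An f) : An g := by
  intro n hn
  rw [← hf n hn]
  unfold fourierCoeff
  refine integral_congr_ae ?_
  filter_upwards [h] with x hx
  rw [hx]

theorem integrable_fc {f : X → ℂ} (hf : MemLp f 2 mu) (n : ℤ) :
    Integrable (fun x => fourier n x • f x) mu := by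
  have hi : Integrable f mu := hf.integrable (by norm_num)
  refine hi.mono ((fourier n).continuous.aestronglyMeasurable.smul hf.1) ?_
  refine Eventually.of_forall fun x => ?_
  rw [norm_smul]
  have : ‖(fourier n x : ℂ)‖ = 1 := by
    rw [fourier_apply]; exact Circle.norm_coe _
  rw [this, one_mul]

theorem an_sum {F : Idx → X → ℂ} (hF : ∀ L, MemLp (F L) 2 mu) (h : ∀ L, An (F L)) :
    An (fun x => ∑ L : Idx, F L x) := by
  intro n hn
  unfold fourierCoeff
  simp only [Finset.smul_sum]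
  rw [integral_finsetSum _ (fun L _ => integrable_fc (hF L) (-n))]
  exact Finset.sum_eq_zero fun L _ => h L n hn

theorem memLp_sum {F : Idx → X → ℂ} (hF : ∀ L, MemLp (F L) 2 mu) :
    MemLp (fun x => ∑ L : Idx, F L x) 2 mu :=
  memLp_finsetSum Finset.univ (fun L _ => hF L)

theorem bd_of_cont {f : X → ℂ} (hf : Continuous f) : Bd f := by
  obtain ⟨C, hC⟩ := isCompact_univ.exists_bound_of_continuousOn (f := f) hf.continuousOn
  exact ⟨hf.aestronglyMeasurable, C, Eventually.of_forall fun x => hC x (Set.mem_univ _)⟩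

end AG4aux

open AG4aux in
theorem t_AG4 (h1 : S_PAN4) (h2 : Pool.Agent.H460U.S_H1) (h3 : Pool.Agent.H460U.S_H2) :
    S_AG4 := by
  intro n m N c Φ hP hΦ k g hg A hA f hG J
  have hT : MeasurePreserving (fun x : X => x + g) mu mu := measurePreserving_add_right mu g
  have hent : ∀ I L, ∀ᵐ x ∂mu, ‖Φ x I L‖ ≤ 1 := by
    intro I L
    filter_upwards [hΦ.unit] with x hx
    exact entry_le _ hx I L
  -- the analytic functions
  have hmem : ∀ L, MemLp (fun x => ∑ I : Idx, conj (Φ x I L) * f I x) 2 mu := by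
    intro L
    exact memLp_sum (fun I => memLp_mul (hΦ.meas I L) (hent I L) (Lp.memLp (f I)))
  have hmemT : ∀ L, MemLp (fun x => ∑ I : Idx, conj (Φ (x + g) I L) * f I (x + g)) 2 mu :=
    fun L => (hmem L).comp_measurePreserving hT
  have hanT : ∀ L, An (fun x => ∑ I : Idx, conj (Φ (x + g) I L) * f I (x + g)) :=
    fun L => h3 _ g (hG L)
  have hK := h1 n m N c hP.scal.pos hP.unit k g
  have hprod : ∀ L, MemLp (fun x => (∑ I : Idx, conj (Φ (x + g) I L) * f I (x + g)) *
      CQ n m N c k g x J L) 2 mu ∧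
      An (fun x => (∑ I : Idx, conj (Φ (x + g) I L) * f I (x + g)) *
      CQ n m N c k g x J L) := fun L =>
    h2 _ _ (hmemT L) (hanT L) (bd_of_cont (hK J L).1) (hK J L).2
  have hsum := an_sum (fun L => (hprod L).1) (fun L => (hprod L).2)
  refine an_congr ?_ hsum
  have hu' : ∀ᵐ x ∂mu, (Φ (x + g))ᴴ * Φ (x + g) = 1 :=
    Filter.Tendsto.eventually (p := fun y : X => (Φ y)ᴴ * Φ y = 1)
      hT.quasiMeasurePreserving.tendsto_ae hΦ.unit
  have hAf : ∀ᵐ x ∂mu, ∀ I : Idx, (A (f I) : X → ℂ) x = wq n m N c k g x * f I (x + g) :=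
    Filter.eventually_all.2 fun I => hA (f I)
  filter_upwards [hΦ.unit, hu', hΦ.inv k g hg, hAf] with x a1 a2 a3 a4
  have key := alg (Φ x) (Φ (x + g)) _ (wq n m N c k g x) (fun I => f I (x + g)) a3 a1 a2 J
  rw [← key]
  refine Finset.sum_congr rfl fun I _ => ?_
  rw [a4 I]

end

end Pool.Agent.H875A
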