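import Pool.Agent.H875A.AR.Defs

/-! task AU4 -/

set_option autoImplicit false

open MeasureTheory Complex Filter
open scoped ComplexConjugate Matrix Topology InnerProductSpace

namespace Pool.Agent.H875A

open Pool.Agent.H460U (X mu M2 L2 e Uni Bd An bl Vm ell ta tt TT DD)

noncomputable section

namespace AU4aux

theorem shift (h : X → ℂ) (m n : ℤ) :
    fourierCoeff (fun x => e m x * h x) n = fourierCoeff h (n - m) := by
  unfold fourierCoeff e
  congr 1
  funext x
  rw [smul_eq_mul, smul_eq_mul, show -(n - m) = -n + m by ring, fourier_add]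
  ring

theorem congr {f g : X → ℂ} (h : f =ᵐ[mu] g) (hg : An g) : An f := fun n hn => by
  rw [fourierCoeff_congr_ae h]
  exact hg n hn

theorem coef (m n : ℤ) : fourierCoeff (fun x : X => e m x) n = if n = m then 1 else 0 := by
  have := congrFun (fourierCoeff_fourier (T := 1) m) n
  rw [Pi.single_apply] at this
  exact this

theorem ent {P : M4} (h : Pᴴ * P = 1) (J K : Idx) :
    ∑ I : Idx, conj (P I J) * P I K = if J = K then 1 else 0 := by
  have h1 := congrFun (congrFun h J) K
  rw [Matrix.mul_apply, Matrix.one_apply] at h1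
  simpa [Matrix.conjTranspose_apply] using h1

theorem bd {P : M4} (h : Pᴴ * P = 1) (I J : Idx) : ‖P I J‖ ≤ 1 := by
  have h1 := ent h J J
  rw [if_pos rfl] at h1
  have h2 : ∀ I : Idx, conj (P I J) * P I J = ((‖P I J‖ ^ 2 : ℝ) : ℂ) := by
    intro I
    rw [mul_comm, Complex.mul_conj, Complex.normSq_eq_norm_sq]
  rw [Finset.sum_congr rfl (fun I _ => h2 I), ← Complex.ofReal_sum] at h1
  have h3 : ∑ I : Idx, ‖P I J‖ ^ 2 = 1 := by exact_mod_cast h1
  have h4 : ‖P I J‖ ^ 2 ≤ ∑ I : Idx, ‖P I J‖ ^ 2 :=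
    Finset.single_le_sum (f := fun I : Idx => ‖P I J‖ ^ 2) (fun i _ => sq_nonneg _)
      (Finset.mem_univ I)
  rw [h3] at h4
  nlinarith [norm_nonneg (P I J)]

end AU4aux

theorem t_AU4 : S_AU4 := by
  intro Φ hm hu
  refine ⟨fun A hA f hf J => ?_, fun A hA hin => ?_⟩
  · have h1 : (fun x => ∑ I : Idx, conj (Φ x I J) * (A (f I)) x) =ᵐ[mu]
        fun x => e 1 x * ∑ I : Idx, conj (Φ x I J) * f I x := by
      have hall : ∀ᵐ x ∂mu, ∀ I : Idx, (A (f I)) x = e 1 x * f I x :=
        ae_all_iff.2 fun I => hA (f I)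
      filter_upwards [hall] with x hx
      rw [Finset.mul_sum]
      refine Finset.sum_congr rfl fun I _ => ?_
      rw [hx I]
      ring
    refine AU4aux.congr h1 (fun n hn => ?_)
    rw [AU4aux.shift]
    exact hf J (n - 1) (by omega)
  · set J0 : Idx := (0, 0) with hJ0
    have hL : ∀ I : Idx, MemLp (fun x => Φ x I J0) 2 mu := fun I =>
      MemLp.of_bound (hm I J0) 1 (hu.mono fun x hx => AU4aux.bd hx I J0)
    let f : Idx → L2 := fun I => (hL I).toLp _
    have hf : ∀ᵐ x ∂mu, ∀ I : Idx, (f I : X → ℂ) x = Φ x I J0 :=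
      ae_all_iff.2 fun I => (hL I).coeFn_toLp
    have hGP : GP4 Φ f := by
      intro J
      by_cases hJ : J = J0
      · have h1 : (fun x => ∑ I : Idx, conj (Φ x I J) * f I x) =ᵐ[mu] fun x => e 0 x := by
          filter_upwards [hf, hu] with x h1 h2
          have h3 := AU4aux.ent h2 J J0
          rw [if_pos hJ] at h3
          rw [Finset.sum_congr rfl (fun I _ => by rw [h1 I]), h3]
          exact fourier_zero.symm
        refine AU4aux.congr h1 (fun n hn => ?_)
        rw [AU4aux.coef, if_neg (by omega)]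
      · have h1 : (fun x => ∑ I : Idx, conj (Φ x I J) * f I x) =ᵐ[mu] fun _ => 0 := by
          filter_upwards [hf, hu] with x h1 h2
          have h3 := AU4aux.ent h2 J J0
          rw [if_neg hJ] at h3
          rw [Finset.sum_congr rfl (fun I _ => by rw [h1 I]), h3]
        refine AU4aux.congr h1 (fun n hn => ?_)
        simp [fourierCoeff]
    have h1 := hin f hGP J0 (-1) (by omega)
    have h2 : (fun x => ∑ I : Idx, conj (Φ x I J0) * (A (f I)) x) =ᵐ[mu]
        fun x => e (-1) x := by
      have hall : ∀ᵐ x ∂mu, ∀ I : Idx, (A (f I)) x = e (-1) x * f I x :=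
        ae_all_iff.2 fun I => hA (f I)
      filter_upwards [hall, hf, hu] with x hx h1 h2
      have h3 := AU4aux.ent h2 J0 J0
      rw [if_pos rfl] at h3
      have h4 : ∑ I : Idx, conj (Φ x I J0) * (A (f I)) x =
          e (-1) x * ∑ I : Idx, conj (Φ x I J0) * Φ x I J0 := by
        rw [Finset.mul_sum]
        refine Finset.sum_congr rfl fun I _ => ?_
        rw [hx I, h1 I]
        ring
      rw [h4, h3, mul_one]
    rw [fourierCoeff_congr_ae h2, AU4aux.coef, if_pos rfl] at h1
    exact one_ne_zero h1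

end

end Pool.Agent.H875A
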