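import Mathlib
import Pool.Agent.H460U.TR.Defs

/-! Project AR (helper875, with helper460): MP_03b738_an, Arveson's question (frozen S02590):
a weakly closed proper algebra whose doubled algebra has only the trivial invariant subspaces.
All steps are Props `S_<ID>`; a task `<ID>` proves `theorem t_<ID> (hypotheses) : S_<ID>`. -/

set_option autoImplicit false

open MeasureTheory Complex Filter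
open scoped ComplexConjugate Matrix Topology InnerProductSpace

namespace Pool.Agent.H875A

open Pool.Agent.H460U (X mu M2 L2 e Uni Bd An bl Vm ell ta tt TT DD)

noncomputable section

/-- 2x2 matrices over the ring of 2x2 matrices -/
abbrev B4 := Matrix (Fin 2) (Fin 2) M2
abbrev Idx := Fin 2 × Fin 2
abbrev M4 := Matrix Idx Idx ℂ

def VB : B4 := Vm.map (fun z => z • (1 : M2))
def VBt : B4 := Vmᵀ.map (fun z => z • (1 : M2))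

/-- the loop `ell n` with a matrix argument -/
def ellB : ℕ → M2 → B4
  | 0, U => !![(1 / 2 : ℂ) • (1 + U), (1 / 2 : ℂ) • (1 - U);
      (1 / 2 : ℂ) • (1 - U), (1 / 2 : ℂ) • (1 + U)]
  | (n + 1), U => (VB * ellB n U * VBt) * (VBt * ellB n U * VB) * ellB n U *
      (VBt * ellB n U * VB) * (VB * ellB n U * VBt)

def flat (B : B4) : M4 := fun I J => B I.1 J.1 I.2 J.2

/-- the 4x4 loop -/
def LL (n m : ℕ) (c ξ : ℂ) : M4 := flat (ellB m (c • ell n ξ))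

/-- the fourth root of `const * bl ^ (5^(n+m))` which makes the loop close to the identity -/
def tq (n m : ℕ) (c : ℂ) (x : X) : ℂ :=
  if ta m (c * tt n x) = 0 then 1
  else ta m (c * tt n x) / ((‖ta m (c * tt n x)‖ : ℝ) : ℂ)

def dist4 (n m : ℕ) (c : ℂ) : ℝ :=
  ∫ x : X, ∑ I : Idx, ∑ J : Idx,
    ‖(tq n m c x)⁻¹ * LL n m c (bl x) I J - (1 : M4) I J‖ ^ 2 ∂mu

/-- parameters of the scalar part -/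
structure ParS (ν N : ℕ → ℕ) : Prop where
  zero : N 0 = 1
  dvd : ∀ k, 2 * N k ∣ N (k + 1)
  pos : ∀ k, 0 < N k
  growth : ∀ k, 2 ^ k * (∑ j ∈ Finset.range k, 5 ^ (ν j) * N j * 60) ≤ N k

/-- all parameters -/
structure Par4 (n m N : ℕ → ℕ) (c : ℕ → ℂ) : Prop where
  scal : ParS (fun k => n k + m k) N
  unit : ∀ k, ‖c k‖ = 1
  small : ∀ k, dist4 (n k) (m k) (c k) ≤ (1 / 4 : ℝ) ^ k

def PQ (n m N : ℕ → ℕ) (c : ℕ → ℂ) : ℕ → X → M4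
  | 0, _ => 1
  | (k + 1), x => LL (n k) (m k) (c k) (bl (N k • x)) * PQ n m N c k x

def TQ (n m N : ℕ → ℕ) (c : ℕ → ℂ) : ℕ → X → ℂ
  | 0, _ => 1
  | (k + 1), x => tq (n k) (m k) (c k) (N k • x) * TQ n m N c k x

/-- the weight of the rotation operator -/
def wq (n m N : ℕ → ℕ) (c : ℕ → ℂ) (k : ℕ) (g x : X) : ℂ :=
  DD (fun j => n j + m j) N k x * TQ n m N c k (x + g) * (TQ n m N c k x)⁻¹

/-- the analytic matrix `D_k(x) P_k(x)^* P_k(x+g)` -/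
def CQ (n m N : ℕ → ℕ) (c : ℕ → ℂ) (k : ℕ) (g x : X) : M4 :=
  DD (fun j => n j + m j) N k x • ((PQ n m N c k x)ᴴ * PQ n m N c k (x + g))

/-- the properties of the limit function `Φ` -/
structure IsPhi4 (n m N : ℕ → ℕ) (c : ℕ → ℂ) (Φ : X → M4) : Prop where
  meas : ∀ I J, AEStronglyMeasurable (fun x => Φ x I J) mu
  unit : ∀ᵐ x ∂mu, (Φ x)ᴴ * Φ x = 1
  inv : ∀ k : ℕ, ∀ g : X, N k • g = 0 → ∀ᵐ x ∂mu,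
    wq n m N c k g x • Φ (x + g) = Φ x * CQ n m N c k g x

/-- membership of a quadruple in the space `Φ H²(C⁴)` -/
def GP4 (Φ : X → M4) (f : Idx → L2) : Prop :=
  ∀ J : Idx, An (fun x => ∑ I : Idx, conj (Φ x I J) * f I x)

/-- the algebra of operators `A` such that `A ⊕ A ⊕ A ⊕ A` leaves `Φ H²(C⁴)` invariant -/
def InA4 (Φ : X → M4) (A : L2 →L[ℂ] L2) : Prop :=
  ∀ f : Idx → L2, GP4 Φ f → GP4 Φ (fun I => A (f I))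

/-! ### the loops -/

def S_L1 : Prop := ∀ (m : ℕ) (U : M2), Uᴴ * U = 1 →
  (flat (ellB m U))ᴴ * flat (ellB m U) = 1

def S_L2 : Prop := ∀ (m : ℕ) (ζ : ℂ) (I J : Idx),
  flat (ellB m (ζ • (1 : M2))) I J = ell m ζ I.1 J.1 * (if I.2 = J.2 then 1 else 0)

def S_L3 : Prop := ∀ (n m : ℕ) (c : ℂ), ∃ p : Idx → Idx → Polynomial ℂ,
  (∀ I J, (p I J).natDegree ≤ 5 ^ (n + m)) ∧ ∀ I J ξ, LL n m c ξ I J = (p I J).eval ξ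

def S_L4 : Prop := ∀ (n m : ℕ) (c : ℂ) (I J : Idx), ∃ q : Polynomial ℂ,
  ∀ ξ : ℂ, ‖ξ‖ = 1 → ξ ^ (5 ^ (n + m)) * conj (LL n m c ξ J I) = q.eval ξ

def S_L5 : Prop := ∀ m : ℕ, ∃ K : ℝ, 0 < K ∧ ∀ U : M2, Uᴴ * U = 1 → ∀ s : ℂ, ‖s‖ = 1 →
  ∑ I : Idx, ∑ J : Idx, ‖flat (ellB m U) I J - flat (ellB m (s • (1 : M2))) I J‖ ^ 2 ≤
    K * ∑ i : Fin 2, ∑ j : Fin 2, ‖U i j - (s • (1 : M2)) i j‖ ^ 2

def S_L6 : Prop := ∀ (m : ℕ) (ζ t : ℂ), ‖ζ‖ = 1 → ‖t‖ = 1 →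
  ta m ζ = ((‖ta m ζ‖ : ℝ) : ℂ) * t →
  ∑ i : Fin 2, ∑ j : Fin 2, ‖ell m ζ i j - (t • (1 : M2)) i j‖ ^ 2 = 4 - 4 * ‖ta m ζ‖

def S_L7 : Prop := Tendsto (fun m => ∫ x : X, ‖ta m (e 1 x)‖ ∂mu) atTop (𝓝 1)

def S_L8 : Prop := ∀ n m : ℕ, ∃ c : ℂ, ‖c‖ = 1 ∧
  ∫ x : X, (1 - ‖ta m (c * tt n x)‖) ∂mu ≤ ∫ x : X, (1 - ‖ta m (e 1 x)‖) ∂mu

def S_L9 : Prop := ∀ ε : ℝ, 0 < ε → ∃ (n m : ℕ) (c : ℂ), ‖c‖ = 1 ∧ dist4 n m c ≤ ε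

def S_TQU : Prop := ∀ (n m : ℕ) (c : ℂ), ‖c‖ = 1 → Uni (tq n m c)

def S_SQ : Prop := ∀ (n m : ℕ) (c : ℂ), ‖c‖ = 1 → ∃ d : ℂ, ‖d‖ = 1 ∧
  ∀ᵐ x ∂mu, (tq n m c x) ^ 2 = d * tt (n + m) x

def S_PAR4 : Prop := ∃ (n m N : ℕ → ℕ) (c : ℕ → ℂ), Par4 n m N c

def S_SQK : Prop := ∀ (n m N : ℕ → ℕ) (c : ℕ → ℂ), (∀ k, 0 < N k) → (∀ k, ‖c k‖ = 1) →
  ∀ k, Uni (TQ n m N c k) ∧ ∃ d : ℂ, ‖d‖ = 1 ∧
    ∀ᵐ x ∂mu, (TQ n m N c k x) ^ 2 = d * TT (fun j => n j + m j) N k x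

def S_PHI4 : Prop := ∀ n m N c, Par4 n m N c → ∃ Φ : X → M4, IsPhi4 n m N c Φ

def S_PAN4 : Prop := ∀ (n m N : ℕ → ℕ) (c : ℕ → ℂ), (∀ k, 0 < N k) → (∀ k, ‖c k‖ = 1) →
  ∀ k (g : X) (I J : Idx), Continuous (fun x => CQ n m N c k g x I J) ∧
    An (fun x => CQ n m N c k g x I J)

/-! ### operators -/

def S_GL4 : Prop := ∀ Φ : X → M4, (∀ I J, AEStronglyMeasurable (fun x => Φ x I J) mu) →
  (∀ᵐ x ∂mu, (Φ x)ᴴ * Φ x = 1) → ∀ (J : Idx) (k : ℤ), ∃ a : Idx → L2, ∀ f : Idx → L2,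
    fourierCoeff (fun x => ∑ I : Idx, conj (Φ x I J) * f I x) k = ∑ I : Idx, ⟪a I, f I⟫_ℂ

def S_AG4 : Prop := ∀ n m N c Φ, Par4 n m N c → IsPhi4 n m N c Φ → ∀ (k : ℕ) (g : X),
  N k • g = 0 → ∀ A : L2 →L[ℂ] L2,
  (∀ f : L2, (A f : X → ℂ) =ᵐ[mu] fun x => wq n m N c k g x * f (x + g)) → InA4 Φ A

def S_AU4 : Prop := ∀ Φ : X → M4, (∀ I J, AEStronglyMeasurable (fun x => Φ x I J) mu) →
  (∀ᵐ x ∂mu, (Φ x)ᴴ * Φ x = 1) →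
  (∀ A : L2 →L[ℂ] L2, (∀ f : L2, (A f : X → ℂ) =ᵐ[mu] fun x => e 1 x * f x) → InA4 Φ A) ∧
  (∀ A : L2 →L[ℂ] L2, (∀ f : L2, (A f : X → ℂ) =ᵐ[mu] fun x => e (-1) x * f x) → ¬ InA4 Φ A)

/-- the algebra is weakly closed -/
def S_CL4 : Prop := ∀ Φ : X → M4, (∀ I J, AEStronglyMeasurable (fun x => Φ x I J) mu) →
  (∀ᵐ x ∂mu, (Φ x)ᴴ * Φ x = 1) → ∃ Alg : Subalgebra ℂ (L2 →L[ℂ] L2),
    (∀ A, A ∈ Alg ↔ InA4 Φ A) ∧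
    ∀ T : L2 →L[ℂ] L2, (∀ (n : ℕ) (x y : Fin n → L2) (ε : ℝ), 0 < ε →
      ∃ S ∈ Alg, ∀ i, ‖inner ℂ ((T - S) (x i)) (y i)‖ < ε) → T ∈ Alg

/-! ### the scalar part, with the square of `D_k` -/

/-- the representation of `T_k φ` -/
def Rep2 (ν N : ℕ → ℕ) (φ : X → ℂ) (k : ℕ) : Prop :=
  ∃ (s : ℤ) (Ψ : X → ℂ) (i : ℕ → ℕ), Uni Ψ ∧ (∀ j, i j ≤ 2 * 5 ^ (ν j)) ∧
    ∀ᵐ x ∂mu, TT ν N k x * φ x =
      e s x * Ψ (N k • x) * ∏ j ∈ Finset.range k, bl (N j • x) ^ (i j)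

/-- the scalar invariance condition -/
def Inv2 (ν N : ℕ → ℕ) (φ : X → ℂ) : Prop :=
  ∀ (k : ℕ) (g : X), N k • g = 0 →
    An (fun x => DD ν N k x ^ 2 * (TT ν N k (x + g) * φ (x + g)) * conj (TT ν N k x * φ x))

def S_STEP2 : Prop := ∀ ν N, ParS ν N → ∀ φ, Uni φ → Inv2 ν N φ → ∀ k, Rep2 ν N φ k →
  Rep2 ν N φ (k + 1)

def S_FA2 : Prop := ∀ ν N, ParS ν N → ∀ φ, Uni φ → (∀ k, Rep2 ν N φ k) → ∀ k : ℕ,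
  ∃ (a : ℤ) (c : ℂ), a ≠ 0 ∧ ‖c‖ = 1 ∧ ∀ᵐ x ∂mu,
    ‖(φ (x + ((1 / (2 * (N k : ℝ)) : ℝ) : X))) ^ 2 -
      c * (bl (N k • x + ((1 / 2 : ℝ) : X)) / bl (N k • x)) ^ a * (φ x) ^ 2‖ ≤ (1 / 2 : ℝ) ^ k

def S_CON2 : Prop := ∀ ν N, ParS ν N → ∀ φ, Uni φ → (∀ k, Rep2 ν N φ k) → False

def S_NO2 : Prop := ∀ ν N, ParS ν N → ∀ φ, Uni φ → Inv2 ν N φ → False

/-! ### invariant subspaces of `L² ⊕ L²` -/

/-- invariance under multiplication by `z^n` -/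
def ZI (M : Submodule ℂ (L2 × L2)) (n : ℤ) : Prop :=
  ∀ p ∈ M, ∀ h : L2 × L2, (h.1 : X → ℂ) =ᵐ[mu] (fun x => e n x * p.1 x) →
    (h.2 : X → ℂ) =ᵐ[mu] (fun x => e n x * p.2 x) → h ∈ M

/-- invariance under the rotation operators with a family of unimodular weights -/
def RotInv (N : ℕ → ℕ) (w : ℕ → X → X → ℂ) (M : Submodule ℂ (L2 × L2)) : Prop :=
  ∀ (k : ℕ) (g : X), N k • g = 0 → ∀ p ∈ M, ∀ h : L2 × L2,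
    (h.1 : X → ℂ) =ᵐ[mu] (fun x => w k g x * p.1 (x + g)) →
    (h.2 : X → ℂ) =ᵐ[mu] (fun x => w k g x * p.2 (x + g)) → h ∈ M

/-- `Θ` is a wandering vector of `M` -/
def Wand (M : Submodule ℂ (L2 × L2)) (Θ : L2 × L2) : Prop :=
  Θ ∈ M ∧ (∀ᵐ x ∂mu, ‖Θ.1 x‖ ^ 2 + ‖Θ.2 x‖ ^ 2 = 1) ∧
    ∀ p ∈ M, An (fun x => conj (Θ.1 x) * p.1 x + conj (Θ.2 x) * p.2 x)

/-- a wandering vector exists if the subspace is not reducing -/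
def S_W1 : Prop := ∀ M : Submodule ℂ (L2 × L2), IsClosed (M : Set (L2 × L2)) → ZI M 1 →
  ¬ ZI M (-1) → ∃ Θ : L2 × L2, Wand M Θ

/-- a pure subspace with one wandering vector -/
def S_W2 : Prop := ∀ M : Submodule ℂ (L2 × L2), IsClosed (M : Set (L2 × L2)) → ZI M 1 →
  (∀ p : L2 × L2, (∀ (k : ℕ) (h : L2 × L2),
      (h.1 : X → ℂ) =ᵐ[mu] (fun x => e (-(k : ℤ)) x * p.1 x) →
      (h.2 : X → ℂ) =ᵐ[mu] (fun x => e (-(k : ℤ)) x * p.2 x) → h ∈ M) → p = 0) →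
  ∀ Θ : L2 × L2, Wand M Θ →
  (∀ Θ' : L2 × L2, Wand M Θ' → ¬ ∀ᵐ x ∂mu, conj (Θ.1 x) * Θ'.1 x + conj (Θ.2 x) * Θ'.2 x = 0) →
  ∀ p ∈ M, ∀ᵐ x ∂mu, Θ.1 x * p.2 x = Θ.2 x * p.1 x

/-- Wold decomposition -/
def S_W : Prop := ∀ M : Submodule ℂ (L2 × L2), IsClosed (M : Set (L2 × L2)) → ZI M 1 → M ≠ ⊥ →
  (∃ R : Submodule ℂ (L2 × L2), IsClosed (R : Set (L2 × L2)) ∧ R ≠ ⊥ ∧ ZI R 1 ∧ ZI R (-1) ∧
    ∀ p : L2 × L2, p ∈ R ↔ ∀ (k : ℕ) (h : L2 × L2),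
      (h.1 : X → ℂ) =ᵐ[mu] (fun x => e (-(k : ℤ)) x * p.1 x) →
      (h.2 : X → ℂ) =ᵐ[mu] (fun x => e (-(k : ℤ)) x * p.2 x) → h ∈ M) ∨
  (∃ Θ : L2 × L2, Wand M Θ ∧ ∀ p ∈ M, ∀ᵐ x ∂mu, Θ.1 x * p.2 x = Θ.2 x * p.1 x) ∨
  (∃ Θ Θ' : L2 × L2, Wand M Θ ∧ Wand M Θ' ∧
    ∀ᵐ x ∂mu, conj (Θ.1 x) * Θ'.1 x + conj (Θ.2 x) * Θ'.2 x = 0)

/-- reducing subspaces -/
def S_RR : Prop := ∀ R : Submodule ℂ (L2 × L2), IsClosed (R : Set (L2 × L2)) → ZI R 1 →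
  ZI R (-1) → (∃ q ∈ R, q ≠ 0 ∧ q.1 = 0) ∨
    ∀ p ∈ R, ∀ q ∈ R, ∀ᵐ x ∂mu, p.1 x * q.2 x = p.2 x * q.1 x

/-- a pair of functions whose ratio is invariant under a dense group is proportional -/
def S_PROP : Prop := ∀ N : ℕ → ℕ, N 0 = 1 → (∀ k, 0 < N k) → (∀ k, 2 * N k ∣ N (k + 1)) →
  ∀ f g : L2, (∀ k (h : X), N k • h = 0 → ∀ᵐ x ∂mu, f x * g (x + h) = g x * f (x + h)) →
  ∃ α β : ℂ, (α ≠ 0 ∨ β ≠ 0) ∧ β • f = α • g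

/-- the determinant of two orthogonal wandering vectors -/
def S_DET : Prop := ∀ (N : ℕ → ℕ) (w : ℕ → X → X → ℂ) (M : Submodule ℂ (L2 × L2)),
  (∀ k g, Uni (w k g)) → RotInv N w M → ∀ Θ Θ' : L2 × L2, Wand M Θ → Wand M Θ' →
  (∀ᵐ x ∂mu, conj (Θ.1 x) * Θ'.1 x + conj (Θ.2 x) * Θ'.2 x = 0) →
  ∃ φ : X → ℂ, Uni φ ∧ ∀ k (g : X), N k • g = 0 →
    An (fun x => (w k g x) ^ 2 * φ (x + g) * conj (φ x))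

/-- a nonzero invariant subspace of `L² ⊕ L²` contains a proportional pair -/
def S_PAIR : Prop := ∀ n m N c, Par4 n m N c → ∀ M : Submodule ℂ (L2 × L2),
  IsClosed (M : Set (L2 × L2)) → ZI M 1 → RotInv N (wq n m N c) M → M ≠ ⊥ →
  ∃ (α β : ℂ) (f : L2), (α ≠ 0 ∨ β ≠ 0) ∧ f ≠ 0 ∧ (α • f, β • f) ∈ M

/-- the algebra is transitive -/
def S_TR4 : Prop := ∀ n m N c Φ, Par4 n m N c → IsPhi4 n m N c Φ → ∀ M : Submodule ℂ L2,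
  IsClosed (M : Set L2) → (∀ A : L2 →L[ℂ] L2, InA4 Φ A → ∀ f ∈ M, A f ∈ M) → M = ⊥ ∨ M = ⊤

/-- the algebra is 2-transitive -/
def S_TWO : Prop := ∀ n m N c Φ, Par4 n m N c → IsPhi4 n m N c Φ →
  ∀ M : Submodule ℂ (L2 × L2), IsClosed (M : Set (L2 × L2)) →
  (∀ A : L2 →L[ℂ] L2, InA4 Φ A → ∀ p ∈ M, (A p.1, A p.2) ∈ M) →
  ∀ B : L2 →L[ℂ] L2, ∀ p ∈ M, (B p.1, B p.2) ∈ M

/-- the final statement -/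
def S_FIN : Prop := ∃ Alg : Subalgebra ℂ (L2 →L[ℂ] L2),
  (∀ T : L2 →L[ℂ] L2, (∀ (n : ℕ) (x y : Fin n → L2) (ε : ℝ), 0 < ε →
      ∃ S ∈ Alg, ∀ i, ‖inner ℂ ((T - S) (x i)) (y i)‖ < ε) → T ∈ Alg) ∧
  (∀ M : Submodule ℂ (L2 × L2), IsClosed (M : Set (L2 × L2)) →
    (∀ A ∈ Alg, ∀ p ∈ M, (A p.1, A p.2) ∈ M) →
    ∀ B : L2 →L[ℂ] L2, ∀ p ∈ M, (B p.1, B p.2) ∈ M) ∧ Alg ≠ ⊤

end

end Pool.Agent.H875A
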