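import Mathlib
import Pool.Agent.H875A.AR.Defs

/-! Project AR, task DET: the determinant of two orthogonal wandering vectors. -/

set_option autoImplicit false

open MeasureTheory Complex Filter
open scoped ComplexConjugate Matrix Topology InnerProductSpace

namespace Pool.Agent.H875A

open Pool.Agent.H460U (X mu M2 L2 e Uni Bd An bl Vm ell ta tt TT DD)

noncomputable section

namespace DETaux

theorem mp (g : X) : MeasurePreserving (fun x : X => x + g) mu mu :=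
  measurePreserving_add_right mu g

theorem memlp {w : X → ℂ} (hw : Uni w) (g : X) (f : L2) :
    MemLp (fun x => w x * f (x + g)) 2 mu := by
  have h1 : MemLp (fun x => (f : X → ℂ) (x + g)) 2 mu :=
    (Lp.memLp f).comp_measurePreserving (mp g)
  refine h1.congr_norm (hw.1.mul h1.1) ?_
  filter_upwards [hw.2] with x hx
  rw [norm_mul, hx, one_mul]

theorem an_congr {f g : X → ℂ} (h : f =ᵐ[mu] g) (hf : An f) : An g := by
  intro n hn
  rw [← hf n hn]
  exact (congrFun (fourierCoeff_congr_ae h) n).symm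

theorem integ {f : X → ℂ} (hf : MemLp f 2 mu) (n : ℤ) :
    Integrable (fun t => fourier n t • f t) mu := by
  have h1 : Integrable f mu := hf.integrable one_le_two
  refine h1.bdd_mul (c := 1) (fourier n).continuous.aestronglyMeasurable ?_
  refine Eventually.of_forall fun x => ?_
  rw [fourier_apply]
  simp

theorem an_sub {f g : X → ℂ} (hf : MemLp f 2 mu) (hg : MemLp g 2 mu) (ha : An f) (hb : An g) :
    An (fun x => f x - g x) := by
  intro n hn
  have h1 : fourierCoeff (fun x => f x - g x) n = fourierCoeff f n - fourierCoeff g n := by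
    unfold fourierCoeff
    rw [← integral_sub (integ hf (-n)) (integ hg (-n))]
    refine integral_congr_ae (Eventually.of_forall fun t => ?_)
    exact smul_sub _ _ _
  rw [h1, ha n hn, hb n hn, sub_zero]

/-- an entry of the matrix of a bounded pair against a bounded pair -/
theorem entry {a b c d : X → ℂ} (ha : AEStronglyMeasurable a mu)
    (hb : AEStronglyMeasurable b mu) (hc : AEStronglyMeasurable c mu)
    (hd : AEStronglyMeasurable d mu) (h1 : ∀ᵐ x ∂mu, ‖a x‖ ≤ 1 ∧ ‖b x‖ ≤ 1)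
    (h2 : ∀ᵐ x ∂mu, ‖c x‖ ≤ 1 ∧ ‖d x‖ ≤ 1) :
    MemLp (fun x => conj (a x) * c x + conj (b x) * d x) 2 mu ∧
      Bd (fun x => conj (a x) * c x + conj (b x) * d x) := by
  have hm : AEStronglyMeasurable (fun x => conj (a x) * c x + conj (b x) * d x) mu :=
    ((continuous_conj.comp_aestronglyMeasurable ha).mul hc).add
      ((continuous_conj.comp_aestronglyMeasurable hb).mul hd)
  have hbd : ∀ᵐ x ∂mu, ‖conj (a x) * c x + conj (b x) * d x‖ ≤ 2 := by
    filter_upwards [h1, h2] with x ⟨x1, x2⟩ ⟨x3, x4⟩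
    refine (norm_add_le _ _).trans ?_
    rw [norm_mul, norm_mul, RCLike.norm_conj, RCLike.norm_conj]
    have e1 : ‖a x‖ * ‖c x‖ ≤ 1 := mul_le_one₀ x1 (norm_nonneg _) x3
    have e2 : ‖b x‖ * ‖d x‖ ≤ 1 := mul_le_one₀ x2 (norm_nonneg _) x4
    linarith
  exact ⟨MemLp.of_bound hm 2 hbd, hm, 2, hbd⟩

theorem le_one {s t : ℝ} (hs : 0 ≤ s) (ht : 0 ≤ t) (h : s ^ 2 + t ^ 2 = 1) :
    s ≤ 1 ∧ t ≤ 1 := by
  constructor <;> nlinarith

/-- Lagrange identity -/
theorem lag (a b c d : ℂ) (h1 : ‖a‖ ^ 2 + ‖b‖ ^ 2 = 1) (h2 : ‖c‖ ^ 2 + ‖d‖ ^ 2 = 1)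
    (h3 : conj a * c + conj b * d = 0) : ‖a * d - b * c‖ = 1 := by
  have key : ((‖a * d - b * c‖ ^ 2 : ℝ) : ℂ) = 1 := by
    have n1 : ∀ z : ℂ, ((‖z‖ ^ 2 : ℝ) : ℂ) = z * conj z := by
      intro z
      rw [Complex.mul_conj, Complex.normSq_eq_norm_sq]
    have h1' : a * conj a + b * conj b = 1 := by
      rw [← n1, ← n1, ← Complex.ofReal_add, h1, Complex.ofReal_one]
    have h2' : c * conj c + d * conj d = 1 := by
      rw [← n1, ← n1, ← Complex.ofReal_add, h2, Complex.ofReal_one]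
    have h3' : a * conj c + b * conj d = 0 := by
      have := congrArg conj h3
      simpa [map_add, map_mul] using this
    rw [n1, map_sub, map_mul, map_mul]
    have e1 : (a * d - b * c) * (conj a * conj d - conj b * conj c) =
        (a * conj a + b * conj b) * (c * conj c + d * conj d) -
          (conj a * c + conj b * d) * (a * conj c + b * conj d) := by ring
    rw [e1, h1', h2', h3]
    ring
  have h4 : ‖a * d - b * c‖ ^ 2 = 1 := by exact_mod_cast key
  have h5 := norm_nonneg (a * d - b * c)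
  nlinarith

end DETaux

open DETaux in
theorem t_DET (H1 : Pool.Agent.H460U.S_H1) : S_DET := by
  intro N w M hw hrot Θ Θ' hΘ hΘ' hort
  have m1 := Lp.aestronglyMeasurable Θ.1
  have m2 := Lp.aestronglyMeasurable Θ.2
  have m3 := Lp.aestronglyMeasurable Θ'.1
  have m4 := Lp.aestronglyMeasurable Θ'.2
  have b1 : ∀ᵐ x ∂mu, ‖Θ.1 x‖ ≤ 1 ∧ ‖Θ.2 x‖ ≤ 1 := by
    filter_upwards [hΘ.2.1] with x hx
    exact le_one (norm_nonneg _) (norm_nonneg _) hx
  have b2 : ∀ᵐ x ∂mu, ‖Θ'.1 x‖ ≤ 1 ∧ ‖Θ'.2 x‖ ≤ 1 := by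
    filter_upwards [hΘ'.2.1] with x hx
    exact le_one (norm_nonneg _) (norm_nonneg _) hx
  refine ⟨fun x => Θ.1 x * Θ'.2 x - Θ.2 x * Θ'.1 x, ⟨(m1.mul m4).sub (m2.mul m3), ?_⟩, ?_⟩
  · filter_upwards [hΘ.2.1, hΘ'.2.1, hort] with x h1 h2 h3
    exact lag _ _ _ _ h1 h2 h3
  · intro k g hg
    have hwk := hw k g
    -- the transported vectors
    have tr : ∀ T : L2 × L2, T ∈ M → (∀ᵐ x ∂mu, ‖T.1 x‖ ≤ 1 ∧ ‖T.2 x‖ ≤ 1) →
        ∃ h : L2 × L2, h ∈ M ∧ ((h.1 : X → ℂ) =ᵐ[mu] fun x => w k g x * T.1 (x + g)) ∧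
          ((h.2 : X → ℂ) =ᵐ[mu] fun x => w k g x * T.2 (x + g)) ∧
          ∀ᵐ x ∂mu, ‖h.1 x‖ ≤ 1 ∧ ‖h.2 x‖ ≤ 1 := by
      intro T hT hb
      refine ⟨((memlp hwk g T.1).toLp _, (memlp hwk g T.2).toLp _),
        hrot k g hg T hT _ (memlp hwk g T.1).coeFn_toLp (memlp hwk g T.2).coeFn_toLp,
        (memlp hwk g T.1).coeFn_toLp, (memlp hwk g T.2).coeFn_toLp, ?_⟩
      have hb' := (mp g).quasiMeasurePreserving.ae hb
      filter_upwards [(memlp hwk g T.1).coeFn_toLp, (memlp hwk g T.2).coeFn_toLp, hb',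
        hwk.2] with x e1 e2 e3 e4
      change ‖((memlp hwk g T.1).toLp _ : L2) x‖ ≤ 1 ∧ ‖((memlp hwk g T.2).toLp _ : L2) x‖ ≤ 1
      rw [e1, e2, norm_mul, norm_mul, e4, one_mul, one_mul]
      exact e3
    obtain ⟨h, hM, h1, h2, hb⟩ := tr Θ hΘ.1 b1
    obtain ⟨h', hM', h1', h2', hb'⟩ := tr Θ' hΘ'.1 b2
    have q1 := Lp.aestronglyMeasurable h.1
    have q2 := Lp.aestronglyMeasurable h.2
    have q3 := Lp.aestronglyMeasurable h'.1
    have q4 := Lp.aestronglyMeasurable h'.2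
    have C11 := entry m1 m2 q1 q2 b1 hb
    have C12 := entry m1 m2 q3 q4 b1 hb'
    have C21 := entry m3 m4 q1 q2 b2 hb
    have C22 := entry m3 m4 q3 q4 b2 hb'
    have A11 := hΘ.2.2 h hM
    have A12 := hΘ.2.2 h' hM'
    have A21 := hΘ'.2.2 h hM
    have A22 := hΘ'.2.2 h' hM'
    have P1 := H1 _ _ C11.1 A11 C22.2 A22
    have P2 := H1 _ _ C12.1 A12 C21.2 A21
    refine an_congr ?_ (an_sub P1.1 P2.1 P1.2 P2.2)
    filter_upwards [h1, h2, h1', h2'] with x x1 x2 x3 x4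
    rw [x1, x2, x3, x4, map_sub, map_mul, map_mul]
    ring

end

end Pool.Agent.H875A
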