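import Pool.Agent.H875A.AR.Defs

set_option autoImplicit false

open MeasureTheory Complex Filter
open scoped ComplexConjugate Matrix Topology InnerProductSpace

namespace Pool.Agent.H875A

open Pool.Agent.H460U (X mu M2 L2 e Uni Bd An bl Vm ell ta tt TT DD)

theorem t_FIN (hP : S_PAR4) (hΦ : S_PHI4) (hC : S_CL4) (hA : S_AU4) (hT : S_TWO)
    (hO : Pool.Agent.H460U.S_OP) : S_FIN := by
  obtain ⟨n, m, N, c, hPar⟩ := hP
  obtain ⟨Φ, hF⟩ := hΦ n m N c hPar
  obtain ⟨Alg, hAlg, hcl⟩ := hC Φ hF.meas hF.unit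
  refine ⟨Alg, hcl, ?_, ?_⟩
  · intro M hM hinv
    exact hT n m N c Φ hPar hF M hM (fun A hA' p hp => hinv A ((hAlg A).2 hA') p hp)
  · intro htop
    have hu : Uni (fun x => e (-1) x) := by
      refine ⟨?_, ?_⟩
      · exact (ContinuousMap.continuous (fourier (-1) : C(X, ℂ))).aestronglyMeasurable
      · refine Eventually.of_forall (fun x => ?_)
        show ‖(fourier (-1) x : ℂ)‖ = 1
        simp [fourier_apply]
    obtain ⟨V, hV⟩ := hO (fun x => e (-1) x) 0 hu
    refine (hA Φ hF.meas hF.unit).2 V (fun f => ?_) ((hAlg V).1 (by rw [htop]; trivial))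
    have := hV f
    simpa using this

end Pool.Agent.H875A
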