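import Pool.Agent.H875A.AR.Defs

/-! GL4: the coefficients are continuous linear functionals (helper996, model: helper460 GL) -/

set_option autoImplicit false

open MeasureTheory Complex Filter
open scoped ComplexConjugate Matrix Topology InnerProductSpace

namespace Pool.Agent.H875A

open Pool.Agent.H460U

namespace GL4aux

theorem bound (A : M4) (hA : Aᴴ * A = 1) (I J : Idx) : ‖A I J‖ ≤ 1 := by
  have h1 : (Aᴴ * A) J J = 1 := by rw [hA]; simp
  rw [Matrix.mul_apply] at h1
  have h2 : ∑ K : Idx, ‖A K J‖ ^ 2 = 1 := by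
    have h3 : ((∑ K : Idx, ‖A K J‖ ^ 2 : ℝ) : ℂ) = 1 := by
      rw [← h1]
      push_cast
      refine Finset.sum_congr rfl (fun K _ => ?_)
      rw [Matrix.conjTranspose_apply, Complex.star_def, Complex.conj_mul']
    exact_mod_cast h3
  have h3 : ‖A I J‖ ^ 2 ≤ 1 := by
    rw [← h2]
    exact Finset.single_le_sum (f := fun K : Idx => ‖A K J‖ ^ 2) (fun K _ => by positivity)
      (Finset.mem_univ I)
  nlinarith [norm_nonneg (A I J)]

end GL4aux

theorem t_GL4 : S_GL4 := by
  intro Φ hm hu J n
  have hmem : ∀ I, MemLp (fun x => e n x * Φ x I J) 2 mu := by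
    intro I
    refine MemLp.of_bound ?_ 1 ?_
    · exact ((fourier n).continuous.aestronglyMeasurable).mul (hm I J)
    · filter_upwards [hu] with x hx
      rw [norm_mul]
      have h1 : ‖e n x‖ = 1 := by
        unfold e
        rw [fourier_apply]
        exact Circle.norm_coe _
      rw [h1, one_mul]
      exact GL4aux.bound _ hx I J
  refine ⟨fun I => (hmem I).toLp _, ?_⟩
  intro f
  have h1 : ∑ I : Idx, ⟪(hmem I).toLp _, f I⟫_ℂ =
      ∫ x, ∑ I : Idx, ⟪((hmem I).toLp _ : X → ℂ) x, (f I : X → ℂ) x⟫_ℂ ∂mu := by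
    rw [integral_finsetSum _ (fun I _ => L2.integrable_inner _ (f I))]
    refine Finset.sum_congr rfl (fun I _ => ?_)
    rw [L2.inner_def]
  rw [h1]
  unfold fourierCoeff
  apply integral_congr_ae
  have hall : ∀ᵐ x ∂mu, ∀ I : Idx, ((hmem I).toLp _ : X → ℂ) x = e n x * Φ x I J := by
    rw [ae_all_iff]
    intro I
    exact MemLp.coeFn_toLp (hmem I)
  filter_upwards [hall] with x hx
  rw [smul_eq_mul, Finset.mul_sum]
  refine Finset.sum_congr rfl (fun I _ => ?_)
  rw [hx I]
  simp only [RCLike.inner_apply, map_mul, e, fourier_neg]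
  ring

end Pool.Agent.H875A
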