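import Pool.Agent.H875A.AR.Defs

set_option autoImplicit false

open MeasureTheory Complex Filter
open scoped ComplexConjugate Matrix Topology InnerProductSpace

namespace Pool.Agent.H875A

open Pool.Agent.H460U (X mu M2 L2 e Uni Bd An bl Vm ell ta tt TT DD)

namespace L1aux

theorem flat_mul (A B : B4) : flat (A * B) = flat A * flat B := by
  ext I J
  rw [Matrix.mul_apply, Fintype.sum_prod_type]
  show (A * B) I.1 J.1 I.2 J.2 = _
  rw [Matrix.mul_apply, Matrix.sum_apply]
  refine Finset.sum_congr rfl fun k _ => ?_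
  rw [Matrix.mul_apply]
  rfl

theorem flat_conj (A : B4) : flat Aᴴ = (flat A)ᴴ := by
  ext I J
  rfl

theorem flat_one : flat (1 : B4) = 1 := by
  ext I J
  show (1 : B4) I.1 J.1 I.2 J.2 = (1 : M4) I J
  rw [Matrix.one_apply, Matrix.one_apply]
  by_cases h1 : I.1 = J.1
  · rw [if_pos h1, Matrix.one_apply]
    by_cases h2 : I.2 = J.2
    · rw [if_pos h2, if_pos (Prod.ext h1 h2)]
    · rw [if_neg h2, if_neg (fun h => h2 (by rw [h]))]
  · rw [if_neg h1, if_neg (fun h => h1 (by rw [h]))]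
    rfl

theorem iso_mul {A B : B4} (hA : Aᴴ * A = 1) (hB : Bᴴ * B = 1) : (A * B)ᴴ * (A * B) = 1 := by
  rw [Matrix.conjTranspose_mul, Matrix.mul_assoc, ← Matrix.mul_assoc Aᴴ, hA, Matrix.one_mul, hB]

theorem sq38 : (Real.sqrt (3/8) : ℝ) * Real.sqrt (3/8) + Real.sqrt (5/8) * Real.sqrt (5/8) = 1 := by
  rw [Real.mul_self_sqrt (by norm_num), Real.mul_self_sqrt (by norm_num)]
  norm_num

theorem sq38c : ((Real.sqrt (3/8) : ℝ) : ℂ) * ((Real.sqrt (3/8) : ℝ) : ℂ) +
    ((Real.sqrt (5/8) : ℝ) : ℂ) * ((Real.sqrt (5/8) : ℝ) : ℂ) = 1 := by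
  exact_mod_cast sq38

theorem V1 : Vm * Vmᵀ = 1 := by
  have h := sq38c
  unfold Vm
  generalize ((Real.sqrt (3/8) : ℝ) : ℂ) = s at *
  generalize ((Real.sqrt (5/8) : ℝ) : ℂ) = t at *
  ext i j
  fin_cases i <;> fin_cases j <;>
    simp [Matrix.mul_apply, Fin.sum_univ_two] <;> first | linear_combination h | ring

theorem V2 : Vmᵀ * Vm = 1 := mul_eq_one_comm.1 V1

theorem VBV : VB * VBt = 1 := by
  have h := Matrix.map_mul (L := Vm) (M := Vmᵀ) (f := algebraMap ℂ M2)
  rw [V1] at h
  have h1 : VB = Vm.map (algebraMap ℂ M2) := by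
    unfold VB
    congr 1
    funext z
    rw [Algebra.algebraMap_eq_smul_one]
  have h2 : VBt = Vmᵀ.map (algebraMap ℂ M2) := by
    unfold VBt
    congr 1
    funext z
    rw [Algebra.algebraMap_eq_smul_one]
  rw [h1, h2, ← h]
  exact Matrix.map_one _ (map_zero _) (map_one _)

theorem VBV' : VBt * VB = 1 := by
  have h := Matrix.map_mul (L := Vmᵀ) (M := Vm) (f := algebraMap ℂ M2)
  rw [V2] at h
  have h1 : VB = Vm.map (algebraMap ℂ M2) := by
    unfold VB
    congr 1
    funext z
    rw [Algebra.algebraMap_eq_smul_one]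
  have h2 : VBt = Vmᵀ.map (algebraMap ℂ M2) := by
    unfold VBt
    congr 1
    funext z
    rw [Algebra.algebraMap_eq_smul_one]
  rw [h1, h2, ← h]
  exact Matrix.map_one _ (map_zero _) (map_one _)

theorem Vreal (i j : Fin 2) : star (Vm i j) = Vm i j := by
  fin_cases i <;> fin_cases j <;> simp [Vm]

theorem VBc : VBᴴ = VBt := by
  ext1 i j
  show star (Vm j i • (1 : M2)) = Vm j i • (1 : M2)
  rw [star_smul, star_one, Vreal]

theorem VBtc : VBtᴴ = VB := by
  rw [← VBc, Matrix.conjTranspose_conjTranspose]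

theorem base (U : M2) (hU : Uᴴ * U = 1) : (ellB 0 U)ᴴ * ellB 0 U = 1 := by
  have hU' : star U * U = 1 := hU
  have hs : star ((1 / 2 : ℂ)) = 1 / 2 := by simp
  set a : M2 := (1 / 2 : ℂ) • (1 + U) with ha
  set b : M2 := (1 / 2 : ℂ) • (1 - U) with hb
  have hsa : star a = (1 / 2 : ℂ) • (1 + star U) := by
    rw [ha, star_smul, hs, star_add, star_one]
  have hsb : star b = (1 / 2 : ℂ) • (1 - star U) := by
    rw [hb, star_smul, hs, star_sub, star_one]
  have h1 : star a * a + star b * b = 1 := by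
    rw [hsa, hsb, ha, hb, smul_mul_smul_comm, smul_mul_smul_comm, ← smul_add]
    have : (1 + star U) * (1 + U) + (1 - star U) * (1 - U) = (2 : ℂ) • (1 + star U * U) := by
      rw [two_smul]; noncomm_ring
    rw [this, hU', smul_smul]
    rw [show (1 : M2) + 1 = (2 : ℂ) • 1 by rw [two_smul], smul_smul]
    norm_num
  have h2 : star a * b + star b * a = 0 := by
    rw [hsa, hsb, ha, hb, smul_mul_smul_comm, smul_mul_smul_comm, ← smul_add]
    have : (1 + star U) * (1 - U) + (1 - star U) * (1 + U) = (2 : ℂ) • (1 - star U * U) := by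
      rw [two_smul]; noncomm_ring
    rw [this, hU', sub_self, smul_zero, smul_zero]
  have hE : ellB 0 U = !![a, b; b, a] := rfl
  rw [hE]
  ext1 i j
  rw [Matrix.mul_apply, Fin.sum_univ_two, Matrix.conjTranspose_apply, Matrix.conjTranspose_apply]
  fin_cases i <;> fin_cases j
  · simpa using h1
  · simpa using h2
  · have h3 : star b * a + star a * b = 0 := by rw [add_comm]; exact h2
    simpa using h3
  · have h3 : star b * b + star a * a = 1 := by rw [add_comm]; exact h1
    simpa using h3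

theorem all (m : ℕ) (U : M2) (hU : Uᴴ * U = 1) : (ellB m U)ᴴ * ellB m U = 1 := by
  induction m with
  | zero => exact base U hU
  | succ m ih =>
    have hV : VBᴴ * VB = 1 := by rw [VBc]; exact VBV'
    have hVt : VBtᴴ * VBt = 1 := by rw [VBtc]; exact VBV
    have h1 : (VB * ellB m U * VBt)ᴴ * (VB * ellB m U * VBt) = 1 := iso_mul (iso_mul hV ih) hVt
    have h2 : (VBt * ellB m U * VB)ᴴ * (VBt * ellB m U * VB) = 1 := iso_mul (iso_mul hVt ih) hV
    exact iso_mul (iso_mul (iso_mul (iso_mul h1 h2) ih) h2) h1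

end L1aux

open L1aux in
theorem t_L1 : S_L1 := by
  intro m U hU
  rw [← flat_conj, ← flat_mul, all m U hU, flat_one]

end Pool.Agent.H875A
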