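import Pool.Agent.H875A.AR.Defs

set_option autoImplicit false

open MeasureTheory Complex Filter
open scoped ComplexConjugate Matrix Topology InnerProductSpace

namespace Pool.Agent.H875A

open Pool.Agent.H460U (X mu M2 L2 e Uni Bd An bl Vm ell ta tt TT DD)

namespace L2aux

/-- the ring homomorphism `w ↦ w • 1` -/
noncomputable abbrev φ : ℂ →+* M2 := algebraMap ℂ M2

theorem φ_apply (w : ℂ) : φ w = w • (1 : M2) := Algebra.algebraMap_eq_smul_one w

theorem VB_eq : VB = Vm.map φ := by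
  unfold VB
  congr 1
  funext z
  rw [φ_apply]

theorem VBt_eq : VBt = Vmᵀ.map φ := by
  unfold VBt
  congr 1
  funext z
  rw [φ_apply]

theorem all (m : ℕ) (ζ : ℂ) : ellB m (ζ • (1 : M2)) = (ell m ζ).map φ := by
  induction m with
  | zero =>
    have h1 : (1 / 2 : ℂ) • ((1 : M2) + ζ • (1 : M2)) = φ ((1 + ζ) / 2) := by
      rw [φ_apply]
      module
    have h2 : (1 / 2 : ℂ) • ((1 : M2) - ζ • (1 : M2)) = φ ((1 - ζ) / 2) := by
      rw [φ_apply]
      module
    have hE : ellB 0 (ζ • (1 : M2)) = !![φ ((1 + ζ) / 2), φ ((1 - ζ) / 2);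
        φ ((1 - ζ) / 2), φ ((1 + ζ) / 2)] := by
      rw [← h1, ← h2]
      rfl
    rw [hE]
    ext1 i j
    fin_cases i <;> fin_cases j <;> rfl
  | succ m ih =>
    show (VB * ellB m _ * VBt) * (VBt * ellB m _ * VB) * ellB m _ *
      (VBt * ellB m _ * VB) * (VB * ellB m _ * VBt) = _
    rw [ih, VB_eq, VBt_eq]
    simp only [ell, Matrix.map_mul]

end L2aux

open L2aux in
theorem t_L2 : S_L2 := by
  intro m ζ I J
  show ellB m (ζ • (1 : M2)) I.1 J.1 I.2 J.2 = _
  rw [all]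
  show φ (ell m ζ I.1 J.1) I.2 J.2 = _
  rw [φ_apply]
  show ell m ζ I.1 J.1 * (1 : M2) I.2 J.2 = _
  rw [Matrix.one_apply]

end Pool.Agent.H875A
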