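import Pool.Agent.H875A.AR.Defs

set_option autoImplicit false

open MeasureTheory Complex Filter
open scoped ComplexConjugate Matrix Topology InnerProductSpace

namespace Pool.Agent.H875A

open Pool.Agent.H460U (X mu M2 L2 e Uni Bd An bl Vm ell ta tt TT DD)

noncomputable section

namespace L3aux

/-- polynomial of degree at most `d` -/
def P (d : ℕ) (f : ℂ → ℂ) : Prop := ∃ p : Polynomial ℂ, p.natDegree ≤ d ∧ ∀ x, f x = p.eval x

lemma P_const (c : ℂ) : P 0 (fun _ => c) := ⟨Polynomial.C c, by simp, by simp⟩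

lemma P_add {d : ℕ} {f g : ℂ → ℂ} (hf : P d f) (hg : P d g) : P d (fun x => f x + g x) := by
  obtain ⟨p, hp, hp'⟩ := hf
  obtain ⟨q, hq, hq'⟩ := hg
  exact ⟨p + q, (Polynomial.natDegree_add_le p q).trans (max_le hp hq), fun x => by
    simp only [hp', hq', Polynomial.eval_add]⟩

lemma P_mul {d e : ℕ} {f g : ℂ → ℂ} (hf : P d f) (hg : P e g) :
    P (d + e) (fun x => f x * g x) := by
  obtain ⟨p, hp, hp'⟩ := hf
  obtain ⟨q, hq, hq'⟩ := hg
  exact ⟨p * q, Polynomial.natDegree_mul_le.trans (Nat.add_le_add hp hq), fun x => by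
    simp only [hp', hq', Polynomial.eval_mul]⟩

lemma P_mono {d e : ℕ} {f : ℂ → ℂ} (h : d ≤ e) (hf : P d f) : P e f := by
  obtain ⟨p, hp, hp'⟩ := hf
  exact ⟨p, hp.trans h, hp'⟩

/-- matrices of polynomials -/
def PM (d : ℕ) (F : ℂ → M2) : Prop := ∀ i j, P d (fun x => F x i j)

lemma PM_const (A : M2) : PM 0 (fun _ => A) := fun i j => P_const (A i j)

lemma PM_mono {d e : ℕ} {F : ℂ → M2} (h : d ≤ e) (hF : PM d F) : PM e F :=
  fun i j => P_mono h (hF i j)

lemma PM_add {d : ℕ} {F G : ℂ → M2} (hF : PM d F) (hG : PM d G) : PM d (fun x => F x + G x) :=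
  fun i j => P_add (hF i j) (hG i j)

lemma PM_mul {d e : ℕ} {F G : ℂ → M2} (hF : PM d F) (hG : PM e G) :
    PM (d + e) (fun x => F x * G x) := by
  intro i j
  simp only [Matrix.mul_apply, Fin.sum_univ_two]
  exact P_add (P_mul (hF i 0) (hG 0 j)) (P_mul (hF i 1) (hG 1 j))

lemma PM_smul {d : ℕ} {F : ℂ → M2} (c : ℂ) (hF : PM d F) : PM d (fun x => c • F x) := by
  intro i j
  have := P_mul (P_const c) (hF i j)
  rw [zero_add] at this
  exact this

/-- block matrices of polynomials -/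
def PB (d : ℕ) (F : ℂ → B4) : Prop := ∀ i j, PM d (fun x => F x i j)

lemma PB_const (A : B4) : PB 0 (fun _ => A) := fun i j => PM_const (A i j)

lemma PB_mul {d e : ℕ} {F G : ℂ → B4} (hF : PB d F) (hG : PB e G) :
    PB (d + e) (fun x => F x * G x) := by
  intro i j
  simp only [Matrix.mul_apply, Fin.sum_univ_two]
  exact PM_add (PM_mul (hF i 0) (hG 0 j)) (PM_mul (hF i 1) (hG 1 j))

lemma PB_mono {d e : ℕ} {F : ℂ → B4} (h : d ≤ e) (hF : PB d F) : PB e F :=
  fun i j => PM_mono h (hF i j)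

lemma P_id : P 1 (fun x => x) := ⟨Polynomial.X, Polynomial.natDegree_X_le, by simp⟩

lemma PM_ell (n : ℕ) : PM (5 ^ n) (fun ξ => ell n ξ) := by
  induction n with
  | zero =>
    have h1 : P 1 (fun ξ : ℂ => (1 + ξ) / 2) := by
      have := P_mul (P_add (P_mono (Nat.zero_le 1) (P_const 1)) P_id) (P_const (1 / 2))
      convert this using 2
      ring
    have h2 : P 1 (fun ξ : ℂ => (1 - ξ) / 2) := by
      have h3 : P 1 (fun ξ : ℂ => (-1) * ξ) := by
        have := P_mul (P_const (-1)) P_id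
        simpa using this
      have := P_mul (P_add (P_mono (Nat.zero_le 1) (P_const 1)) h3) (P_const (1 / 2))
      convert this using 2
      ring
    intro i j
    fin_cases i <;> fin_cases j
    · simpa [ell] using h1
    · simpa [ell] using h2
    · simpa [ell] using h2
    · simpa [ell] using h1
  | succ n ih =>
    have a1 := PM_mul (PM_mul (PM_const Vm) ih) (PM_const Vmᵀ)
    have a2 := PM_mul (PM_mul (PM_const Vmᵀ) ih) (PM_const Vm)
    have := PM_mul (PM_mul (PM_mul (PM_mul a1 a2) ih) a2) a1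
    refine PM_mono ?_ this
    rw [pow_succ]
    omega

lemma PB_ellB (D : ℕ) (U : ℂ → M2) (hU : PM D U) (m : ℕ) :
    PB (D * 5 ^ m) (fun ξ => ellB m (U ξ)) := by
  induction m with
  | zero =>
    have h1 : PM D (fun ξ => (1 / 2 : ℂ) • (1 + U ξ)) :=
      PM_smul _ (PM_add (PM_mono (Nat.zero_le D) (PM_const 1)) hU)
    have h2 : PM D (fun ξ => (1 / 2 : ℂ) • (1 - U ξ)) := by
      have h3 : PM D (fun ξ => (-1 : ℂ) • U ξ) := PM_smul _ hU
      have h4 := PM_smul (1 / 2 : ℂ) (PM_add (PM_mono (Nat.zero_le D) (PM_const 1)) h3)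
      have e : (fun ξ => (1 / 2 : ℂ) • (1 - U ξ)) = fun ξ => (1 / 2 : ℂ) • (1 + (-1 : ℂ) • U ξ) := by
        funext ξ
        rw [neg_one_smul, sub_eq_add_neg]
      rw [e]
      exact h4
    rw [pow_zero, mul_one]
    intro i j
    fin_cases i <;> fin_cases j
    · exact h1
    · exact h2
    · exact h2
    · exact h1
  | succ m ih =>
    have a1 := PB_mul (PB_mul (PB_const VB) ih) (PB_const VBt)
    have a2 := PB_mul (PB_mul (PB_const VBt) ih) (PB_const VB)
    have := PB_mul (PB_mul (PB_mul (PB_mul a1 a2) ih) a2) a1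
    refine PB_mono ?_ this
    rw [pow_succ]
    have : D * (5 ^ m * 5) = 5 * (D * 5 ^ m) := by ring
    omega

end L3aux

open L3aux

theorem t_L3 : S_L3 := by
  intro n m c
  have h := PB_ellB (5 ^ n) (fun ξ => c • ell n ξ) (PM_smul c (PM_ell n)) m
  have h2 : ∀ I J : Idx, ∃ p : Polynomial ℂ, p.natDegree ≤ 5 ^ (n + m) ∧
      ∀ ξ, LL n m c ξ I J = p.eval ξ := by
    intro I J
    obtain ⟨p, hp, hp'⟩ := h I.1 J.1 I.2 J.2
    exact ⟨p, by rw [pow_add]; exact hp, fun ξ => hp' ξ⟩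
  choose p hp hp' using h2
  exact ⟨p, hp, hp'⟩

end

end Pool.Agent.H875A
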