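import Pool.Agent.H875A.AR.Defs

set_option autoImplicit false

open Complex
open scoped ComplexConjugate

namespace Pool.Agent.H875A

theorem t_L4 (h : S_L3) : S_L4 := by
  intro n m c I J
  obtain ⟨p, hdeg, hp⟩ := h n m c
  set d := 5 ^ (n + m) with hd
  refine ⟨∑ k ∈ Finset.range (d + 1),
    Polynomial.C (conj ((p J I).coeff k)) * Polynomial.X ^ (d - k), ?_⟩
  intro ξ hξ
  rw [hp J I ξ, Polynomial.eval_eq_sum_range' (Nat.lt_succ_of_le (hdeg J I)), map_sum,
    Finset.mul_sum, Polynomial.eval_finset_sum]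
  refine Finset.sum_congr rfl fun k hk => ?_
  have hk' : k ≤ d := Nat.lt_succ_iff.1 (Finset.mem_range.1 hk)
  have h1 : ξ * conj ξ = 1 := by
    rw [Complex.mul_conj, Complex.normSq_eq_norm_sq, hξ]; simp
  have h2 : ξ ^ d * conj ξ ^ k = ξ ^ (d - k) := by
    conv_lhs => rw [← Nat.sub_add_cancel hk', pow_add, mul_assoc, ← mul_pow, h1, one_pow, mul_one]
  rw [Polynomial.eval_mul, Polynomial.eval_C, Polynomial.eval_pow, Polynomial.eval_X, map_mul,
    map_pow, ← h2]
  ring

end Pool.Agent.H875A
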