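import Pool.Agent.H875A.AR.Defs

/-! task L5 -/

set_option autoImplicit false

open MeasureTheory Complex Filter
open scoped ComplexConjugate Matrix Topology InnerProductSpace

namespace Pool.Agent.H875A

open Pool.Agent.H460U (X mu M2 L2 e Uni Bd An bl Vm ell ta tt TT DD)

namespace L5aux

/-- distance -/
noncomputable def dl (U V : M2) : ℝ := ∑ i : Fin 2, ∑ j : Fin 2, ‖U i j - V i j‖

theorem dl_nonneg (U V : M2) : 0 ≤ dl U V :=
  Finset.sum_nonneg fun _ _ => Finset.sum_nonneg fun _ _ => norm_nonneg _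

/-- bounded and Lipschitz on the unitaries -/
def BL (f : M2 → ℂ) : Prop := ∃ C L : ℝ, 0 ≤ C ∧ 0 ≤ L ∧ ∀ U V : M2, Uᴴ * U = 1 → Vᴴ * V = 1 →
  ‖f U‖ ≤ C ∧ ‖f U - f V‖ ≤ L * dl U V

theorem BL_const (c : ℂ) : BL (fun _ => c) :=
  ⟨‖c‖, 0, norm_nonneg _, le_refl _, fun U V _ _ => ⟨le_refl _, by simp⟩⟩

theorem BL_add {f g : M2 → ℂ} (hf : BL f) (hg : BL g) : BL (fun U => f U + g U) := by
  obtain ⟨C, L, hC, hL, h⟩ := hf
  obtain ⟨C', L', hC', hL', h'⟩ := hg
  refine ⟨C + C', L + L', by positivity, by positivity, fun U V hU hV => ?_⟩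
  obtain ⟨a, b⟩ := h U V hU hV
  obtain ⟨a', b'⟩ := h' U V hU hV
  refine ⟨(norm_add_le _ _).trans (add_le_add a a'), ?_⟩
  have e : f U + g U - (f V + g V) = (f U - f V) + (g U - g V) := by ring
  rw [e, add_mul]
  exact (norm_add_le _ _).trans (add_le_add b b')

theorem BL_mul {f g : M2 → ℂ} (hf : BL f) (hg : BL g) : BL (fun U => f U * g U) := by
  obtain ⟨C, L, hC, hL, h⟩ := hf
  obtain ⟨C', L', hC', hL', h'⟩ := hg
  refine ⟨C * C', C * L' + L * C', by positivity, by positivity, fun U V hU hV => ?_⟩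
  obtain ⟨a, b⟩ := h U V hU hV
  obtain ⟨a', b'⟩ := h' U V hU hV
  have a'' := (h' V U hV hU).1
  refine ⟨?_, ?_⟩
  · rw [norm_mul]
    exact mul_le_mul a a' (norm_nonneg _) hC
  · have e : f U * g U - f V * g V = f U * (g U - g V) + (f U - f V) * g V := by ring
    rw [e]
    refine (norm_add_le _ _).trans ?_
    rw [norm_mul, norm_mul]
    have h1 : ‖f U‖ * ‖g U - g V‖ ≤ C * (L' * dl U V) := mul_le_mul a b' (norm_nonneg _) hC
    have h2 : ‖f U - f V‖ * ‖g V‖ ≤ (L * dl U V) * C' :=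
      mul_le_mul b a'' (norm_nonneg _) (mul_nonneg hL (dl_nonneg _ _))
    linarith

theorem BL_sum {ι : Type} (s : Finset ι) (f : ι → M2 → ℂ) (h : ∀ i ∈ s, BL (f i)) :
    BL (fun U => ∑ i ∈ s, f i U) := by
  classical
  induction s using Finset.induction_on with
  | empty => simpa using BL_const 0
  | insert a s ha ih =>
    have h1 := BL_add (h a (Finset.mem_insert_self _ _))
      (ih fun i hi => h i (Finset.mem_insert_of_mem hi))
    simpa [Finset.sum_insert ha] using h1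

theorem entry_le (U : M2) (hU : Uᴴ * U = 1) (i j : Fin 2) : ‖U i j‖ ≤ 1 := by
  have h1 := congrFun (congrFun hU j) j
  rw [Matrix.mul_apply, Matrix.one_apply_eq, Fin.sum_univ_two] at h1
  simp only [Matrix.conjTranspose_apply] at h1
  have e : ∀ z : ℂ, star z * z = ((‖z‖ ^ 2 : ℝ) : ℂ) := by
    intro z
    rw [mul_comm]
    change z * conj z = _
    rw [Complex.mul_conj, Complex.normSq_eq_norm_sq]
  rw [e, e] at h1
  have h2 : ‖U 0 j‖ ^ 2 + ‖U 1 j‖ ^ 2 = 1 := by exact_mod_cast h1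
  fin_cases i
  · change ‖U 0 j‖ ≤ 1
    nlinarith [norm_nonneg (U 0 j), sq_nonneg (‖U 1 j‖)]
  · change ‖U 1 j‖ ≤ 1
    nlinarith [norm_nonneg (U 1 j), sq_nonneg (‖U 0 j‖)]

theorem BL_entry (i j : Fin 2) : BL (fun U => U i j) := by
  refine ⟨1, 1, zero_le_one, zero_le_one, fun U V hU _ => ⟨entry_le U hU i j, ?_⟩⟩
  rw [one_mul]
  unfold dl
  have h1 : ‖U i j - V i j‖ ≤ ∑ j' : Fin 2, ‖U i j' - V i j'‖ :=
    Finset.single_le_sum (f := fun j' => ‖U i j' - V i j'‖) (fun _ _ => norm_nonneg _)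
      (Finset.mem_univ j)
  exact h1.trans (Finset.single_le_sum (f := fun i' => ∑ j' : Fin 2, ‖U i' j' - V i' j'‖)
    (fun _ _ => Finset.sum_nonneg fun _ _ => norm_nonneg _) (Finset.mem_univ i))

def BB (f : M2 → B4) : Prop := ∀ i j a b, BL (fun U => f U i j a b)

theorem BB_const (c : B4) : BB (fun _ => c) := fun _ _ _ _ => BL_const _

theorem BB_mul {f g : M2 → B4} (hf : BB f) (hg : BB g) : BB (fun U => f U * g U) := by
  intro i j a b
  have e : (fun U => (f U * g U) i j a b) =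
      fun U => ∑ k : Fin 2, ∑ c : Fin 2, f U i k a c * g U k j c b := by
    funext U
    rw [Matrix.mul_apply, Matrix.sum_apply]
    refine Finset.sum_congr rfl fun k _ => ?_
    rw [Matrix.mul_apply]
  rw [e]
  exact BL_sum _ _ fun k _ => BL_sum _ _ fun c _ => BL_mul (hf i k a c) (hg k j c b)

theorem BB_base : BB (ellB 0) := by
  have h1 : ∀ a b : Fin 2, BL (fun U => ((1 / 2 : ℂ) • (1 + U)) a b) := by
    intro a b
    have : (fun U : M2 => ((1 / 2 : ℂ) • (1 + U)) a b) =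
        fun U => (1 / 2 : ℂ) * ((1 : M2) a b + U a b) := by
      funext U
      rw [Matrix.smul_apply, Matrix.add_apply, smul_eq_mul]
    rw [this]
    exact BL_mul (BL_const _) (BL_add (BL_const _) (BL_entry a b))
  have h2 : ∀ a b : Fin 2, BL (fun U => ((1 / 2 : ℂ) • (1 - U)) a b) := by
    intro a b
    have : (fun U : M2 => ((1 / 2 : ℂ) • (1 - U)) a b) =
        fun U => (1 / 2 : ℂ) * ((1 : M2) a b + (-1) * U a b) := by
      funext U
      rw [Matrix.smul_apply, Matrix.sub_apply, smul_eq_mul]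
      ring
    rw [this]
    exact BL_mul (BL_const _) (BL_add (BL_const _) (BL_mul (BL_const _) (BL_entry a b)))
  intro i j a b
  fin_cases i <;> fin_cases j
  · exact h1 a b
  · exact h2 a b
  · exact h2 a b
  · exact h1 a b

theorem BB_all (m : ℕ) : BB (ellB m) := by
  induction m with
  | zero => exact BB_base
  | succ n ih =>
    have hA : BB (fun U => VB * ellB n U * VBt) := BB_mul (BB_mul (BB_const _) ih) (BB_const _)
    have hB : BB (fun U => VBt * ellB n U * VB) := BB_mul (BB_mul (BB_const _) ih) (BB_const _)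
    exact BB_mul (BB_mul (BB_mul (BB_mul hA hB) ih) hB) hA

end L5aux

open L5aux in
theorem t_L5 : S_L5 := by
  intro m
  have h := BB_all m
  choose C L hC hL h using h
  refine ⟨(∑ I : Idx, ∑ J : Idx, (L I.1 J.1 I.2 J.2) ^ 2) * 4 + 1, ?_, fun U hU s hs => ?_⟩
  · have : 0 ≤ ∑ I : Idx, ∑ J : Idx, (L I.1 J.1 I.2 J.2) ^ 2 :=
      Finset.sum_nonneg fun _ _ => Finset.sum_nonneg fun _ _ => sq_nonneg _
    linarith
  · have hS : (s • (1 : M2))ᴴ * (s • (1 : M2)) = 1 := by
      rw [Matrix.conjTranspose_smul, Matrix.conjTranspose_one, smul_mul_smul_comm, one_mul]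
      have : star s * s = 1 := by
        rw [mul_comm]
        change s * conj s = 1
        rw [Complex.mul_conj, Complex.normSq_eq_norm_sq, hs]
        norm_num
      rw [this, one_smul]
    let q : ℝ := ∑ i : Fin 2, ∑ j : Fin 2, ‖U i j - (s • (1 : M2)) i j‖ ^ 2
    have hq0 : 0 ≤ q := Finset.sum_nonneg fun _ _ => Finset.sum_nonneg fun _ _ => sq_nonneg _
    have hd : (dl U (s • (1 : M2))) ^ 2 ≤ 4 * q := by
      unfold dl
      simp only [q, Fin.sum_univ_two]
      generalize ‖U 0 0 - (s • (1 : M2)) 0 0‖ = a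
      generalize ‖U 0 1 - (s • (1 : M2)) 0 1‖ = b
      generalize ‖U 1 0 - (s • (1 : M2)) 1 0‖ = c
      generalize ‖U 1 1 - (s • (1 : M2)) 1 1‖ = d
      nlinarith [sq_nonneg (a - b), sq_nonneg (a - c), sq_nonneg (a - d), sq_nonneg (b - c),
        sq_nonneg (b - d), sq_nonneg (c - d)]
    have hterm : ∀ I J : Idx, ‖flat (ellB m U) I J - flat (ellB m (s • (1 : M2))) I J‖ ^ 2 ≤
        (L I.1 J.1 I.2 J.2) ^ 2 * (4 * q) := by
      intro I J
      have h1 := (h I.1 J.1 I.2 J.2 U (s • (1 : M2)) hU hS).2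
      have h2 : ‖flat (ellB m U) I J - flat (ellB m (s • (1 : M2))) I J‖ ^ 2 ≤
          (L I.1 J.1 I.2 J.2 * dl U (s • (1 : M2))) ^ 2 :=
        pow_le_pow_left₀ (norm_nonneg _) h1 2
      rw [mul_pow] at h2
      exact h2.trans (mul_le_mul_of_nonneg_left hd (sq_nonneg _))
    calc _ ≤ ∑ I : Idx, ∑ J : Idx, (L I.1 J.1 I.2 J.2) ^ 2 * (4 * q) :=
          Finset.sum_le_sum fun I _ => Finset.sum_le_sum fun J _ => hterm I J
      _ = (∑ I : Idx, ∑ J : Idx, (L I.1 J.1 I.2 J.2) ^ 2) * 4 * q := by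
          rw [Finset.sum_mul, Finset.sum_mul]
          refine Finset.sum_congr rfl fun I _ => ?_
          rw [Finset.sum_mul, Finset.sum_mul]
          refine Finset.sum_congr rfl fun J _ => ?_
          ring
      _ ≤ ((∑ I : Idx, ∑ J : Idx, (L I.1 J.1 I.2 J.2) ^ 2) * 4 + 1) * q := by
          rw [add_mul, one_mul]
          linarith

end Pool.Agent.H875A
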