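import Pool.Agent.H875A.AR.Defs

/-! Project AR, task L6 (helper940). -/

set_option autoImplicit false

open MeasureTheory Complex Filter
open scoped ComplexConjugate Matrix Topology InnerProductSpace

namespace Pool.Agent.H875A

open Pool.Agent.H460U (X mu M2 L2 e Uni Bd An bl Vm ell ta tt TT DD)

theorem t_L6 (h : Pool.Agent.H460U.S_E2) : S_L6 := by
  intro m ζ t hζ ht hta
  have hU := h m ζ hζ
  set E : M2 := ell m ζ with hE
  -- the diagonal entries of `Eᴴ E = 1`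
  have h0 : ‖E 0 0‖ ^ 2 + ‖E 1 0‖ ^ 2 = 1 := by
    have h1 := congrFun (congrFun hU 0) 0
    rw [Matrix.mul_apply, Fin.sum_univ_two, Matrix.one_apply_eq, Matrix.conjTranspose_apply,
      Matrix.conjTranspose_apply] at h1
    have h2 : (starRingEnd ℂ) (E 0 0) * E 0 0 + (starRingEnd ℂ) (E 1 0) * E 1 0 = 1 := h1
    rw [Complex.conj_mul', Complex.conj_mul'] at h2
    exact_mod_cast h2
  have h1 : ‖E 0 1‖ ^ 2 + ‖E 1 1‖ ^ 2 = 1 := by
    have h1 := congrFun (congrFun hU 1) 1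
    rw [Matrix.mul_apply, Fin.sum_univ_two, Matrix.one_apply_eq, Matrix.conjTranspose_apply,
      Matrix.conjTranspose_apply] at h1
    have h2 : (starRingEnd ℂ) (E 0 1) * E 0 1 + (starRingEnd ℂ) (E 1 1) * E 1 1 = 1 := h1
    rw [Complex.conj_mul', Complex.conj_mul'] at h2
    exact_mod_cast h2
  have hexp : ∀ z : ℂ, ‖z - t‖ ^ 2 = ‖z‖ ^ 2 - 2 * (z * (starRingEnd ℂ) t).re + 1 := by
    intro z
    have h2 := Complex.normSq_sub z t
    rw [Complex.normSq_eq_norm_sq, Complex.normSq_eq_norm_sq, Complex.normSq_eq_norm_sq, ht] at h2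
    rw [h2]
    ring
  have htr : (E 0 0 * (starRingEnd ℂ) t).re + (E 1 1 * (starRingEnd ℂ) t).re =
      2 * ‖ta m ζ‖ := by
    have h2 : E 0 0 + E 1 1 = 2 * (((‖ta m ζ‖ : ℝ) : ℂ) * t) := by
      rw [← hta]
      show E 0 0 + E 1 1 = 2 * ((E 0 0 + E 1 1) / 2)
      ring
    have h3 : E 0 0 * (starRingEnd ℂ) t + E 1 1 * (starRingEnd ℂ) t =
        ((2 * ‖ta m ζ‖ : ℝ) : ℂ) := by
      rw [← add_mul, h2]
      have h4 : t * (starRingEnd ℂ) t = 1 := by
        rw [Complex.mul_conj', ht]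
        norm_num
      push_cast
      linear_combination (2 * ((‖ta m ζ‖ : ℝ) : ℂ)) * h4
    have h5 := congrArg Complex.re h3
    rw [Complex.add_re, Complex.ofReal_re] at h5
    exact h5
  rw [Fin.sum_univ_two, Fin.sum_univ_two, Fin.sum_univ_two]
  have e00 : (t • (1 : M2)) 0 0 = t := by simp
  have e01 : (t • (1 : M2)) 0 1 = 0 := by simp
  have e10 : (t • (1 : M2)) 1 0 = 0 := by simp
  have e11 : (t • (1 : M2)) 1 1 = t := by simp
  rw [e00, e01, e10, e11, hexp, hexp, sub_zero, sub_zero]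
  linarith

end Pool.Agent.H875A
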