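import Pool.Agent.H875A.AR.Defs
import Pool.Agent.H460U.TR.E5

/-! task L7 -/

set_option autoImplicit false

open MeasureTheory Complex Filter
open scoped ComplexConjugate Matrix Topology InnerProductSpace

namespace Pool.Agent.H875A

open Pool.Agent.H460U (X mu M2 L2 e Uni Bd An bl Vm ell ta tt TT DD)

namespace L7aux

theorem e_norm (x : X) : ‖e 1 x‖ = 1 := by
  unfold e
  rw [fourier_apply]
  exact Circle.norm_coe _

theorem e_cont : Continuous (fun x : X => e 1 x) := (fourier 1).continuous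

theorem ae_ne : ∀ᵐ x ∂mu, e 1 x ≠ -1 := by
  have hs : Set.Subsingleton {x : X | e 1 x = -1} := fun x hx y hy =>
    Pool.Agent.H460U.E5_sub x y hx hy
  have h0 : mu {x : X | e 1 x = -1} = 0 := by
    rcases hs.eq_empty_or_singleton with h | ⟨x, h⟩
    · rw [h, measure_empty]
    · rw [h]
      exact Pool.Agent.H460U.E5_single x
  rw [ae_iff]
  simpa using h0

end L7aux

theorem t_L7 (h4 : Pool.Agent.H460U.S_E4) : S_L7 := by
  unfold S_L7
  have hint : ∫ _ : X, (1 : ℝ) ∂mu = 1 := by simp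
  have hmain : Tendsto (fun n => ∫ x : X, ‖ta n (e 1 x)‖ ∂mu) atTop
      (𝓝 (∫ _ : X, (1 : ℝ) ∂mu)) := ?_
  · rwa [hint] at hmain
  refine tendsto_integral_of_dominated_convergence (fun _ => (1 : ℝ)) ?_ ?_ ?_ ?_
  · intro n
    exact (((Pool.Agent.H460U.E5_ta_cont n).comp L7aux.e_cont).norm).aestronglyMeasurable
  · exact integrable_const _
  · intro n
    refine Eventually.of_forall fun x => ?_
    rw [norm_norm]
    exact (h4 n (e 1 x) (L7aux.e_norm x)).2.1
  · filter_upwards [L7aux.ae_ne] with x hx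
    refine Pool.Agent.H460U.E5_iter (fun n => ‖ta n (e 1 x)‖) ?_
      (fun n => (h4 n (e 1 x) (L7aux.e_norm x)).2.1)
      (fun n => (h4 n (e 1 x) (L7aux.e_norm x)).2.2)
    rw [norm_pos_iff, Pool.Agent.H460U.E5_ta_zero]
    intro h0
    apply hx
    linear_combination 2 * h0

end Pool.Agent.H875A
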