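import Pool.Agent.H875A.AR.Defs
import Pool.Agent.H460U.TR.E5

/-! task L8 -/

set_option autoImplicit false

open MeasureTheory Complex Filter
open scoped ComplexConjugate Matrix Topology InnerProductSpace

namespace Pool.Agent.H875A

open Pool.Agent.H460U (X mu M2 L2 e Uni Bd An bl Vm ell ta tt TT DD)

namespace L8aux

theorem e_norm (x : X) : ‖e 1 x‖ = 1 := by
  unfold e
  rw [fourier_apply]
  exact Circle.norm_coe _

theorem e_cont : Continuous (fun x : X => e 1 x) := (fourier 1).continuous

theorem e_add (x y : X) : e 1 (x + y) = e 1 x * e 1 y := by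
  unfold e
  rw [fourier_one, fourier_one, fourier_one, AddCircle.toCircle_add, Circle.coe_mul]

theorem e_surj (z : ℂ) (hz : ‖z‖ = 1) : ∃ y : X, e 1 y = z := by
  refine ⟨((Complex.arg z / (2 * Real.pi) : ℝ) : X), ?_⟩
  unfold e
  rw [fourier_one, AddCircle.toCircle_apply_mk, Circle.coe_exp]
  have h1 : (2 * Real.pi / 1 * (Complex.arg z / (2 * Real.pi)) : ℝ) = Complex.arg z := by
    have := Real.pi_pos
    field_simp
  rw [h1]
  have h2 := Complex.norm_mul_exp_arg_mul_I z
  rw [hz, Complex.ofReal_one, one_mul] at h2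
  exact h2

end L8aux

open L8aux in
theorem t_L8 (h6 : Pool.Agent.H460U.S_E6) (h4 : Pool.Agent.H460U.S_E4) : S_L8 := by
  intro n m
  obtain ⟨⟨hm, hn⟩, -⟩ := h6 n
  let F : ℂ → ℝ := fun ζ => 1 - ‖ta m ζ‖
  have hF : Continuous F := continuous_const.sub (Pool.Agent.H460U.E5_ta_cont m).norm
  have hFb : ∀ ζ, ‖ζ‖ = 1 → ‖F ζ‖ ≤ 1 := by
    intro ζ hζ
    have h1 := (h4 m ζ hζ).2.1
    have h2 := norm_nonneg (ta m ζ)
    rw [Real.norm_eq_abs, abs_le]
    simp only [F]
    constructor <;> linarith
  by_contra hcon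
  push Not at hcon
  let J : ℝ := ∫ x : X, (1 - ‖ta m (e 1 x)‖) ∂mu
  let f : X × X → ℝ := fun z => F (e 1 z.1 * tt n z.2)
  have hfm : AEStronglyMeasurable f (mu.prod mu) :=
    hF.comp_aestronglyMeasurable
      ((e_cont.comp continuous_fst).aestronglyMeasurable.mul hm.comp_snd)
  have hfi : Integrable f (mu.prod mu) := by
    refine Integrable.of_bound hfm 1 ?_
    have := Measure.quasiMeasurePreserving_snd (μ := mu) (ν := mu) |>.ae hn
    filter_upwards [this] with z hz
    apply hFb
    rw [norm_mul, e_norm, one_mul]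
    exact hz
  have hG : Integrable (fun y => ∫ x, f (y, x) ∂mu) mu := hfi.integral_prod_left
  have hsw : ∫ y, (∫ x, f (y, x) ∂mu) ∂mu = ∫ x, (∫ y, f (y, x) ∂mu) ∂mu :=
    integral_integral_swap hfi
  have hin : ∀ᵐ x ∂mu, (∫ y, f (y, x) ∂mu) = J := by
    filter_upwards [hn] with x hx
    obtain ⟨y0, hy0⟩ := e_surj _ hx
    have h1 : ∀ y, f (y, x) = F (e 1 (y + y0)) := by
      intro y
      simp only [f]
      rw [← hy0, e_add]
    rw [integral_congr_ae (Eventually.of_forall h1)]
    exact integral_add_right_eq_self (μ := mu) (fun y => F (e 1 y)) y0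
  have hJ : ∫ y, (∫ x, f (y, x) ∂mu) ∂mu = J := by
    rw [hsw, integral_congr_ae hin]
    simp
  have hpos : 0 < ∫ y, ((∫ x, f (y, x) ∂mu) - J) ∂mu := by
    rw [integral_pos_iff_support_of_nonneg_ae]
    · have : Function.support (fun y => (∫ x, f (y, x) ∂mu) - J) = Set.univ := by
        rw [Set.eq_univ_iff_forall]
        intro y
        rw [Function.mem_support]
        have := hcon (e 1 y) (e_norm y)
        exact (sub_pos.2 this).ne'
      rw [this]
      simp
    · refine Eventually.of_forall fun y => ?_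
      have := hcon (e 1 y) (e_norm y)
      exact (sub_pos.2 this).le
    · exact hG.sub (integrable_const _)
  rw [integral_sub hG (integrable_const _), hJ] at hpos
  simp at hpos

end Pool.Agent.H875A
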