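import Pool.Agent.H875A.AR.Defs

set_option autoImplicit false

open MeasureTheory Complex Filter
open scoped ComplexConjugate Matrix Topology InnerProductSpace

namespace Pool.Agent.H875A

open Pool.Agent.H460U (X mu M2 L2 e Uni Bd An bl Vm ell ta tt TT DD dist1)

namespace L9aux

theorem norm_tt (n : ℕ) (x : X) : ‖tt n x‖ = 1 := by
  unfold tt
  by_cases h : ta n (bl x) = 0
  · rw [if_pos h]; simp
  · rw [if_neg h, norm_div, Complex.norm_real, norm_norm]
    exact div_self (norm_ne_zero_iff.2 h)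

theorem norm_tq (n m : ℕ) (c : ℂ) (x : X) : ‖tq n m c x‖ = 1 := by
  unfold tq
  by_cases h : ta m (c * tt n x) = 0
  · rw [if_pos h]; simp
  · rw [if_neg h, norm_div, Complex.norm_real, norm_norm]
    exact div_self (norm_ne_zero_iff.2 h)

theorem tq_eq (n m : ℕ) (c : ℂ) (x : X) :
    ta m (c * tt n x) = ((‖ta m (c * tt n x)‖ : ℝ) : ℂ) * tq n m c x := by
  unfold tq
  by_cases h : ta m (c * tt n x) = 0
  · rw [if_pos h, h]; simp
  · rw [if_neg h]
    have h2 : ((‖ta m (c * tt n x)‖ : ℝ) : ℂ) ≠ 0 := by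
      exact_mod_cast norm_ne_zero_iff.2 h
    field_simp

theorem sq_split {a b c : ℂ} : ‖a - c‖ ^ 2 ≤ 2 * ‖a - b‖ ^ 2 + 2 * ‖b - c‖ ^ 2 := by
  have h1 : ‖a - c‖ ≤ ‖a - b‖ + ‖b - c‖ := by
    have : a - c = (a - b) + (b - c) := by ring
    rw [this]; exact norm_add_le _ _
  have h2 : 0 ≤ ‖a - c‖ := norm_nonneg _
  have h3 : ‖a - c‖ ^ 2 ≤ (‖a - b‖ + ‖b - c‖) ^ 2 := by gcongr
  nlinarith [sq_nonneg (‖a - b‖ - ‖b - c‖)]

theorem unit_inv_sub {t a d : ℂ} (ht : ‖t‖ = 1) : ‖t⁻¹ * a - d‖ = ‖a - t * d‖ := by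
  have ht0 : t ≠ 0 := by
    intro h; rw [h] at ht; simp at ht
  have h1 : a - t * d = t * (t⁻¹ * a - d) := by field_simp
  rw [h1, norm_mul, ht, one_mul]

/-- The integrand of `dist1`. -/
noncomputable def I1 (n : ℕ) (x : X) : ℝ :=
  ∑ i : Fin 2, ∑ j : Fin 2, ‖(tt n x)⁻¹ * ell n (bl x) i j - (1 : M2) i j‖ ^ 2

/-- pointwise bound -/
theorem point (h2 : S_L2) (h6 : S_L6) {m : ℕ} {K : ℝ}
    (hK : ∀ U : M2, Uᴴ * U = 1 → ∀ s : ℂ, ‖s‖ = 1 →
      ∑ I : Idx, ∑ J : Idx, ‖flat (ellB m U) I J - flat (ellB m (s • (1 : M2))) I J‖ ^ 2 ≤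
        K * ∑ i : Fin 2, ∑ j : Fin 2, ‖U i j - (s • (1 : M2)) i j‖ ^ 2)
    (hE2 : Pool.Agent.H460U.S_E2) {n : ℕ} {c : ℂ} (hc : ‖c‖ = 1) {x : X} (hx : ‖bl x‖ = 1) :
    ∑ I : Idx, ∑ J : Idx, ‖(tq n m c x)⁻¹ * LL n m c (bl x) I J - (1 : M4) I J‖ ^ 2 ≤
      2 * K * I1 n x + 16 * (1 - ‖ta m (c * tt n x)‖) := by
  classical
  set t := tq n m c x with ht
  have ht1 : ‖t‖ = 1 := norm_tq n m c x
  set s := c * tt n x with hs
  have hs1 : ‖s‖ = 1 := by rw [hs, norm_mul, hc, norm_tt, one_mul]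
  set U : M2 := c • ell n (bl x) with hU
  have hUU : Uᴴ * U = 1 := by
    rw [hU, Matrix.conjTranspose_smul, Matrix.smul_mul, Matrix.mul_smul, hE2 n _ hx, smul_smul]
    have : star c * c = 1 := by
      have h1 : star c * c = ((‖c‖ ^ 2 : ℝ) : ℂ) := by
        rw [mul_comm]
        have := Complex.mul_conj c
        rw [Complex.normSq_eq_norm_sq] at this
        exact this
      rw [h1, hc]; simp
    rw [this, one_smul]
  have hB := hK U hUU s hs1
  have hB2 : ∑ i : Fin 2, ∑ j : Fin 2, ‖U i j - (s • (1 : M2)) i j‖ ^ 2 = I1 n x := by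
    unfold I1
    apply Finset.sum_congr rfl
    intro i _
    apply Finset.sum_congr rfl
    intro j _
    congr 1
    rw [unit_inv_sub (norm_tt n x), hU, hs, Matrix.smul_apply, Matrix.smul_apply, smul_eq_mul,
      smul_eq_mul]
    have : c * ell n (bl x) i j - c * tt n x * (1 : M2) i j =
        c * (ell n (bl x) i j - tt n x * (1 : M2) i j) := by ring
    rw [this, norm_mul, hc, one_mul]
  rw [hB2] at hB
  have h6' := h6 m s t hs1 ht1 (tq_eq n m c x)
  have hC : ∑ I : Idx, ∑ J : Idx, ‖flat (ellB m (s • (1 : M2))) I J - t * (1 : M4) I J‖ ^ 2 =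
      2 * ∑ i : Fin 2, ∑ j : Fin 2, ‖ell m s i j - (t • (1 : M2)) i j‖ ^ 2 := by
    have h7 : ∀ I J : Idx, ‖flat (ellB m (s • (1 : M2))) I J - t * (1 : M4) I J‖ ^ 2 =
        (if I.2 = J.2 then ‖ell m s I.1 J.1 - (t • (1 : M2)) I.1 J.1‖ ^ 2 else 0) := by
      rintro ⟨i, i'⟩ ⟨j, j'⟩
      rw [h2]
      simp only [Matrix.smul_apply, smul_eq_mul, Matrix.one_apply, Prod.mk.injEq]
      by_cases hij : i' = j'
      · simp [hij]
      · simp [hij]
    simp only [h7, Fintype.sum_prod_type, Fin.sum_univ_two]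
    simp
    ring
  have h8 : ∑ I : Idx, ∑ J : Idx, ‖t⁻¹ * LL n m c (bl x) I J - (1 : M4) I J‖ ^ 2 ≤
      2 * ∑ I : Idx, ∑ J : Idx, ‖flat (ellB m U) I J - flat (ellB m (s • (1 : M2))) I J‖ ^ 2 +
      2 * ∑ I : Idx, ∑ J : Idx, ‖flat (ellB m (s • (1 : M2))) I J - t * (1 : M4) I J‖ ^ 2 := by
    simp only [Finset.mul_sum, ← Finset.sum_add_distrib]
    apply Finset.sum_le_sum
    intro I _
    apply Finset.sum_le_sum
    intro J _
    rw [unit_inv_sub ht1]
    exact sq_split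
  calc _ ≤ _ := h8
    _ ≤ 2 * (K * I1 n x) + 2 * (2 * (4 - 4 * ‖ta m s‖)) := by
        rw [hC, h6']
        gcongr
    _ = _ := by ring

theorem norm_e (x : X) : ‖e 1 x‖ = 1 := by
  unfold e
  rw [fourier_apply]
  exact Circle.norm_coe _

theorem cont_ell (hE3 : Pool.Agent.H460U.S_E3) (n : ℕ) (i j : Fin 2) :
    Continuous (fun ξ => ell n ξ i j) := by
  obtain ⟨p, hp⟩ := hE3 n
  have : (fun ξ => ell n ξ i j) = fun ξ => (p i j).eval ξ := by
    funext ξ; exact hp i j ξ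
  rw [this]
  exact (p i j).continuous

theorem cont_ta (hE3 : Pool.Agent.H460U.S_E3) (n : ℕ) : Continuous (ta n) := by
  unfold ta
  exact ((cont_ell hE3 n 0 0).add (cont_ell hE3 n 1 1)).div_const _

theorem cont_e : Continuous (e 1) := by
  unfold e
  exact (fourier 1).continuous

end L9aux

open L9aux in
theorem t_L9 (h2 : S_L2) (h5 : S_L5) (h6 : S_L6) (h7 : S_L7) (h8 : S_L8)
    (hE7 : Pool.Agent.H460U.S_E7) (hE6 : Pool.Agent.H460U.S_E6) (hE2 : Pool.Agent.H460U.S_E2)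
    (hE4 : Pool.Agent.H460U.S_E4) (hE3 : Pool.Agent.H460U.S_E3)
    (hH4 : Pool.Agent.H460U.S_H4) : S_L9 := by
  intro ε hε
  obtain ⟨hblc, hbl1, -, -⟩ := hH4
  -- choice of m
  have h7' : Tendsto (fun m => ∫ x : X, ‖ta m (e 1 x)‖ ∂mu) atTop (𝓝 1) := h7
  obtain ⟨m, hm⟩ := (h7'.eventually_const_lt (show 1 - ε / 32 < (1:ℝ) by linarith)).exists
  obtain ⟨K, hK0, hK⟩ := h5 m
  obtain ⟨n, hn⟩ := hE7 (ε / (4 * K)) (by positivity)
  obtain ⟨c, hc, hc2⟩ := h8 n m
  refine ⟨n, m, c, hc, ?_⟩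
  have hint1 : Integrable (fun x : X => ‖ta m (e 1 x)‖) mu := by
    refine Integrable.of_bound (((cont_ta hE3 m).comp cont_e).norm.aestronglyMeasurable) 1 ?_
    filter_upwards with x
    rw [norm_norm]
    exact (hE4 m _ (norm_e x)).2.1
  have hint2 : Integrable (fun x : X => 1 - ‖ta m (c * tt n x)‖) mu := by
    have hmeas : AEStronglyMeasurable (fun x : X => ‖ta m (c * tt n x)‖) mu := by
      have h9 : AEStronglyMeasurable (fun x : X => c * tt n x) mu :=
        (hE6 n).1.1.const_mul c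
      exact ((cont_ta hE3 m).comp_aestronglyMeasurable h9).norm
    refine Integrable.sub (integrable_const _) (Integrable.of_bound hmeas 1 ?_)
    filter_upwards with x
    rw [norm_norm]
    refine (hE4 m _ ?_).2.1
    rw [norm_mul, hc, norm_tt, one_mul]
  have hint3 : Integrable (fun x : X => I1 n x) mu := by
    unfold I1
    apply integrable_finsetSum
    intro i _
    apply integrable_finsetSum
    intro j _
    have hcont : Continuous (fun x : X => ell n (bl x) i j) := (cont_ell hE3 n i j).comp hblc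
    obtain ⟨C, hC⟩ := isCompact_univ.exists_bound_of_continuousOn hcont.continuousOn
    refine Integrable.of_bound (C := (C + 1) ^ 2) ?_ ?_
    · have h9 : AEStronglyMeasurable (fun x : X => (tt n x)⁻¹) mu :=
        ((hE6 n).1.1.aemeasurable.inv).aestronglyMeasurable
      exact (((h9.mul hcont.aestronglyMeasurable).sub aestronglyMeasurable_const).norm).pow 2
    · filter_upwards with x
      rw [Real.norm_of_nonneg (by positivity)]
      have h10 : ‖(tt n x)⁻¹ * ell n (bl x) i j - (1 : M2) i j‖ ≤ C + 1 := by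
        refine (norm_sub_le _ _).trans ?_
        rw [norm_mul, norm_inv, norm_tt, inv_one, one_mul]
        have h11 : ‖(1 : M2) i j‖ ≤ 1 := by
          rw [Matrix.one_apply]
          split_ifs <;> simp
        exact add_le_add (hC x (Set.mem_univ x)) h11
      gcongr
  have hle : dist4 n m c ≤ ∫ x : X, (2 * K * I1 n x + 16 * (1 - ‖ta m (c * tt n x)‖)) ∂mu := by
    unfold dist4
    apply integral_mono_of_nonneg
    · filter_upwards with x
      positivity
    · exact (hint3.const_mul _).add (hint2.const_mul _)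
    · filter_upwards with x
      exact point h2 h6 hK hE2 hc (hbl1 x)
  refine hle.trans ?_
  rw [integral_add (hint3.const_mul _) (hint2.const_mul _), integral_const_mul,
    integral_const_mul]
  have h12 : ∫ x : X, I1 n x ∂mu = dist1 n := rfl
  have h13 : ∫ x : X, (1 - ‖ta m (e 1 x)‖) ∂mu = 1 - ∫ x : X, ‖ta m (e 1 x)‖ ∂mu := by
    rw [integral_sub (integrable_const _) hint1]
    simp
  rw [h12]
  rw [h13] at hc2
  have h14 : 2 * K * dist1 n ≤ ε / 2 := by
    calc 2 * K * dist1 n ≤ 2 * K * (ε / (4 * K)) := by gcongr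
      _ = ε / 2 := by field_simp; ring
  linarith

end Pool.Agent.H875A
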