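import Pool.Agent.H875A.AR.Defs

set_option autoImplicit false

open MeasureTheory Complex Filter
open scoped ComplexConjugate Matrix Topology InnerProductSpace

namespace Pool.Agent.H875A

open Pool.Agent.H460U (X mu M2 L2 e Uni Bd An bl Vm ell ta tt TT DD)

theorem t_NO2 (hS : S_STEP2) (hC : S_CON2) : S_NO2 := by
  intro ν N hP φ hφ hI
  refine hC ν N hP φ hφ ?_
  intro k
  induction k with
  | zero =>
    refine ⟨0, φ, fun _ => 0, hφ, fun _ => Nat.zero_le _, Filter.Eventually.of_forall fun x => ?_⟩
    have h0 : N 0 = 1 := hP.zero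
    have h1 : TT ν N 0 x = 1 := rfl
    have h2 : e 0 x = 1 := by simp [e]
    rw [h0, h1, h2, one_smul, Finset.range_zero, Finset.prod_empty]
    ring
  | succ k ih => exact hS ν N hP φ hφ hI k ih

end Pool.Agent.H875A
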