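import Pool.Agent.H875A.AR.Defs

set_option autoImplicit false

open MeasureTheory Complex Filter
open scoped ComplexConjugate Matrix Topology InnerProductSpace

namespace Pool.Agent.H875A

open Pool.Agent.H460U (X mu M2 L2 e Uni Bd An bl Vm ell ta tt TT DD)

noncomputable section

namespace PAIR

theorem e_add (n : ℤ) (x g : X) : e n (x + g) = e n x * e n g := by
  simp [e, fourier_apply, AddCircle.toCircle_add, smul_add]

theorem e_zero (x : X) : e 0 x = 1 := by
  simp [e]

theorem e_norm (n : ℤ) (x : X) : ‖e n x‖ = 1 := by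
  simp [e, fourier_apply]

theorem e_neg (n : ℤ) (x : X) : e (-n) x * e n x = 1 := by
  have h : e (-n) x = conj (e n x) := by
    simp [e]
  rw [h, ← Complex.normSq_eq_conj_mul_self, Complex.normSq_eq_norm_sq, e_norm]
  simp

theorem e_uni (n : ℤ) : Uni (e n) := by
  refine ⟨?_, Eventually.of_forall fun x => e_norm n x⟩
  exact (show Continuous (fun x : X => fourier n x) from (fourier n).continuous).aestronglyMeasurable

theorem mp (g : X) : MeasurePreserving (fun x : X => x + g) mu mu :=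
  measurePreserving_add_right mu g

theorem ae_shift {P : X → Prop} (g : X) (h : ∀ᵐ x ∂mu, P x) : ∀ᵐ x ∂mu, P (x + g) :=
  (mp g).quasiMeasurePreserving.ae h

theorem uni_shift {f : X → ℂ} (g : X) (h : Uni f) : Uni (fun x => f (x + g)) :=
  ⟨h.1.comp_measurePreserving (mp g), ae_shift g h.2⟩

theorem uni_mul {f g : X → ℂ} (hf : Uni f) (hg : Uni g) : Uni (fun x => f x * g x) := by
  refine ⟨hf.1.mul hg.1, ?_⟩
  filter_upwards [hf.2, hg.2] with x h1 h2
  rw [norm_mul, h1, h2, mul_one]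

theorem uni_inv {f : X → ℂ} (hf : Uni f) : Uni (fun x => (f x)⁻¹) := by
  refine ⟨hf.1.aemeasurable.inv.aestronglyMeasurable, ?_⟩
  filter_upwards [hf.2] with x h1
  rw [norm_inv, h1, inv_one]

theorem an_congr {f g : X → ℂ} (h : f =ᵐ[mu] g) (hf : An f) : An g := by
  intro n hn
  rw [← hf n hn]
  unfold fourierCoeff
  refine integral_congr_ae ?_
  filter_upwards [h] with x hx
  rw [hx]

theorem fin {N : ℕ → ℕ} (hPR : S_PROP) (h0 : N 0 = 1) (hpos : ∀ k, 0 < N k)
    (hdvd : ∀ k, 2 * N k ∣ N (k + 1)) (M : Submodule ℂ (L2 × L2)) (p : L2 × L2) (hp : p ∈ M)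
    (hp0 : p ≠ 0)
    (h : ∀ k (g : X), N k • g = 0 → ∀ᵐ x ∂mu, p.1 x * p.2 (x + g) = p.2 x * p.1 (x + g)) :
    ∃ (α β : ℂ) (f : L2), (α ≠ 0 ∨ β ≠ 0) ∧ f ≠ 0 ∧ (α • f, β • f) ∈ M := by
  obtain ⟨α, β, hαβ, heq⟩ := hPR N h0 hpos hdvd p.1 p.2 h
  by_cases hα : α = 0
  · subst hα
    have hβ : β ≠ 0 := by
      rcases hαβ with h | h
      · exact absurd rfl h
      · exact h
    rw [zero_smul] at heq
    have hp1 : p.1 = 0 := by
      rcases smul_eq_zero.1 heq with h | h
      · exact absurd h hβ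
      · exact h
    refine ⟨0, 1, p.2, Or.inr one_ne_zero, ?_, ?_⟩
    · intro h2
      exact hp0 (Prod.ext hp1 h2)
    · rw [zero_smul, one_smul, ← hp1]
      exact hp
  · have e1 : α • (α⁻¹ • p.1) = p.1 := by
      rw [smul_smul, mul_inv_cancel₀ hα, one_smul]
    have e2 : β • (α⁻¹ • p.1) = p.2 := by
      rw [smul_comm, heq, smul_smul, inv_mul_cancel₀ hα, one_smul]
    refine ⟨α, β, α⁻¹ • p.1, Or.inl hα, ?_, ?_⟩
    · intro h2
      rw [h2, smul_zero] at e1 e2
      exact hp0 (Prod.ext e1.symm e2.symm)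
    · rw [e1, e2]
      exact hp

end PAIR

open PAIR in
theorem t_PAIR (hW : S_W) (hRR : S_RR) (hPR : S_PROP) (hDET : S_DET) (hNO : S_NO2)
    (hSQ : S_SQK) (hTD : Pool.Agent.H460U.S_TD) (hOP : Pool.Agent.H460U.S_OP) : S_PAIR := by
  intro n m N c hpar M hMc hZ hR hM
  set ν : ℕ → ℕ := fun j => n j + m j with hν
  have hS := hpar.scal
  have hsq := hSQ n m N c hS.pos hpar.unit
  have htd := hTD ν N hS.pos
  -- the weights are unimodular
  have hw : ∀ k g, Uni (wq n m N c k g) := by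
    intro k g
    have hD : Uni (DD ν N k) :=
      ⟨(htd k).2.1.aestronglyMeasurable, Eventually.of_forall (htd k).2.2.1⟩
    exact uni_mul (uni_mul hD (uni_shift g (hsq k).1)) (uni_inv (hsq k).1)
  -- cancellation of the weight
  have hcancel : ∀ (p q : L2 × L2) (k : ℕ) (g : X),
      (q.1 : X → ℂ) =ᵐ[mu] (fun x => wq n m N c k g x * p.1 (x + g)) →
      (q.2 : X → ℂ) =ᵐ[mu] (fun x => wq n m N c k g x * p.2 (x + g)) →
      (∀ᵐ x ∂mu, p.1 x * q.2 x = p.2 x * q.1 x) →
      ∀ᵐ x ∂mu, p.1 x * p.2 (x + g) = p.2 x * p.1 (x + g) := by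
    intro p q k g h1 h2 h3
    filter_upwards [h1, h2, h3, (hw k g).2] with x a1 a2 a3 a4
    rw [a1, a2] at a3
    have hne : wq n m N c k g x ≠ 0 := by
      intro h0
      rw [h0, norm_zero] at a4
      exact zero_ne_one a4
    apply mul_left_cancel₀ hne
    linear_combination a3
  have hrot : ∀ (p : L2 × L2) (k : ℕ) (g : X), ∃ q : L2 × L2,
      (q.1 : X → ℂ) =ᵐ[mu] (fun x => wq n m N c k g x * p.1 (x + g)) ∧
      (q.2 : X → ℂ) =ᵐ[mu] (fun x => wq n m N c k g x * p.2 (x + g)) := by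
    intro p k g
    obtain ⟨A, hA⟩ := hOP (wq n m N c k g) g (hw k g)
    exact ⟨(A p.1, A p.2), hA p.1, hA p.2⟩
  rcases hW M hMc hZ hM with ⟨R, hRc, hR0, hR1, hRm, hRiff⟩ | ⟨Θ, hΘ, hpar1⟩ |
    ⟨Θ, Θ', hΘ, hΘ', horth⟩
  · -- a reducing subspace
    have hRM : ∀ p ∈ R, p ∈ M := by
      intro p hp
      refine (hRiff p).1 hp 0 p ?_ ?_
      · filter_upwards with x
        rw [Nat.cast_zero, neg_zero, e_zero, one_mul]
      · filter_upwards with x
        rw [Nat.cast_zero, neg_zero, e_zero, one_mul]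
    rcases hRR R hRc hR1 hRm with ⟨q, hq, hq0, hq1⟩ | hprop
    · refine ⟨0, 1, q.2, Or.inr one_ne_zero, ?_, ?_⟩
      · intro h2
        exact hq0 (Prod.ext hq1 h2)
      · rw [zero_smul, one_smul, ← hq1]
        exact hRM q hq
    · obtain ⟨p, hp, hp0⟩ := Submodule.exists_mem_ne_zero_of_ne_bot hR0
      refine fin hPR hS.zero hS.pos hS.dvd M p (hRM p hp) hp0 ?_
      intro k g hg
      obtain ⟨q, hq1, hq2⟩ := hrot p k g
      have hqR : q ∈ R := by
        rw [hRiff]
        intro k' h hh1 hh2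
        obtain ⟨B, hB⟩ := hOP (e (-(k' : ℤ))) 0 (e_uni _)
        have hBM : (B p.1, B p.2) ∈ M := by
          refine (hRiff p).1 hp k' (B p.1, B p.2) ?_ ?_
          · filter_upwards [hB p.1] with x hx
            rw [hx, add_zero]
          · filter_upwards [hB p.2] with x hx
            rw [hx, add_zero]
        have hBM' : e (k' : ℤ) g • (B p.1, B p.2) ∈ M := M.smul_mem _ hBM
        refine hR k g hg _ hBM' h ?_ ?_
        · have s1 : ((e (k' : ℤ) g • (B p.1, B p.2)).1 : X → ℂ) =ᵐ[mu]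
              fun x => e (k' : ℤ) g * (e (-(k' : ℤ)) x * p.1 x) := by
            have s2 : ((e (k' : ℤ) g • B p.1 : L2) : X → ℂ) =ᵐ[mu]
              fun x => e (k' : ℤ) g • (B p.1) x := Lp.coeFn_smul _ _
            filter_upwards [s2, hB p.1] with x a1 a2
            show ((e (k' : ℤ) g • B p.1 : L2) : X → ℂ) x = _
            rw [a1, a2, add_zero, smul_eq_mul]
          filter_upwards [hh1, hq1, ae_shift g s1] with x a1 a2 a3
          rw [a1, a2, a3, e_add]
          have a4 := e_neg (k' : ℤ) g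
          linear_combination (-(wq n m N c k g x * e (-(k' : ℤ)) x * p.1 (x + g))) * a4
        · have s1 : ((e (k' : ℤ) g • (B p.1, B p.2)).2 : X → ℂ) =ᵐ[mu]
              fun x => e (k' : ℤ) g * (e (-(k' : ℤ)) x * p.2 x) := by
            have s2 : ((e (k' : ℤ) g • B p.2 : L2) : X → ℂ) =ᵐ[mu]
              fun x => e (k' : ℤ) g • (B p.2) x := Lp.coeFn_smul _ _
            filter_upwards [s2, hB p.2] with x a1 a2
            show ((e (k' : ℤ) g • B p.2 : L2) : X → ℂ) x = _
            rw [a1, a2, add_zero, smul_eq_mul]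
          filter_upwards [hh2, hq2, ae_shift g s1] with x a1 a2 a3
          rw [a1, a2, a3, e_add]
          have a4 := e_neg (k' : ℤ) g
          linear_combination (-(wq n m N c k g x * e (-(k' : ℤ)) x * p.2 (x + g))) * a4
      exact hcancel p q k g hq1 hq2 (hprop p hp q hqR)
  · -- one wandering vector
    have hΘ0 : Θ ≠ 0 := by
      intro h0
      have h1 := hΘ.2.1
      rw [h0] at h1
      have h2 : ∀ᵐ x ∂mu, False := by
        have z1 : ((0 : L2) : X → ℂ) =ᵐ[mu] 0 := Lp.coeFn_zero ℂ 2 mu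
        filter_upwards [h1, z1] with x a1 a2
        have a3 : (((0 : L2 × L2).1 : L2) : X → ℂ) x = 0 := a2
        have a4 : (((0 : L2 × L2).2 : L2) : X → ℂ) x = 0 := a2
        rw [a3, a4, norm_zero] at a1
        norm_num at a1
      rw [Filter.eventually_false_iff_eq_bot, ae_eq_bot] at h2
      exact IsProbabilityMeasure.ne_zero mu h2
    refine fin hPR hS.zero hS.pos hS.dvd M Θ hΘ.1 hΘ0 ?_
    intro k g hg
    obtain ⟨q, hq1, hq2⟩ := hrot Θ k g
    have hqM : q ∈ M := hR k g hg Θ hΘ.1 q hq1 hq2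
    exact hcancel Θ q k g hq1 hq2 (hpar1 q hqM)
  · -- two wandering vectors
    exfalso
    obtain ⟨φ, hφ, hφA⟩ := hDET N (wq n m N c) M hw hR Θ Θ' hΘ hΘ' horth
    refine hNO ν N hS φ hφ ?_
    intro k g hg
    refine an_congr ?_ (hφA k g hg)
    obtain ⟨hTQ, d, hd, hdT⟩ := hsq k
    have hTT := (htd k).1
    have hd0 : d ≠ 0 := by
      intro h0
      rw [h0, norm_zero] at hd
      exact zero_ne_one hd
    filter_upwards [hdT, ae_shift g hdT, hTT.2, hTQ.2] with x a1 a2 a3 a4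
    have hT0 : TT ν N k x ≠ 0 := by
      intro h0
      rw [h0, norm_zero] at a3
      exact zero_ne_one a3
    have hQ0 : TQ n m N c k x ≠ 0 := by
      intro h0
      rw [h0, norm_zero] at a4
      exact zero_ne_one a4
    have hconj : conj (TT ν N k x) = (TT ν N k x)⁻¹ := by
      rw [Complex.inv_def, Complex.normSq_eq_norm_sq, a3]
      simp
    show (DD ν N k x * TQ n m N c k (x + g) * (TQ n m N c k x)⁻¹) ^ 2 * φ (x + g) * conj (φ x) =
      DD ν N k x ^ 2 * (TT ν N k (x + g) * φ (x + g)) * conj (TT ν N k x * φ x)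
    rw [map_mul, hconj]
    have h1 : (DD ν N k x * TQ n m N c k (x + g) * (TQ n m N c k x)⁻¹) ^ 2 =
        DD ν N k x ^ 2 * (TQ n m N c k (x + g)) ^ 2 * ((TQ n m N c k x) ^ 2)⁻¹ := by
      rw [← inv_pow]; ring
    rw [h1, a1, a2, mul_inv]
    have h2 : d * d⁻¹ = 1 := mul_inv_cancel₀ hd0
    generalize hA : DD ν N k x = A1
    generalize hB : TT ν N k (x + g) = B1
    generalize hC : TT ν N k x = C1
    generalize hE : φ (x + g) = E1
    generalize hF : conj (φ x) = F1
    linear_combination (A1 ^ 2 * B1 * C1⁻¹ * E1 * F1) * h2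

end

end Pool.Agent.H875A
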