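import Pool.Agent.H875A.AR.Defs

set_option autoImplicit false

open MeasureTheory Complex Filter
open scoped ComplexConjugate Matrix Topology InnerProductSpace

namespace Pool.Agent.H875A

open Pool.Agent.H460U (X mu M2 L2 e Uni Bd An bl Vm ell ta tt TT DD)

namespace PAN4aux

/-- continuous and analytic -/
def Gd (f : X → ℂ) : Prop := Continuous f ∧ An f

theorem bound (f : X → ℂ) (hf : Continuous f) : ∃ C : ℝ, ∀ x, ‖f x‖ ≤ C := by
  obtain ⟨C, hC⟩ := (isCompact_range (hf.norm)).bddAbove
  exact ⟨C, fun x => hC ⟨x, rfl⟩⟩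

theorem bd (f : X → ℂ) (hf : Continuous f) : Bd f := by
  obtain ⟨C, hC⟩ := bound f hf
  exact ⟨hf.aestronglyMeasurable, C, Eventually.of_forall hC⟩

theorem mem (f : X → ℂ) (hf : Continuous f) : MemLp f 2 mu := by
  obtain ⟨C, hC⟩ := bound f hf
  exact MemLp.of_bound hf.aestronglyMeasurable C (Eventually.of_forall hC)

theorem int (f : X → ℂ) (hf : Continuous f) : Integrable f mu := by
  obtain ⟨C, hC⟩ := bound f hf
  exact (memLp_one_iff_integrable).1
    (MemLp.of_bound hf.aestronglyMeasurable C (Eventually.of_forall hC))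

theorem one : An (fun _ => (1 : ℂ)) := by
  intro n hn
  have h : ∫ x : X, (fourier (-n) x : ℂ) ∂mu = 0 := by
    exact integral_eq_zero_of_add_right_eq_neg (μ := AddCircle.haarAddCircle)
      (fourier_add_half_inv_index (T := 1) (n := -n) (by omega) one_pos)
  unfold fourierCoeff
  simpa using h

theorem cmul (c : ℂ) (f : X → ℂ) (h : Gd f) : Gd (fun x => c * f x) := by
  refine ⟨continuous_const.mul h.1, fun n hn => ?_⟩
  have h1 := h.2 n hn
  unfold fourierCoeff at h1 ⊢
  have e : ∀ t : X, (fourier (-n) t : ℂ) • (c * f t) = c * ((fourier (-n) t : ℂ) • f t) := by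
    intro t
    simp only [smul_eq_mul]
    ring
  simp only [e]
  rw [integral_const_mul, h1, mul_zero]

theorem const (c : ℂ) : Gd (fun _ => c) := by
  have h := cmul c (fun _ => 1) ⟨continuous_const, one⟩
  simpa using h

theorem add (f g : X → ℂ) (hf : Gd f) (hg : Gd g) : Gd (fun x => f x + g x) := by
  refine ⟨hf.1.add hg.1, fun n hn => ?_⟩
  have h1 := hf.2 n hn
  have h2 := hg.2 n hn
  unfold fourierCoeff at h1 h2 ⊢
  simp only [smul_add]
  rw [integral_add, h1, h2, add_zero]
  · exact int _ ((map_continuous (fourier (-n))).smul hf.1)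
  · exact int _ ((map_continuous (fourier (-n))).smul hg.1)

theorem sum {ι : Type} (s : Finset ι) (f : ι → X → ℂ) (hf : ∀ i ∈ s, Gd (f i)) :
    Gd (fun x => ∑ i ∈ s, f i x) := by
  classical
  induction s using Finset.induction_on with
  | empty =>
    simpa using const 0
  | insert a s ha ih =>
    have h1 := add _ _ (hf a (Finset.mem_insert_self a s))
      (ih (fun i hi => hf i (Finset.mem_insert_of_mem hi)))
    simpa only [Finset.sum_insert ha] using h1

theorem mul (h1 : Pool.Agent.H460U.S_H1) (f g : X → ℂ) (hf : Gd f) (hg : Gd g) :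
    Gd (fun x => f x * g x) :=
  ⟨hf.1.mul hg.1, (h1 f g (mem f hf.1) hf.2 (bd g hg.1) hg.2).2⟩

theorem pow (h1 : Pool.Agent.H460U.S_H1) (f : X → ℂ) (hf : Gd f) (m : ℕ) :
    Gd (fun x => f x ^ m) := by
  induction m with
  | zero => simpa using const 1
  | succ m ih =>
    have h := mul h1 (fun x => f x ^ m) f ih hf
    simpa only [pow_succ] using h

theorem poly (h1 : Pool.Agent.H460U.S_H1) (f : X → ℂ) (hf : Gd f) (p : Polynomial ℂ) :
    Gd (fun x => p.eval (f x)) := by
  induction p using Polynomial.induction_on' with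
  | add p q hp hq =>
    have h := add _ _ hp hq
    simpa only [Polynomial.eval_add] using h
  | monomial n a =>
    have h := cmul a _ (pow h1 f hf n)
    simpa only [Polynomial.eval_monomial] using h

theorem dil (h3 : Pool.Agent.H460U.S_H3) (f : X → ℂ) (hf : Gd f) (N : ℕ) (hN : 0 < N) :
    Gd (fun x : X => f (N • x)) := by
  refine ⟨hf.1.comp (continuous_const_smul N), ?_⟩
  intro n hn
  obtain ⟨ha, hb⟩ := h3 f N hN (bd f hf.1)
  by_cases hd : (N : ℤ) ∣ n
  · obtain ⟨j, rfl⟩ := hd
    rw [ha j]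
    apply hf.2
    have hN' : (0 : ℤ) < N := by exact_mod_cast hN
    by_contra hj
    push Not at hj
    have := mul_nonneg hN'.le hj
    omega
  · exact hb n hd

theorem gPQ (h1 : Pool.Agent.H460U.S_H1) (h3 : Pool.Agent.H460U.S_H3) (hL3 : S_L3)
    (hb : Gd bl) (n m N : ℕ → ℕ) (c : ℕ → ℂ)
    (hN : ∀ k, 0 < N k) (k : ℕ) : ∀ I J : Idx, Gd (fun x => PQ n m N c k x I J) := by
  induction k with
  | zero =>
    intro I J
    exact const ((1 : M4) I J)
  | succ k ih =>
    intro I J
    obtain ⟨p, -, hp⟩ := hL3 (n k) (m k) (c k)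
    have he : ∀ a b : Idx, Gd (fun x : X => LL (n k) (m k) (c k) (bl (N k • x)) a b) := by
      intro a b
      have h := dil h3 _ (poly h1 bl hb (p a b)) (N k) (hN k)
      simpa only [hp] using h
    have e : (fun x => PQ n m N c (k + 1) x I J) = fun x : X => ∑ K : Idx,
        LL (n k) (m k) (c k) (bl (N k • x)) I K * PQ n m N c k x K J := by
      funext x
      show (LL (n k) (m k) (c k) (bl (N k • x)) * PQ n m N c k x) I J = _
      rw [Matrix.mul_apply]
    rw [e]
    exact sum _ _ (fun K _ => mul h1 _ _ (he I K) (ih K J))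

theorem gRQ (h1 : Pool.Agent.H460U.S_H1) (h3 : Pool.Agent.H460U.S_H3) (hL4 : S_L4)
    (hb : Gd bl) (hbn : ∀ x, ‖bl x‖ = 1) (n m N : ℕ → ℕ) (c : ℕ → ℂ)
    (hN : ∀ k, 0 < N k) (k : ℕ) : ∀ I J : Idx,
      Gd (fun x => DD (fun j => n j + m j) N k x * (PQ n m N c k x)ᴴ I J) := by
  induction k with
  | zero =>
    intro I J
    have : (fun x : X => DD (fun j => n j + m j) N 0 x * (PQ n m N c 0 x)ᴴ I J) =
        fun _ => ((1 : M4)ᴴ I J) := by
      funext x
      show 1 * ((1 : M4)ᴴ I J) = _
      rw [one_mul]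
    rw [this]
    exact const _
  | succ k ih =>
    intro I J
    have hq := hL4 (n k) (m k) (c k)
    have he : ∀ a b : Idx, Gd (fun x : X => bl (N k • x) ^ (5 ^ (n k + m k)) *
        conj (LL (n k) (m k) (c k) (bl (N k • x)) b a)) := by
      intro a b
      obtain ⟨q, hq⟩ := hq a b
      have h := dil h3 _ (poly h1 bl hb q) (N k) (hN k)
      have e : (fun x : X => bl (N k • x) ^ (5 ^ (n k + m k)) *
        conj (LL (n k) (m k) (c k) (bl (N k • x)) b a)) = fun x : X =>
          q.eval (bl (N k • x)) := by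
        funext x
        exact hq _ (hbn _)
      rw [e]
      exact h
    have e : (fun x => DD (fun j => n j + m j) N (k + 1) x * (PQ n m N c (k + 1) x)ᴴ I J) =
        fun x : X => ∑ K : Idx, (DD (fun j => n j + m j) N k x * (PQ n m N c k x)ᴴ I K) *
          (bl (N k • x) ^ (5 ^ (n k + m k)) *
            conj (LL (n k) (m k) (c k) (bl (N k • x)) J K)) := by
      funext x
      show (bl (N k • x) ^ (5 ^ (n k + m k)) * DD (fun j => n j + m j) N k x) *
        (LL (n k) (m k) (c k) (bl (N k • x)) * PQ n m N c k x)ᴴ I J = _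
      rw [Matrix.conjTranspose_mul, Matrix.mul_apply, Finset.mul_sum]
      apply Finset.sum_congr rfl
      intro K _
      rw [Matrix.conjTranspose_apply (LL (n k) (m k) (c k) (bl (N k • x)))]
      simp only [RCLike.star_def]
      ring
    rw [e]
    exact sum _ _ (fun K _ => mul h1 _ _ (ih I K) (he K J))

end PAN4aux

open PAN4aux in
theorem t_PAN4 (h3 : S_L3) (h4 : S_L4) (H1 : Pool.Agent.H460U.S_H1)
    (H2 : Pool.Agent.H460U.S_H2) (H3 : Pool.Agent.H460U.S_H3)
    (H4 : Pool.Agent.H460U.S_H4) : S_PAN4 := by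
  intro n m N c hN _ k g I J
  obtain ⟨hbc, hbn, hba, -⟩ := H4
  have hb : Gd bl := ⟨hbc, hba⟩
  have hP := gPQ H1 H3 h3 hb n m N c hN k
  have hR := gRQ H1 H3 h4 hb hbn n m N c hN k
  have hT : ∀ a b : Idx, Gd (fun x => PQ n m N c k (x + g) a b) := by
    intro a b
    exact ⟨(hP a b).1.comp (continuous_add_const g), H2 _ g (hP a b).2⟩
  have e : (fun x => CQ n m N c k g x I J) = fun x : X => ∑ K : Idx,
      (DD (fun j => n j + m j) N k x * (PQ n m N c k x)ᴴ I K) * PQ n m N c k (x + g) K J := by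
    funext x
    show (DD (fun j => n j + m j) N k x • ((PQ n m N c k x)ᴴ * PQ n m N c k (x + g))) I J = _
    rw [Matrix.smul_apply, Matrix.mul_apply, smul_eq_mul, Finset.mul_sum]
    apply Finset.sum_congr rfl
    intro K _
    ring
  have hfin : Gd (fun x => CQ n m N c k g x I J) := by
    rw [e]
    exact sum _ _ (fun K _ => mul H1 _ _ (hR I K) (hT K J))
  exact hfin

end Pool.Agent.H875A
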