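import Pool.Agent.H875A.AR.Defs

set_option autoImplicit false

open MeasureTheory Complex Filter
open scoped ComplexConjugate Matrix Topology InnerProductSpace

namespace Pool.Agent.H875A

open Pool.Agent.H460U (X mu M2 L2 e Uni Bd An bl Vm ell ta tt TT DD)

namespace PAR4aux

/-- the pair `(N k, ∑ j < k, 5 ^ ν j * N j * 60)` -/
def NS (ν : ℕ → ℕ) : ℕ → ℕ × ℕ
  | 0 => (1, 0)
  | k + 1 =>
    (2 * (NS ν k).1 * (1 + 2 ^ (k + 1) * ((NS ν k).2 + 5 ^ (ν k) * (NS ν k).1 * 60)),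
      (NS ν k).2 + 5 ^ (ν k) * (NS ν k).1 * 60)

theorem NS_sum (ν : ℕ → ℕ) (k : ℕ) :
    (NS ν k).2 = ∑ j ∈ Finset.range k, 5 ^ (ν j) * (NS ν j).1 * 60 := by
  induction k with
  | zero => rfl
  | succ k ih =>
    rw [Finset.sum_range_succ, ← ih]
    rfl

theorem NS_pos (ν : ℕ → ℕ) (k : ℕ) : 0 < (NS ν k).1 := by
  induction k with
  | zero => exact Nat.one_pos
  | succ k ih =>
    show 0 < 2 * (NS ν k).1 * (1 + 2 ^ (k + 1) * ((NS ν k).2 + 5 ^ (ν k) * (NS ν k).1 * 60))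
    positivity

theorem parS (ν : ℕ → ℕ) : ParS ν (fun k => (NS ν k).1) := by
  refine ⟨rfl, fun k => Dvd.intro _ rfl, NS_pos ν, fun k => ?_⟩
  show 2 ^ k * (∑ j ∈ Finset.range k, 5 ^ (ν j) * (NS ν j).1 * 60) ≤ (NS ν k).1
  rw [← NS_sum]
  rcases k with _ | k
  · show 2 ^ 0 * 0 ≤ 1
    norm_num
  · show 2 ^ (k + 1) * ((NS ν k).2 + 5 ^ (ν k) * (NS ν k).1 * 60) ≤
      2 * (NS ν k).1 * (1 + 2 ^ (k + 1) * ((NS ν k).2 + 5 ^ (ν k) * (NS ν k).1 * 60))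
    set S := 2 ^ (k + 1) * ((NS ν k).2 + 5 ^ (ν k) * (NS ν k).1 * 60)
    have h := NS_pos ν k
    have h2 : 1 ≤ 2 * (NS ν k).1 := by omega
    calc S ≤ 1 + S := by omega
      _ = 1 * (1 + S) := by ring
      _ ≤ 2 * (NS ν k).1 * (1 + S) := Nat.mul_le_mul_right _ h2

end PAR4aux

open PAR4aux in
theorem t_PAR4 (h : S_L9) : S_PAR4 := by
  have h' : ∀ k : ℕ, ∃ p : ℕ × ℕ × ℂ, ‖p.2.2‖ = 1 ∧ dist4 p.1 p.2.1 p.2.2 ≤ (1 / 4 : ℝ) ^ k := by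
    intro k
    obtain ⟨n, m, c, h1, h2⟩ := h ((1 / 4 : ℝ) ^ k) (by positivity)
    exact ⟨(n, m, c), h1, h2⟩
  choose p hp1 hp2 using h'
  exact ⟨fun k => (p k).1, fun k => (p k).2.1, fun k => (NS (fun k => (p k).1 + (p k).2.1) k).1,
    fun k => (p k).2.2, parS _, hp1, hp2⟩

end Pool.Agent.H875A
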