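import Pool.Agent.H875A.AR.Defs

/-!
# PHI4 (helper133): the limit function, adapted from helper828's PHI
-/

set_option autoImplicit false

open MeasureTheory Complex Filter
open scoped ComplexConjugate Matrix Topology InnerProductSpace

namespace Pool.Agent.H875A

open Pool.Agent.H460U (X mu M2 L2 e Uni Bd An bl Vm ell ta tt TT DD)

noncomputable section

namespace PHI4aux

/-- the normalised loop -/
def Lam (n m : ℕ → ℕ) (c : ℕ → ℂ) (k : ℕ) (y : X) : M4 :=
  (tq (n k) (m k) (c k) y)⁻¹ • LL (n k) (m k) (c k) (bl y)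

/-- the normalised products -/
def Qm (n m N : ℕ → ℕ) (c : ℕ → ℂ) (k : ℕ) (x : X) : M4 := (TQ n m N c k x)⁻¹ • PQ n m N c k x

theorem Q_succ (n m N : ℕ → ℕ) (c : ℕ → ℂ) (k : ℕ) (x : X) :
    Qm n m N c (k + 1) x = Lam n m c k (N k • x) * Qm n m N c k x := by
  unfold Qm Lam
  show (tq (n k) (m k) (c k) (N k • x) * TQ n m N c k x)⁻¹ •
    (LL (n k) (m k) (c k) (bl (N k • x)) * PQ n m N c k x) = _
  rw [mul_inv, Matrix.smul_mul, Matrix.mul_smul, smul_smul]

theorem ell_cont (n : ℕ) : Continuous (ell n) := by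
  induction n with
  | zero =>
    refine continuous_matrix fun i j => ?_
    fin_cases i <;> fin_cases j <;> simp [ell] <;> fun_prop
  | succ n ih =>
    have h1 : Continuous fun ξ => Vm * ell n ξ * Vmᵀ :=
      (continuous_const.matrix_mul ih).matrix_mul continuous_const
    have h2 : Continuous fun ξ => Vmᵀ * ell n ξ * Vm :=
      (continuous_const.matrix_mul ih).matrix_mul continuous_const
    exact (((h1.matrix_mul h2).matrix_mul ih).matrix_mul h2).matrix_mul h1

theorem ellB_cont (n : ℕ) : Continuous (ellB n) := by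
  induction n with
  | zero =>
    refine continuous_matrix fun i j => ?_
    fin_cases i <;> fin_cases j <;> simp [ellB] <;> fun_prop
  | succ n ih =>
    have h1 : Continuous fun ξ => VB * ellB n ξ * VBt :=
      (continuous_const.matrix_mul ih).matrix_mul continuous_const
    have h2 : Continuous fun ξ => VBt * ellB n ξ * VB :=
      (continuous_const.matrix_mul ih).matrix_mul continuous_const
    exact (((h1.matrix_mul h2).matrix_mul ih).matrix_mul h2).matrix_mul h1

theorem LL_cont (n m : ℕ) (c : ℂ) : Continuous (LL n m c) := by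
  have h1 : Continuous fun ξ : ℂ => ellB m (c • ell n ξ) :=
    (ellB_cont m).comp ((ell_cont n).const_smul c)
  refine continuous_matrix fun I J => ?_
  exact (h1.matrix_elem I.1 J.1).matrix_elem I.2 J.2

theorem P_cont (hbl : Continuous bl) (n m N : ℕ → ℕ) (c : ℕ → ℂ) (k : ℕ) :
    Continuous (PQ n m N c k) := by
  induction k with
  | zero => exact continuous_const
  | succ k ih =>
    have h1 : Continuous fun x : X => LL (n k) (m k) (c k) (bl (N k • x)) :=
      (LL_cont _ _ _).comp (hbl.comp (continuous_nsmul (N k)))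
    exact h1.matrix_mul ih

theorem LL_unit (hL1 : S_L1) (hE2 : Pool.Agent.H460U.S_E2) (n m : ℕ) (c ξ : ℂ) (hc : ‖c‖ = 1)
    (hξ : ‖ξ‖ = 1) : (LL n m c ξ)ᴴ * LL n m c ξ = 1 := by
  unfold LL
  apply hL1
  rw [Matrix.conjTranspose_smul, Matrix.smul_mul, Matrix.mul_smul, smul_smul, hE2 n ξ hξ]
  have h4 : star c * c = 1 := by
    have := Complex.conj_mul' c
    rw [hc] at this
    simpa using this
  rw [h4, one_smul]

theorem P_unit (hL1 : S_L1) (hE2 : Pool.Agent.H460U.S_E2) (hbl1 : ∀ x, ‖bl x‖ = 1)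
    (n m N : ℕ → ℕ) (c : ℕ → ℂ) (hc : ∀ k, ‖c k‖ = 1) (k : ℕ) (x : X) :
    (PQ n m N c k x)ᴴ * PQ n m N c k x = 1 := by
  induction k with
  | zero =>
    show (1 : M4)ᴴ * (1 : M4) = 1
    rw [Matrix.conjTranspose_one, Matrix.one_mul]
  | succ k ih =>
    show (LL (n k) (m k) (c k) (bl (N k • x)) * PQ n m N c k x)ᴴ *
      (LL (n k) (m k) (c k) (bl (N k • x)) * PQ n m N c k x) = 1
    rw [Matrix.conjTranspose_mul, Matrix.mul_assoc,
      ← Matrix.mul_assoc (LL (n k) (m k) (c k) (bl (N k • x)))ᴴ,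
      LL_unit hL1 hE2 _ _ _ _ (hc k) (hbl1 _), Matrix.one_mul, ih]

/-- squared distance of the normalised loop from the identity -/
def Sf (n m : ℕ) (c : ℂ) (y : X) : ℝ :=
  ∑ I : Idx, ∑ J : Idx, ‖(tq n m c y)⁻¹ * LL n m c (bl y) I J - (1 : M4) I J‖ ^ 2

theorem Sf_nonneg (n m : ℕ) (c : ℂ) (y : X) : 0 ≤ Sf n m c y :=
  Finset.sum_nonneg fun _ _ => Finset.sum_nonneg fun _ _ => by positivity

theorem entry_le {U : M4} (h : Uᴴ * U = 1) (i j : Idx) : ‖U i j‖ ≤ 1 := by
  apply entry_norm_bound_of_unitary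
  rw [Matrix.mem_unitaryGroup_iff']
  exact h

theorem Sf_meas (hbl : Continuous bl) (hT : S_TQU) (n m : ℕ) (c : ℂ) (hc : ‖c‖ = 1) :
    AEStronglyMeasurable (Sf n m c) mu := by
  unfold Sf
  have ht : AEStronglyMeasurable (fun y => (tq n m c y)⁻¹) mu :=
    ((hT n m c hc).1.aemeasurable.inv).aestronglyMeasurable
  have hl : ∀ i j, AEStronglyMeasurable (fun y => LL n m c (bl y) i j) mu := fun i j =>
    (((LL_cont n m c).comp hbl).matrix_elem i j).aestronglyMeasurable
  refine Finset.aestronglyMeasurable_fun_sum _ fun i _ => ?_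
  refine Finset.aestronglyMeasurable_fun_sum _ fun j _ => ?_
  exact (((ht.mul (hl i j)).sub aestronglyMeasurable_const).norm).pow 2

theorem Sf_int (hbl : Continuous bl) (hbl1 : ∀ x, ‖bl x‖ = 1) (hL1 : S_L1)
    (hE2 : Pool.Agent.H460U.S_E2) (hT : S_TQU) (n m : ℕ) (c : ℂ) (hc : ‖c‖ = 1) :
    Integrable (Sf n m c) mu := by
  refine Integrable.of_bound (Sf_meas hbl hT n m c hc) 64 ?_
  filter_upwards [(hT n m c hc).2] with y hy
  rw [Real.norm_eq_abs, abs_of_nonneg (Sf_nonneg n m c y)]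
  unfold Sf
  have h1 : ∀ i j : Idx, ‖(tq n m c y)⁻¹ * LL n m c (bl y) i j - (1 : M4) i j‖ ^ 2 ≤ 4 := by
    intro i j
    have h2 : ‖(tq n m c y)⁻¹ * LL n m c (bl y) i j‖ ≤ 1 := by
      rw [norm_mul, norm_inv, hy, inv_one, one_mul]
      exact entry_le (LL_unit hL1 hE2 n m c (bl y) hc (hbl1 y)) i j
    have h3 : ‖(1 : M4) i j‖ ≤ 1 := entry_le (by simp) i j
    have h4 := norm_sub_le ((tq n m c y)⁻¹ * LL n m c (bl y) i j) ((1 : M4) i j)
    have h5 := norm_nonneg ((tq n m c y)⁻¹ * LL n m c (bl y) i j - (1 : M4) i j)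
    nlinarith
  calc ∑ i : Idx, ∑ j : Idx, ‖(tq n m c y)⁻¹ * LL n m c (bl y) i j - (1 : M4) i j‖ ^ 2
      ≤ ∑ i : Idx, ∑ j : Idx, (4 : ℝ) :=
        Finset.sum_le_sum fun i _ => Finset.sum_le_sum fun j _ => h1 i j
    _ = 64 := by simp; norm_num

theorem mp (n : ℕ) (hn : 0 < n) : MeasurePreserving (fun x : X => n • x) mu mu := by
  have h := Measure.measurePreserving_zsmul (mu : Measure X) (n := (n : ℤ)) (by exact_mod_cast hn.ne')
  simpa using h

/-- almost everywhere summability -/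
theorem ae_summable (hbl : Continuous bl) (hbl1 : ∀ x, ‖bl x‖ = 1) (hL1 : S_L1)
    (hE2 : Pool.Agent.H460U.S_E2) (hT : S_TQU) (n m N : ℕ → ℕ) (c : ℕ → ℂ) (hP : Par4 n m N c) :
    ∀ᵐ x ∂mu, Summable fun k => (2 : ℝ) ^ k * Sf (n k) (m k) (c k) (N k • x) := by
  have hpos := hP.scal.pos
  have hm : ∀ k, AEMeasurable (fun x : X => ENNReal.ofReal ((2 : ℝ) ^ k *
      Sf (n k) (m k) (c k) (N k • x))) mu :=
    fun k => (((Sf_meas hbl hT (n k) (m k) (c k) (hP.unit k)).comp_measurePreserving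
      (mp (N k) (hpos k))).aemeasurable.const_mul ((2 : ℝ) ^ k)).ennreal_ofReal
  have h1 : ∀ k, ∫⁻ x, ENNReal.ofReal ((2 : ℝ) ^ k * Sf (n k) (m k) (c k) (N k • x)) ∂mu ≤
      ENNReal.ofReal ((1 / 2 : ℝ) ^ k) := by
    intro k
    have hi : Integrable (fun x : X => (2 : ℝ) ^ k * Sf (n k) (m k) (c k) (N k • x)) mu :=
      ((mp (N k) (hpos k)).integrable_comp_of_integrable
        (Sf_int hbl hbl1 hL1 hE2 hT (n k) (m k) (c k) (hP.unit k))).const_mul _
    rw [← ofReal_integral_eq_lintegral_ofReal hi (Eventually.of_forall fun x =>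
      mul_nonneg (by positivity) (Sf_nonneg _ _ _ _))]
    apply ENNReal.ofReal_le_ofReal
    rw [integral_const_mul]
    have h2 : ∫ x : X, Sf (n k) (m k) (c k) (N k • x) ∂mu = dist4 (n k) (m k) (c k) := by
      have h3 := (mp (N k) (hpos k)).map_eq
      have h4 : ∫ y, Sf (n k) (m k) (c k) y ∂(Measure.map (fun x : X => N k • x) mu) =
          ∫ x, Sf (n k) (m k) (c k) (N k • x) ∂mu :=
        integral_map (mp (N k) (hpos k)).measurable.aemeasurable (by
          rw [h3]; exact Sf_meas hbl hT (n k) (m k) (c k) (hP.unit k))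
      rw [← h4, h3]
      rfl
    rw [h2]
    calc (2 : ℝ) ^ k * dist4 (n k) (m k) (c k) ≤ 2 ^ k * (1 / 4) ^ k :=
          mul_le_mul_of_nonneg_left (hP.small k) (by positivity)
      _ = (1 / 2 : ℝ) ^ k := by
          rw [← mul_pow]; norm_num
  have h5 : ∫⁻ x, ∑' k, ENNReal.ofReal ((2 : ℝ) ^ k * Sf (n k) (m k) (c k) (N k • x)) ∂mu ≠ ⊤ := by
    rw [lintegral_tsum hm]
    exact ne_top_of_le_ne_top (summable_geometric_two.tsum_ofReal_ne_top)
      (ENNReal.tsum_le_tsum h1)
  filter_upwards [ae_lt_top' (AEMeasurable.tsum hm) h5] with x hx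
  have h6 := ENNReal.summable_toReal hx.ne
  refine h6.congr fun k => ?_
  exact ENNReal.toReal_ofReal (mul_nonneg (by positivity) (Sf_nonneg _ _ _ _))

theorem Q_unit {n m N : ℕ → ℕ} {c : ℕ → ℂ} {k : ℕ} {x : X} (h1 : ‖TQ n m N c k x‖ = 1)
    (h2 : (PQ n m N c k x)ᴴ * PQ n m N c k x = 1) :
    (Qm n m N c k x)ᴴ * Qm n m N c k x = 1 := by
  unfold Qm
  rw [Matrix.conjTranspose_smul, Matrix.smul_mul, Matrix.mul_smul, smul_smul, h2]
  have h3 : star (TQ n m N c k x)⁻¹ * (TQ n m N c k x)⁻¹ = 1 := by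
    rw [star_inv₀, ← mul_inv]
    have h4 : star (TQ n m N c k x) * TQ n m N c k x = 1 := by
      have := Complex.conj_mul' (TQ n m N c k x)
      rw [h1] at this
      simpa using this
    rw [h4, inv_one]
  rw [h3, one_smul]

/-- the increments -/
theorem incr {n m N : ℕ → ℕ} {c : ℕ → ℂ} {k : ℕ} {x : X}
    (h : (Qm n m N c k x)ᴴ * Qm n m N c k x = 1) (i j : Idx) :
    dist (Qm n m N c k x i j) (Qm n m N c (k + 1) x i j) ≤
      2 ^ k * Sf (n k) (m k) (c k) (N k • x) + 2 * (1 / 2 : ℝ) ^ k := by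
  set z : Idx → ℂ := fun l => Lam n m c k (N k • x) i l - (1 : M4) i l with hz
  have h1 : Qm n m N c (k + 1) x i j - Qm n m N c k x i j = ∑ l, z l * Qm n m N c k x l j := by
    rw [Q_succ]
    have h2 : (Lam n m c k (N k • x) * Qm n m N c k x) i j - Qm n m N c k x i j =
        ((Lam n m c k (N k • x) - 1) * Qm n m N c k x) i j := by
      rw [Matrix.sub_mul, Matrix.one_mul, Matrix.sub_apply]
    rw [h2, Matrix.mul_apply]
    rfl
  have h3 : ‖Qm n m N c (k + 1) x i j - Qm n m N c k x i j‖ ≤ ∑ l, ‖z l‖ := by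
    rw [h1]
    refine (norm_sum_le _ _).trans (Finset.sum_le_sum fun l _ => ?_)
    rw [norm_mul]
    exact mul_le_of_le_one_right (norm_nonneg _) (entry_le h l j)
  have h4 : ∀ l, ‖z l‖ ≤ (2 ^ k * ‖z l‖ ^ 2 + (1 / 2 : ℝ) ^ k) / 2 := by
    intro l
    have h5 : (2 : ℝ) ^ k * (1 / 2) ^ k = 1 := by
      rw [← mul_pow]; norm_num
    have h6 : (0 : ℝ) ≤ 2 ^ k * (‖z l‖ - (1 / 2) ^ k) ^ 2 := by positivity
    have h7 : (2 : ℝ) ^ k * (‖z l‖ - (1 / 2) ^ k) ^ 2 =
        2 ^ k * ‖z l‖ ^ 2 - 2 * ‖z l‖ * (2 ^ k * (1 / 2) ^ k) +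
          (1 / 2) ^ k * (2 ^ k * (1 / 2) ^ k) := by ring
    rw [h7, h5] at h6
    linarith
  have h8 : ∑ l, ‖z l‖ ^ 2 ≤ Sf (n k) (m k) (c k) (N k • x) := by
    unfold Sf
    refine le_trans (le_of_eq ?_) (Finset.single_le_sum
      (f := fun i' : Idx => ∑ j' : Idx,
        ‖(tq (n k) (m k) (c k) (N k • x))⁻¹ * LL (n k) (m k) (c k) (bl (N k • x)) i' j' -
          (1 : M4) i' j'‖ ^ 2)
      (fun i' _ => Finset.sum_nonneg fun j' _ => by positivity) (Finset.mem_univ i))
    rfl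
  rw [dist_comm, dist_eq_norm]
  have h9 : (0 : ℝ) < 2 ^ k := by positivity
  have h10 : (0 : ℝ) < (1 / 2) ^ k := by positivity
  have h11 : 0 ≤ Sf (n k) (m k) (c k) (N k • x) := Sf_nonneg _ _ _ _
  calc ‖Qm n m N c (k + 1) x i j - Qm n m N c k x i j‖ ≤ ∑ l, ‖z l‖ := h3
    _ ≤ ∑ l : Idx, (2 ^ k * ‖z l‖ ^ 2 + (1 / 2 : ℝ) ^ k) / 2 :=
        Finset.sum_le_sum fun l _ => h4 l
    _ = (2 ^ k * ∑ l : Idx, ‖z l‖ ^ 2) / 2 + 2 * (1 / 2 : ℝ) ^ k := by
        rw [← Finset.sum_div, Finset.sum_add_distrib, ← Finset.mul_sum, Finset.sum_const]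
        have hcard : (Finset.univ : Finset Idx).card = 4 := rfl
        rw [hcard]
        simp only [nsmul_eq_mul]
        push_cast
        ring
    _ ≤ _ := by
        have h12 := mul_le_mul_of_nonneg_left h8 h9.le
        have h13 := mul_nonneg h9.le h11
        linarith

/-- the limit -/
def Ph (n m N : ℕ → ℕ) (c : ℕ → ℂ) (x : X) : M4 :=
  Matrix.of fun i j => limUnder atTop (fun k => Qm n m N c k x i j)

theorem Ph_lim {n m N : ℕ → ℕ} {c : ℕ → ℂ} {x : X}
    (h1 : ∀ k, (Qm n m N c k x)ᴴ * Qm n m N c k x = 1)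
    (h2 : Summable fun k => (2 : ℝ) ^ k * Sf (n k) (m k) (c k) (N k • x)) :
    Tendsto (fun k => Qm n m N c k x) atTop (𝓝 (Ph n m N c x)) := by
  refine tendsto_pi_nhds.2 fun i => tendsto_pi_nhds.2 fun j => ?_
  have hc : CauchySeq fun k => Qm n m N c k x i j :=
    cauchySeq_of_dist_le_of_summable _ (fun k => incr (h1 k) i j)
      (h2.add (summable_geometric_two.mul_left 2))
  exact hc.tendsto_limUnder

end PHI4aux

open PHI4aux

theorem t_PHI4 (hL1 : S_L1) (hK : S_SQK) (hTQ : S_TQU) (hE2 : Pool.Agent.H460U.S_E2)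
    (hH4 : Pool.Agent.H460U.S_H4) : S_PHI4 := by
  intro n m N c hP
  obtain ⟨hbl, hbl1, -, -⟩ := hH4
  have hT : ∀ k, Uni (TQ n m N c k) := fun k => (hK n m N c hP.scal.pos hP.unit k).1
  have hPu := P_unit hL1 hE2 hbl1 n m N c hP.unit
  -- the good set
  have hgood : ∀ᵐ x ∂mu, (∀ k, ‖TQ n m N c k x‖ = 1) ∧
      Summable fun k => (2 : ℝ) ^ k * Sf (n k) (m k) (c k) (N k • x) := by
    filter_upwards [ae_all_iff.2 fun k => (hT k).2,
      ae_summable hbl hbl1 hL1 hE2 hTQ n m N c hP] with x h1 h2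
    exact ⟨h1, h2⟩
  have hlim : ∀ᵐ x ∂mu, (∀ k, ‖TQ n m N c k x‖ = 1) ∧
      (∀ k, (Qm n m N c k x)ᴴ * Qm n m N c k x = 1) ∧
      Tendsto (fun k => Qm n m N c k x) atTop (𝓝 (Ph n m N c x)) := by
    filter_upwards [hgood] with x hx
    have h1 : ∀ k, (Qm n m N c k x)ᴴ * Qm n m N c k x = 1 := fun k =>
      Q_unit (hx.1 k) (hPu k x)
    exact ⟨hx.1, h1, Ph_lim h1 hx.2⟩
  refine ⟨Ph n m N c, ?_, ?_, ?_⟩
  · intro i j
    have hA : ∀ k, AEStronglyMeasurable (fun x => Qm n m N c k x i j) mu := by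
      intro k
      have h1 : AEStronglyMeasurable (fun x => (TQ n m N c k x)⁻¹) mu :=
        ((hT k).1.aemeasurable.inv).aestronglyMeasurable
      have h2 : AEStronglyMeasurable (fun x => PQ n m N c k x i j) mu :=
        ((P_cont hbl n m N c k).matrix_elem i j).aestronglyMeasurable
      exact h1.mul h2
    have hB : ∀ᵐ x ∂mu, Tendsto (fun k => Qm n m N c k x i j) atTop
        (𝓝 (Ph n m N c x i j)) := by
      filter_upwards [hlim] with x hx
      exact (tendsto_pi_nhds.1 ((tendsto_pi_nhds.1 hx.2.2) i)) j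
    exact aestronglyMeasurable_of_tendsto_ae atTop hA hB
  · filter_upwards [hlim] with x hx
    have h1 : Tendsto (fun k => (Qm n m N c k x)ᴴ * Qm n m N c k x) atTop
        (𝓝 ((Ph n m N c x)ᴴ * Ph n m N c x)) := by
      have hc : Continuous fun A : M4 => Aᴴ * A :=
        (continuous_id.matrix_conjTranspose).matrix_mul continuous_id
      exact (hc.tendsto _).comp hx.2.2
    have h2 : Tendsto (fun k => (Qm n m N c k x)ᴴ * Qm n m N c k x) atTop (𝓝 (1 : M4)) := by
      simp only [hx.2.1]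
      exact tendsto_const_nhds
    exact tendsto_nhds_unique h1 h2
  · intro k g hg
    have hshift : ∀ᵐ x ∂mu, (∀ k, ‖TQ n m N c k (x + g)‖ = 1) ∧
        (∀ k, (Qm n m N c k (x + g))ᴴ * Qm n m N c k (x + g) = 1) ∧
        Tendsto (fun k => Qm n m N c k (x + g)) atTop (𝓝 (Ph n m N c (x + g))) := by
      have hmp := (measurePreserving_add_right mu g).quasiMeasurePreserving
      have h0 := hmp.ae hlim
      exact h0
    filter_upwards [hlim, hshift] with x hx hxg
    have hdvd : ∀ j, k ≤ j → N j • g = 0 := by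
      intro j hj
      induction j, hj using Nat.le_induction with
      | base => exact hg
      | succ j _ ih =>
        obtain ⟨r, hr⟩ := hP.scal.dvd j
        rw [hr, mul_assoc, mul_comm (N j) r, ← mul_assoc, mul_smul, ih, smul_zero]
    set W : M4 := (Qm n m N c k x)ᴴ * Qm n m N c k (x + g) with hW
    have key : ∀ j, k ≤ j → Qm n m N c j (x + g) = Qm n m N c j x * W := by
      intro j hj
      induction j, hj using Nat.le_induction with
      | base =>
        rw [hW, ← Matrix.mul_assoc, mul_eq_one_comm.1 (hx.2.1 k), Matrix.one_mul]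
      | succ j hj ih =>
        rw [Q_succ, Q_succ, ih, Matrix.mul_assoc]
        have : N j • (x + g) = N j • x := by rw [smul_add, hdvd j hj, add_zero]
        rw [this]
    have hlimW : Ph n m N c (x + g) = Ph n m N c x * W := by
      have h1 : Tendsto (fun j => Qm n m N c j x * W) atTop (𝓝 (Ph n m N c x * W)) := by
        have hc : Continuous fun A : M4 => A * W := continuous_id.matrix_mul continuous_const
        exact (hc.tendsto _).comp hx.2.2
      have h2 : (fun j => Qm n m N c j x * W) =ᶠ[atTop] fun j => Qm n m N c j (x + g) := by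
        filter_upwards [eventually_ge_atTop k] with j hj
        exact (key j hj).symm
      exact tendsto_nhds_unique hxg.2.2 (h1.congr' h2)
    -- the constant
    have hTx : TQ n m N c k x ≠ 0 := by
      intro h0
      have := hx.1 k
      rw [h0, norm_zero] at this
      exact zero_ne_one this
    have hTg : TQ n m N c k (x + g) ≠ 0 := by
      intro h0
      have := hxg.1 k
      rw [h0, norm_zero] at this
      exact zero_ne_one this
    have hstar : star (TQ n m N c k x)⁻¹ = TQ n m N c k x := by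
      rw [star_inv₀, inv_eq_iff_eq_inv]
      have h4 : star (TQ n m N c k x) * TQ n m N c k x = 1 := by
        have := Complex.conj_mul' (TQ n m N c k x)
        rw [hx.1 k] at this
        simpa using this
      exact eq_inv_of_mul_eq_one_left h4
    have hWe : W = (TQ n m N c k x * (TQ n m N c k (x + g))⁻¹) •
        ((PQ n m N c k x)ᴴ * PQ n m N c k (x + g)) := by
      rw [hW]
      unfold Qm
      rw [Matrix.conjTranspose_smul, hstar, Matrix.smul_mul, Matrix.mul_smul, smul_smul]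
    rw [hlimW, hWe]
    unfold wq CQ
    rw [Matrix.mul_smul, Matrix.mul_smul, smul_smul]
    congr 1
    field_simp

end

end Pool.Agent.H875A
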