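import Pool.Agent.H875A.AR.Defs

set_option autoImplicit false

open MeasureTheory Complex Filter
open scoped ComplexConjugate Matrix Topology InnerProductSpace

namespace Pool.Agent.H875A

open Pool.Agent.H460U (X mu M2 L2 e Uni Bd An bl Vm ell ta tt TT DD)

noncomputable section

namespace PROPaux

theorem fourier_x_add (n : ℤ) (x y : X) : fourier n (x + y) = fourier n x * fourier n y := by
  rw [fourier_apply, fourier_apply, fourier_apply, smul_add, AddCircle.toCircle_add,
    Circle.coe_mul]

theorem fourier_x_neg (n : ℤ) (x : X) : fourier n (-x) = conj (fourier n x) := by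
  rw [fourier_apply, smul_neg, fourier_neg']

theorem norm_fourier (n : ℤ) (x : X) : ‖fourier n x‖ = 1 := by
  rw [fourier_apply]; exact Circle.norm_coe _

theorem fc_translate (g : X → ℂ) (h : X) (m : ℤ) :
    fourierCoeff (fun x => g (x + h)) m = fourier m h * fourierCoeff g m := by
  unfold fourierCoeff
  have h1 : ∀ x : X, fourier (-m) x • g (x + h) =
      (fun y : X => fourier m h * (fourier (-m) y • g y)) (x + h) := by
    intro x
    change _ = fourier m h * (fourier (-m) (x + h) • g (x + h))
    rw [fourier_x_add]
    have h2 : fourier m h * fourier (-m) h = 1 := by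
      rw [← fourier_add, add_neg_cancel, fourier_zero]
    simp only [smul_eq_mul]
    calc fourier (-m) x * g (x + h) = (fourier m h * fourier (-m) h) *
          (fourier (-m) x * g (x + h)) := by rw [h2, one_mul]
      _ = _ := by ring
  simp_rw [h1]
  rw [integral_add_right_eq_self (fun y : X => fourier m h * (fourier (-m) y • g y)) h,
    integral_const_mul]

theorem fc_conj (f : X → ℂ) (n m : ℤ) :
    fourierCoeff (fun x => conj (f x) * fourier n x) m = conj (fourierCoeff f (n - m)) := by
  unfold fourierCoeff
  rw [← integral_conj]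
  apply integral_congr_ae
  filter_upwards with x
  have h1 : conj (fourier (-(n - m)) x) = fourier (n - m) x := by
    rw [fourier_neg, Complex.conj_conj]
  have h2 : fourier (n - m) x = fourier n x * fourier (-m) x := by
    rw [← fourier_add]; congr 1
  simp only [smul_eq_mul, map_mul]
  rw [h1, h2]
  ring

theorem memLp_translate (g : L2) (h : X) : MemLp (fun x => g (x + h)) 2 mu :=
  (Lp.memLp g).comp_measurePreserving (measurePreserving_add_right mu h)

theorem memLp_conj (f : L2) (n : ℤ) : MemLp (fun x => conj (f x) * fourier n x) 2 mu := by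
  have h1 : MemLp (fun x => conj (f x)) 2 mu := (Lp.memLp f).star
  refine h1.norm.of_le_mul (c := 1) ?_ ?_
  · exact h1.aestronglyMeasurable.mul (map_continuous (fourier n)).aestronglyMeasurable
  · filter_upwards with x
    rw [norm_mul, norm_fourier]
    simp

theorem hasSum_K (f g : L2) (n : ℤ) (h : X) :
    HasSum (fun m : ℤ => fourierCoeff f (n - m) * (fourier m h * fourierCoeff g m))
      (∫ x, fourier (-n) x * (f x * g (x + h)) ∂mu) := by
  let u : L2 := (memLp_conj f n).toLp _
  let v : L2 := (memLp_translate g h).toLp _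
  have hu : ∀ m, fourierCoeff u m = conj (fourierCoeff f (n - m)) := by
    intro m
    rw [← fc_conj]
    exact congrFun (fourierCoeff_congr_ae (MemLp.coeFn_toLp _)) m
  have hv : ∀ m, fourierCoeff v m = fourier m h * fourierCoeff g m := by
    intro m
    rw [← fc_translate]
    exact congrFun (fourierCoeff_congr_ae (MemLp.coeFn_toLp _)) m
  have key := fourierBasis.hasSum_inner_mul_inner u v
  have e1 : ∀ m, ⟪u, fourierBasis m⟫_ℂ * ⟪fourierBasis m, v⟫_ℂ =
      fourierCoeff f (n - m) * (fourier m h * fourierCoeff g m) := by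
    intro m
    rw [← inner_conj_symm, ← HilbertBasis.repr_apply_apply, ← HilbertBasis.repr_apply_apply,
      fourierBasis_repr, fourierBasis_repr, hu, hv, Complex.conj_conj]
  simp_rw [e1] at key
  have e2 : ⟪u, v⟫_ℂ = ∫ x, fourier (-n) x * (f x * g (x + h)) ∂mu := by
    rw [L2.inner_def]
    apply integral_congr_ae
    filter_upwards [MemLp.coeFn_toLp (memLp_conj f n), MemLp.coeFn_toLp (memLp_translate g h)]
      with x h1 h2
    change ⟪u x, v x⟫_ℂ = _
    have h1' : u x = conj (f x) * fourier n x := h1
    have h2' : v x = g (x + h) := h2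
    rw [h1', h2']
    simp only [RCLike.inner_apply, map_mul, Complex.conj_conj]
    rw [fourier_neg]
    ring
  rwa [e2] at key

/-- an absolutely convergent Fourier series which vanishes identically -/
theorem coeff_zero {c : ℤ → ℂ} (hc : Summable fun m => ‖c m‖)
    (h0 : ∀ x : X, ∑' m : ℤ, c m * fourier m x = 0) (n : ℤ) : c n = 0 := by
  have hint : ∀ m : ℤ, Integrable (fun x : X => fourier (-n) x * (c m * fourier m x)) mu := by
    intro m
    apply Continuous.integrable_of_hasCompactSupport
    · fun_prop
    · exact HasCompactSupport.of_compactSpace _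
  have hnorm : ∀ m : ℤ, ∫ x : X, ‖fourier (-n) x * (c m * fourier m x)‖ ∂mu = ‖c m‖ := by
    intro m
    have : ∀ x : X, ‖fourier (-n) x * (c m * fourier m x)‖ = ‖c m‖ := by
      intro x
      rw [norm_mul, norm_mul, norm_fourier, norm_fourier]; ring
    simp_rw [this]
    simp
  have key := hasSum_integral_of_summable_integral_norm hint (by simpa only [hnorm] using hc)
  have e1 : ∀ m : ℤ, ∫ x : X, fourier (-n) x * (c m * fourier m x) ∂mu =
      if m = n then c n else 0 := by
    intro m
    have h1 := congrFun (fourierCoeff_fourier (T := 1) m) n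
    unfold fourierCoeff at h1
    have h2 : ∫ x : X, fourier (-n) x * (c m * fourier m x) ∂mu =
        c m * ∫ x : X, fourier (-n) x • fourier m x ∂mu := by
      rw [← integral_const_mul]
      apply integral_congr_ae
      filter_upwards with x
      simp only [smul_eq_mul]
      ring
    rw [h2, h1, Pi.single_apply]
    by_cases hmn : m = n
    · subst hmn; simp
    · rw [if_neg hmn, if_neg (fun h => hmn h.symm), mul_zero]
  have e2 : ∫ x : X, ∑' m : ℤ, fourier (-n) x * (c m * fourier m x) ∂mu = 0 := by
    have : ∀ x : X, ∑' m : ℤ, fourier (-n) x * (c m * fourier m x) = 0 := by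
      intro x
      rw [tsum_mul_left, h0 x, mul_zero]
    simp_rw [this]
    simp
  simp_rw [e1] at key
  rw [e2] at key
  have h3 := hasSum_ite_eq n (c n)
  exact h3.unique key

theorem pow_le {N : ℕ → ℕ} (h0 : N 0 = 1) (hpos : ∀ k, 0 < N k)
    (hdvd : ∀ k, 2 * N k ∣ N (k + 1)) : ∀ k, 2 ^ k ≤ N k := by
  intro k
  induction k with
  | zero => rw [h0]; norm_num
  | succ k ih =>
    have := Nat.le_of_dvd (hpos _) (hdvd k)
    rw [pow_succ]; omega

/-- density of the torsion points -/
theorem dense_T {N : ℕ → ℕ} (h0 : N 0 = 1) (hpos : ∀ k, 0 < N k)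
    (hdvd : ∀ k, 2 * N k ∣ N (k + 1)) : Dense {h : X | ∃ k, N k • h = 0} := by
  have hD : Dense {t : ℝ | ∃ (k : ℕ) (j : ℤ), t = (j : ℝ) / N k} := by
    rw [dense_iff_exists_between]
    intro a b hab
    obtain ⟨k, hk⟩ := pow_unbounded_of_one_lt (1 / (b - a)) (one_lt_two)
    have hN : (2 : ℝ) ^ k ≤ N k := by exact_mod_cast pow_le h0 hpos hdvd k
    have hN0 : (0 : ℝ) < N k := by exact_mod_cast hpos k
    have hba : 0 < b - a := by linarith
    have h1 : 1 < (b - a) * N k := by
      rw [div_lt_iff₀ hba] at hk
      nlinarith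
    refine ⟨((⌊a * N k⌋ + 1 : ℤ) : ℝ) / N k, ⟨k, _, rfl⟩, ?_, ?_⟩
    · rw [lt_div_iff₀ hN0]
      push_cast
      exact Int.lt_floor_add_one _
    · rw [div_lt_iff₀ hN0]
      push_cast
      have := Int.floor_le (a * N k)
      nlinarith
  have hs : Function.Surjective ((↑) : ℝ → X) := QuotientAddGroup.mk_surjective
  have h2 := hs.denseRange.dense_image (AddCircle.continuous_mk' 1) hD
  refine h2.mono ?_
  rintro _ ⟨t, ⟨k, j, rfl⟩, rfl⟩
  refine ⟨k, ?_⟩
  have hN0 : (N k : ℝ) ≠ 0 := by exact_mod_cast (hpos k).ne'
  rw [← AddCircle.coe_nsmul, nsmul_eq_mul, mul_div_cancel₀ _ hN0]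
  rw [AddCircle.coe_eq_zero_iff]
  exact ⟨j, by simp⟩

end PROPaux

open PROPaux

theorem t_PROP : S_PROP := by
  intro N hN0 hpos hdvd f g hfg
  -- the relation between the Fourier coefficients
  have key : ∀ a b : ℤ, fourierCoeff f a * fourierCoeff g b =
      fourierCoeff g a * fourierCoeff f b := by
    intro a b
    let n : ℤ := a + b
    let c : ℤ → ℂ := fun m => fourierCoeff f (n - m) * fourierCoeff g m -
      fourierCoeff g (n - m) * fourierCoeff f m
    have hs1 : ∀ h : X, HasSum (fun m : ℤ => c m * fourier m h)
        ((∫ x, fourier (-n) x * (f x * g (x + h)) ∂mu) -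
          ∫ x, fourier (-n) x * (g x * f (x + h)) ∂mu) := by
      intro h
      have h1 := (hasSum_K f g n h).sub (hasSum_K g f n h)
      refine h1.congr_fun ?_ |> fun h => h
      intro m
      simp only [c]
      ring
    have hsum : Summable fun m => ‖c m‖ := by
      have h1 := (hs1 0).summable
      have h2 : (fun m : ℤ => c m * fourier m (0 : X)) = c := by
        funext m
        rw [fourier_eval_zero, mul_one]
      rw [h2] at h1
      exact summable_norm_iff.2 h1
    have hcont : Continuous fun h : X => ∑' m : ℤ, c m * fourier m h := by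
      refine continuous_tsum (u := fun m => ‖c m‖) (fun m => ?_) hsum (fun m x => ?_)
      · fun_prop
      · rw [norm_mul, norm_fourier, mul_one]
    have hzero : ∀ h : X, ∑' m : ℤ, c m * fourier m h = 0 := by
      have h1 : Set.EqOn (fun h : X => ∑' m : ℤ, c m * fourier m h) (fun _ => (0 : ℂ))
          {h : X | ∃ k, N k • h = 0} := by
        rintro h ⟨k, hk⟩
        change ∑' m : ℤ, c m * fourier m h = 0
        rw [(hs1 h).tsum_eq, sub_eq_zero]
        apply integral_congr_ae
        filter_upwards [hfg k h hk] with x hx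
        rw [hx]
      have h2 := hcont.ext_on (dense_T hN0 hpos hdvd) continuous_const h1
      intro h
      exact congrFun h2 h
    have h3 := coeff_zero hsum hzero b
    have h4 : n - b = a := by simp [n]
    simp only [c, h4] at h3
    exact sub_eq_zero.1 h3
  by_cases hf : ∀ a : ℤ, fourierCoeff f a = 0
  · refine ⟨0, 1, Or.inr one_ne_zero, ?_⟩
    have hf0 : f = 0 := by
      apply fourierBasis.repr.injective
      ext i
      rw [fourierBasis_repr, hf i, map_zero]
      rfl
    rw [hf0, smul_zero, zero_smul]
  · push Not at hf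
    obtain ⟨a, ha⟩ := hf
    refine ⟨fourierCoeff f a, fourierCoeff g a, Or.inl ha, ?_⟩
    apply fourierBasis.repr.injective
    ext i
    rw [map_smul, map_smul]
    change fourierCoeff g a * (fourierBasis.repr f) i = fourierCoeff f a * (fourierBasis.repr g) i
    rw [fourierBasis_repr, fourierBasis_repr]
    exact (key a i).symm

end

end Pool.Agent.H875A
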