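import Pool.Agent.H875A.AR.Defs
import Pool.Agent.H460U.TR.BH1

/-! RR (helper357): reducing subspaces of `L² ⊕ L²`. -/

set_option autoImplicit false

open MeasureTheory Complex Filter
open scoped ComplexConjugate Matrix Topology InnerProductSpace

namespace Pool.Agent.H875A

open Pool.Agent.H460U (X mu M2 L2 e Uni Bd An bl Vm ell ta tt TT DD)
open Pool.Agent.H460U.BH1 (mulE coe_mulE e_add ae_zero_of_fourier)

namespace RRaux

theorem mulE_mem {R : Submodule ℂ (L2 × L2)} (h1 : ZI R 1) (h2 : ZI R (-1)) {p : L2 × L2}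
    (hp : p ∈ R) (n : ℤ) : (mulE n p.1, mulE n p.2) ∈ R := by
  induction n using Int.induction_on with
  | zero =>
    have h0 : ∀ f : L2, mulE 0 f = f := by
      intro f
      apply Lp.ext
      filter_upwards [coe_mulE 0 f] with x hx
      rw [hx]; simp [e]
    rw [h0, h0]; exact hp
  | succ k ih =>
    refine h1 _ ih _ ?_ ?_
    · filter_upwards [coe_mulE (k + 1) p.1, coe_mulE k p.1] with x hx hy
      rw [hx, hy, add_comm, e_add, mul_assoc]
    · filter_upwards [coe_mulE (k + 1) p.2, coe_mulE k p.2] with x hx hy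
      rw [hx, hy, add_comm, e_add, mul_assoc]
  | pred k ih =>
    refine h2 _ ih _ ?_ ?_
    · filter_upwards [coe_mulE (-k - 1) p.1, coe_mulE (-k) p.1] with x hx hy
      rw [hx, hy, sub_eq_neg_add, e_add, mul_assoc]
    · filter_upwards [coe_mulE (-k - 1) p.2, coe_mulE (-k) p.2] with x hx hy
      rw [hx, hy, sub_eq_neg_add, e_add, mul_assoc]

/-- separation -/
theorem sep {R : Submodule ℂ (L2 × L2)} (hR : IsClosed (R : Set (L2 × L2))) {h : L2 × L2}
    (hh : h ∉ R) : ∃ r : L2 × L2, (∀ p ∈ R, ⟪r.1, p.1⟫_ℂ + ⟪r.2, p.2⟫_ℂ = 0) ∧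
      ⟪r.1, h.1⟫_ℂ + ⟪r.2, h.2⟫_ℂ ≠ 0 := by
  have : IsClosed (R : Set (L2 × L2)) := hR
  have hne : (Submodule.Quotient.mk h : (L2 × L2) ⧸ R) ≠ 0 := by
    rw [Ne, Submodule.Quotient.mk_eq_zero]
    exact hh
  obtain ⟨Λ, hΛ⟩ := SeparatingDual.exists_ne_zero (R := ℂ) hne
  let Λ' : (L2 × L2) →L[ℂ] ℂ := Λ.comp (R.mkQL)
  have hL : ∀ p : L2 × L2, Λ' p = ⟪(InnerProductSpace.toDual ℂ L2).symm (Λ'.comp (ContinuousLinearMap.inl ℂ L2 L2)), p.1⟫_ℂ
      + ⟪(InnerProductSpace.toDual ℂ L2).symm (Λ'.comp (ContinuousLinearMap.inr ℂ L2 L2)), p.2⟫_ℂ := by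
    intro p
    rw [InnerProductSpace.toDual_symm_apply, InnerProductSpace.toDual_symm_apply]
    simp only [ContinuousLinearMap.comp_apply, ContinuousLinearMap.inl_apply, ContinuousLinearMap.inr_apply]
    rw [← map_add]
    congr 1
    simp
  refine ⟨((InnerProductSpace.toDual ℂ L2).symm (Λ'.comp (ContinuousLinearMap.inl ℂ L2 L2)),
    (InnerProductSpace.toDual ℂ L2).symm (Λ'.comp (ContinuousLinearMap.inr ℂ L2 L2))), ?_, ?_⟩
  · intro p hp
    rw [← hL p]
    show Λ (Submodule.Quotient.mk p) = 0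
    rw [(Submodule.Quotient.mk_eq_zero R).2 hp, map_zero]
  · rw [← hL h]
    exact hΛ

theorem int_inner (g f : L2) : Integrable (fun x => conj (g x) * f x) mu := by
  have := L2.integrable_inner (𝕜 := ℂ) g f
  refine this.congr (ae_of_all _ fun x => ?_)
  simp [RCLike.inner_apply, mul_comm]

theorem inner_eq (g f : L2) : ⟪g, f⟫_ℂ = ∫ x, conj (g x) * f x ∂mu := by
  rw [L2.inner_def]
  refine integral_congr_ae (ae_of_all _ fun x => ?_)
  simp [RCLike.inner_apply, mul_comm]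

/-- multiplication by bounded measurable functions -/
theorem mulB_mem {R : Submodule ℂ (L2 × L2)} (hR : IsClosed (R : Set (L2 × L2))) (h1 : ZI R 1)
    (h2 : ZI R (-1)) {p : L2 × L2} (hp : p ∈ R) (b : X → ℂ) (h : L2 × L2)
    (ha : (h.1 : X → ℂ) =ᵐ[mu] fun x => b x * p.1 x)
    (hb : (h.2 : X → ℂ) =ᵐ[mu] fun x => b x * p.2 x) : h ∈ R := by
  by_contra hh
  obtain ⟨r, hr, hne⟩ := sep hR hh
  apply hne
  have hG : (fun x => conj (r.1 x) * p.1 x + conj (r.2 x) * p.2 x) =ᵐ[mu] 0 := by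
    refine ae_zero_of_fourier ((int_inner r.1 p.1).add (int_inner r.2 p.2)) fun n => ?_
    have h3 := hr _ (mulE_mem h1 h2 hp n)
    rw [inner_eq, inner_eq, ← integral_add (int_inner _ _) (int_inner _ _)] at h3
    rw [← h3]
    refine integral_congr_ae ?_
    filter_upwards [coe_mulE n p.1, coe_mulE n p.2] with x hx hy
    simp only [hx, hy, e]
    ring
  rw [inner_eq, inner_eq, ← integral_add (int_inner _ _) (int_inner _ _), ← integral_zero X ℂ (μ := mu)]
  refine integral_congr_ae ?_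
  filter_upwards [hG, ha, hb] with x hx hy hz
  simp only [Pi.zero_apply] at hx
  simp only [hy, hz]
  linear_combination b x * hx

end RRaux

open RRaux

theorem t_RR : S_RR := by
  intro R hR h1 h2
  by_cases hal : ∃ q ∈ R, q ≠ 0 ∧ q.1 = 0
  · exact Or.inl hal
  right
  push Not at hal
  intro p hp q hq
  -- truncations
  have key : ∀ n : ℕ, ∀ᵐ x ∂mu, (‖p.1 x‖ ≤ n ∧ ‖q.1 x‖ ≤ n) → q.1 x * p.2 x - p.1 x * q.2 x = 0 := by
    intro n
    classical
    let s : Set X := {x | ‖p.1 x‖ ≤ n ∧ ‖q.1 x‖ ≤ n}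
    have hs : MeasurableSet s :=
      (measurableSet_le (Lp.stronglyMeasurable p.1).measurable.norm measurable_const).inter
        (measurableSet_le (Lp.stronglyMeasurable q.1).measurable.norm measurable_const)
    let a : X → ℂ := s.indicator (fun x => q.1 x)
    let b : X → ℂ := s.indicator (fun x => p.1 x)
    have ham : AEStronglyMeasurable a mu := ((Lp.stronglyMeasurable q.1).indicator hs).aestronglyMeasurable
    have hbm : AEStronglyMeasurable b mu := ((Lp.stronglyMeasurable p.1).indicator hs).aestronglyMeasurable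
    have hab : ∀ x, ‖a x‖ ≤ n := fun x => by
      by_cases hx : x ∈ s
      · simp only [a, Set.indicator_of_mem hx]; exact hx.2
      · simp [a, Set.indicator_of_notMem hx]
    have hbb : ∀ x, ‖b x‖ ≤ n := fun x => by
      by_cases hx : x ∈ s
      · simp only [b, Set.indicator_of_mem hx]; exact hx.1
      · simp [b, Set.indicator_of_notMem hx]
    have mul_mem : ∀ (c : X → ℂ), AEStronglyMeasurable c mu → (∀ x, ‖c x‖ ≤ n) → ∀ f : L2,
        MemLp (fun x => c x * f x) 2 mu := by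
      intro c hc hcb f
      refine MemLp.of_le_mul (c := n) (Lp.memLp f) (hc.mul (Lp.aestronglyMeasurable f)) (ae_of_all _ fun x => ?_)
      rw [norm_mul]
      exact mul_le_mul_of_nonneg_right (hcb x) (norm_nonneg _)
    let u : L2 × L2 := ((mul_mem a ham hab p.1).toLp _, (mul_mem a ham hab p.2).toLp _)
    let v : L2 × L2 := ((mul_mem b hbm hbb q.1).toLp _, (mul_mem b hbm hbb q.2).toLp _)
    have hu1 : (u.1 : X → ℂ) =ᵐ[mu] fun x => a x * p.1 x := MemLp.coeFn_toLp (mul_mem a ham hab p.1)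
    have hu2 : (u.2 : X → ℂ) =ᵐ[mu] fun x => a x * p.2 x := MemLp.coeFn_toLp (mul_mem a ham hab p.2)
    have hv1 : (v.1 : X → ℂ) =ᵐ[mu] fun x => b x * q.1 x := MemLp.coeFn_toLp (mul_mem b hbm hbb q.1)
    have hv2 : (v.2 : X → ℂ) =ᵐ[mu] fun x => b x * q.2 x := MemLp.coeFn_toLp (mul_mem b hbm hbb q.2)
    have hu : u ∈ R := mulB_mem hR h1 h2 hp a u hu1 hu2
    have hv : v ∈ R := mulB_mem hR h1 h2 hq b v hv1 hv2
    have huv : (u - v).1 = 0 := by
      apply Lp.ext
      filter_upwards [Lp.coeFn_sub u.1 v.1, hu1, hv1, Lp.coeFn_zero ℂ 2 mu] with x hx h3 h4 h5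
      show (u.1 - v.1 : L2) x = (0 : L2) x
      rw [hx, h5, Pi.sub_apply, h3, h4, Pi.zero_apply]
      by_cases hxs : x ∈ s
      · simp only [a, b, Set.indicator_of_mem hxs]; ring
      · simp [a, b, Set.indicator_of_notMem hxs]
    have h0 : u - v = 0 := by
      by_contra hne
      exact hal _ (R.sub_mem hu hv) hne huv
    have h02 : u.2 - v.2 = 0 := congrArg Prod.snd h0
    have h03 : ((u.2 - v.2 : L2) : X → ℂ) =ᵐ[mu] 0 := by
      rw [h02]; exact Lp.coeFn_zero ℂ 2 mu
    filter_upwards [Lp.coeFn_sub u.2 v.2, hu2, hv2, h03] with x hx h3 h4 h5 hxs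
    have hxs' : x ∈ s := hxs
    rw [hx, Pi.sub_apply, h3, h4, Pi.zero_apply] at h5
    simp only [a, b, Set.indicator_of_mem hxs'] at h5
    exact h5
  have key' := ae_all_iff.2 key
  filter_upwards [key'] with x hx
  obtain ⟨n, hn⟩ := exists_nat_ge (max ‖p.1 x‖ ‖q.1 x‖)
  have := hx n ⟨(le_max_left _ _).trans hn, (le_max_right _ _).trans hn⟩
  linear_combination -this

end Pool.Agent.H875A
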