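import Pool.Agent.H875A.AR.Defs
import Pool.Agent.H460U.TR.E5

set_option autoImplicit false

open MeasureTheory Complex Filter
open scoped ComplexConjugate Matrix Topology InnerProductSpace

namespace Pool.Agent.H875A

open Pool.Agent.H460U (X mu M2 L2 e Uni Bd An bl Vm ell ta tt TT DD E5_ta_zero E5_ae E5_single)

namespace SQaux

lemma e_norm (n : ℤ) (x : X) : ‖e n x‖ = 1 := by
  unfold e
  rw [fourier_apply]
  exact Circle.norm_coe _

lemma den_ne (x : X) : (1 - 1 / 2 * e 1 x) ≠ 0 := by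
  intro h
  have h1 : e 1 x = 2 := by linear_combination (-2) * h
  have h2 := e_norm 1 x
  rw [h1] at h2
  norm_num at h2

lemma num_den (z : ℂ) (hz : ‖z‖ = 1) : ‖z - 1 / 2‖ = ‖1 - 1 / 2 * z‖ := by
  have h1 : z.re ^ 2 + z.im ^ 2 = 1 := by
    have := Complex.sq_norm z
    rw [hz, Complex.normSq_apply] at this
    nlinarith [this]
  have h2 : ‖z - 1 / 2‖ ^ 2 = ‖1 - 1 / 2 * z‖ ^ 2 := by
    rw [Complex.sq_norm, Complex.sq_norm, Complex.normSq_apply, Complex.normSq_apply]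
    simp
    nlinarith [h1]
  exact (sq_eq_sq₀ (norm_nonneg _) (norm_nonneg _)).mp h2

lemma bl_norm (x : X) : ‖bl x‖ = 1 := by
  unfold bl
  rw [norm_div, num_den _ (e_norm 1 x)]
  exact div_self (norm_ne_zero_iff.mpr (den_ne x))

lemma bl_inj : Function.Injective bl := by
  intro x y h
  have hx := den_ne x
  have hy := den_ne y
  have h2 : e 1 x = e 1 y := by
    unfold bl at h
    rw [div_eq_div_iff hx hy] at h
    linear_combination (4 / 3 : ℂ) * h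
  unfold e at h2
  rw [fourier_one, fourier_one] at h2
  exact AddCircle.injective_toCircle one_ne_zero (Subtype.ext h2)

lemma tt_norm (n : ℕ) (x : X) : ‖tt n x‖ = 1 := by
  unfold tt
  split_ifs with h
  · exact norm_one
  · rw [norm_div, Complex.norm_real, norm_norm]
    exact div_self (norm_ne_zero_iff.2 h)

lemma phase_sq (h4 : Pool.Agent.H460U.S_E4) (m : ℕ) (ζ : ℂ) (hζ : ‖ζ‖ = 1) (h0 : ta m ζ ≠ 0) :
    (ta m ζ / ((‖ta m ζ‖ : ℝ) : ℂ)) ^ 2 = ζ ^ (5 ^ m) := by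
  have h := (h4 m ζ hζ).1
  have hn : ((‖ta m ζ‖ : ℝ) : ℂ) ≠ 0 := by
    exact_mod_cast norm_ne_zero_iff.2 h0
  rw [div_pow, div_eq_iff (pow_ne_zero 2 hn), h]
  ring

lemma rpos (r : ℝ) (h0 : 0 < r) (h1 : r ≤ 1) : 0 < (15 * r - 10 * r ^ 3 + 3 * r ^ 5) / 8 := by
  have h2 : r ^ 2 ≤ 1 := by nlinarith
  have h3 : 0 < r * (15 - 10 * r ^ 2 + 3 * r ^ 4) := by
    apply mul_pos h0
    nlinarith [sq_nonneg (r ^ 2)]
  have h4 : (15 * r - 10 * r ^ 3 + 3 * r ^ 5) / 8 = r * (15 - 10 * r ^ 2 + 3 * r ^ 4) / 8 := by ring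
  rw [h4]
  linarith

lemma ta_ne (h4 : Pool.Agent.H460U.S_E4) (m : ℕ) (ζ : ℂ) (hζ : ‖ζ‖ = 1) (h : ζ ≠ -1) :
    ta m ζ ≠ 0 := by
  induction m with
  | zero =>
    rw [E5_ta_zero]
    intro h0
    apply h
    linear_combination 2 * h0
  | succ m ih =>
    intro h0
    have h5 := (h4 m ζ hζ).2.2
    rw [h0, norm_zero] at h5
    have h6 := rpos ‖ta m ζ‖ (norm_pos_iff.2 ih) (h4 m ζ hζ).2.1
    linarith

lemma phase_step (h1 : Pool.Agent.H460U.S_E1) (h4 : Pool.Agent.H460U.S_E4) (n : ℕ) (ξ : ℂ)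
    (hξ : ‖ξ‖ = 1) (h0 : ta n ξ ≠ 0) :
    ta (n + 1) ξ / ((‖ta (n + 1) ξ‖ : ℝ) : ℂ) = (ta n ξ / ((‖ta n ξ‖ : ℝ) : ℂ)) ^ 5 := by
  have hnn := (h4 n ξ hξ).2.2
  have hrec := (h1 n ξ).2.2
  have hph := phase_sq h4 n ξ hξ h0
  have hs := rpos ‖ta n ξ‖ (norm_pos_iff.2 h0) (h4 n ξ hξ).2.1
  have hn : ((‖ta n ξ‖ : ℝ) : ℂ) ≠ 0 := by
    exact_mod_cast norm_ne_zero_iff.2 h0
  obtain ⟨r, hr⟩ : ∃ r : ℝ, r = ‖ta n ξ‖ := ⟨_, rfl⟩
  rw [← hr] at hnn hph hs hn ⊢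
  obtain ⟨u, hu⟩ : ∃ u : ℂ, u = ta n ξ / (r : ℂ) := ⟨_, rfl⟩
  have ht : ta n ξ = r * u := by
    rw [hu]
    field_simp
  rw [← hu] at hph ⊢
  rw [← hph, ht] at hrec
  rw [hnn]
  have hsc : (((15 * r - 10 * r ^ 3 + 3 * r ^ 5) / 8 : ℝ) : ℂ) ≠ 0 := by
    exact_mod_cast hs.ne'
  rw [div_eq_iff hsc, hrec]
  push_cast
  ring

lemma tt_step (h1 : Pool.Agent.H460U.S_E1) (h4 : Pool.Agent.H460U.S_E4) (n m : ℕ) (x : X)
    (hx : bl x ≠ -1) : tt (n + m) x = (tt n x) ^ (5 ^ m) := by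
  have key : ∀ k, tt (k + 1) x = (tt k x) ^ 5 := by
    intro k
    have h2 := ta_ne h4 k (bl x) (bl_norm x) hx
    have h3 := ta_ne h4 (k + 1) (bl x) (bl_norm x) hx
    unfold tt
    rw [if_neg h2, if_neg h3]
    exact phase_step h1 h4 k (bl x) (bl_norm x) h2
  induction m with
  | zero => simp
  | succ m ih =>
    rw [← add_assoc, key, ih, ← pow_mul, pow_succ]

lemma null (N : ℕ) (hN : 0 < N) (w : ℂ) : mu {x : X | bl x ^ N = w} = 0 := by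
  have hfin : {b : ℂ | b ^ N = w}.Finite := by
    refine (Finset.finite_toSet (Polynomial.nthRoots N w).toFinset).subset ?_
    intro b hb
    simp only [Finset.mem_coe, Multiset.mem_toFinset]
    rw [Polynomial.mem_nthRoots hN]
    exact hb
  have hf2 : {x : X | bl x ^ N = w}.Finite := hfin.preimage bl_inj.injOn
  have h3 : ⋃ x ∈ {x : X | bl x ^ N = w}, {x} = {x : X | bl x ^ N = w} :=
    Set.biUnion_of_singleton _
  rw [← h3]
  exact (measure_biUnion_null_iff hf2.countable).2 fun x _ => E5_single x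

lemma ae_ne (h6 : Pool.Agent.H460U.S_E6) (n : ℕ) (c : ℂ) (hc : ‖c‖ = 1) :
    ∀ᵐ x ∂mu, c * tt n x ≠ -1 := by
  have h := null (5 ^ n) (by positivity) ((c ^ 2)⁻¹)
  have h2 : ∀ᵐ x ∂mu, bl x ^ (5 ^ n) ≠ (c ^ 2)⁻¹ := by
    rw [ae_iff]
    simpa using h
  have hc0 : c ≠ 0 := by
    intro h0
    rw [h0, norm_zero] at hc
    norm_num at hc
  filter_upwards [h2, (h6 n).2] with x hx hx2 h3
  apply hx
  rw [← hx2]
  refine eq_inv_of_mul_eq_one_left ?_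
  linear_combination (c * tt n x - 1) * h3

end SQaux

open SQaux in
theorem t_SQ (h1 : Pool.Agent.H460U.S_E1) (h4 : Pool.Agent.H460U.S_E4)
    (h6 : Pool.Agent.H460U.S_E6) : S_SQ := by
  intro n m c hc
  refine ⟨c ^ (5 ^ m), by rw [norm_pow, hc, one_pow], ?_⟩
  filter_upwards [E5_ae, ae_ne h6 n c hc] with x hx hx2
  have hζ : ‖c * tt n x‖ = 1 := by rw [norm_mul, hc, tt_norm, one_mul]
  have h0 := ta_ne h4 m (c * tt n x) hζ hx2
  unfold tq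
  rw [if_neg h0, phase_sq h4 m _ hζ h0, mul_pow, tt_step h1 h4 n m x hx]

end Pool.Agent.H875A
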