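import Mathlib
import Pool.Agent.H875A.AR.Defs

set_option autoImplicit false

open MeasureTheory Complex Filter
open scoped ComplexConjugate Matrix Topology InnerProductSpace

namespace Pool.Agent.H875A

open Pool.Agent.H460U (X mu M2 L2 e Uni Bd An bl Vm ell ta tt TT DD)

noncomputable section

namespace SQKaux

theorem mp {N : ℕ} (hN : 0 < N) : MeasurePreserving (fun x : X => N • x) mu mu := by
  have h1 : (N : ℤ) ≠ 0 := by exact_mod_cast hN.ne'
  have h2 := Measure.measurePreserving_zsmul mu h1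
  have h3 : (fun x : X => (N : ℤ) • x) = fun x : X => N • x := by
    funext x
    rw [natCast_zsmul]
  rwa [h3] at h2

theorem uni_comp {f : X → ℂ} (hf : Uni f) {N : ℕ} (hN : 0 < N) : Uni (fun x => f (N • x)) := by
  have h0 := (mp hN).quasiMeasurePreserving
  have h1 := hf.1.comp_quasiMeasurePreserving h0
  have h2 := h0.ae hf.2
  exact ⟨h1, h2⟩

theorem uni_mul {f g : X → ℂ} (hf : Uni f) (hg : Uni g) : Uni (fun x => f x * g x) := by
  refine ⟨hf.1.mul hg.1, ?_⟩
  filter_upwards [hf.2, hg.2] with x h1 h2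
  rw [norm_mul, h1, h2, one_mul]

end SQKaux

open SQKaux

theorem t_SQK (h1 : S_TQU) (h2 : S_SQ) : S_SQK := by
  intro n m N c hN hc k
  induction k with
  | zero =>
    refine ⟨⟨aestronglyMeasurable_const, ?_⟩, 1, norm_one, ?_⟩
    · exact Eventually.of_forall fun x => norm_one
    · refine Eventually.of_forall fun x => ?_
      change (1 : ℂ) ^ 2 = 1 * 1
      norm_num
  | succ k ih =>
    obtain ⟨hU, d, hd, hd2⟩ := ih
    obtain ⟨d', hd', hd2'⟩ := h2 (n k) (m k) (c k) (hc k)
    refine ⟨uni_mul (uni_comp (h1 (n k) (m k) (c k) (hc k)) (hN k)) hU, d' * d, ?_, ?_⟩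
    · rw [norm_mul, hd, hd', one_mul]
    · have h3 := (mp (hN k)).quasiMeasurePreserving.ae hd2'
      filter_upwards [h3, hd2] with x h4 h5
      change (tq (n k) (m k) (c k) (N k • x) * TQ n m N c k x) ^ 2 =
        d' * d * (tt (n k + m k) (N k • x) * TT (fun j => n j + m j) N k x)
      rw [mul_pow, h4, h5]
      ring

end

end Pool.Agent.H875A
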