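import Pool.Agent.H875A.AR.Defs
import Pool.Agent.H460U.TR.STEP

/-! STEP2: the representation of `T_{k+1} φ`, with the square of `D_k`. -/

set_option autoImplicit false

open MeasureTheory Complex Filter
open scoped ComplexConjugate Matrix Topology InnerProductSpace

namespace Pool.Agent.H875A

open Pool.Agent.H460U (X mu M2 L2 e Uni Bd An bl Vm ell ta tt TT DD)
open Pool.Agent.H460U (S_H1 S_H4 S_TD S_RED S_K1 S_K2 S_DIV S_E6)
open Pool.Agent.H460U (STEP_norm_e STEP_cont_e STEP_e_add STEP_e_add' STEP_e_nsmul STEP_e_pow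
  STEP_mp STEP_ta STEP_div STEP_Uni_cont STEP_Uni_mul STEP_Uni_conj STEP_Uni_comp STEP_Uni_const
  STEP_Uni_memLp STEP_Uni_pow STEP_Uni_prod STEP_An_congr STEP_Bd_cont STEP_An_poly STEP_den
  STEP_bl STEP_DD STEP_alg STEP_An_pow)

namespace STEP2aux

/-- the growth condition bounds the degree -/
theorem growth2 (ν N : ℕ → ℕ) (hP : ParS ν N) (k : ℕ) :
    ∑ j ∈ Finset.range k, 2 * 5 ^ (ν j) * N j < N k := by
  have h := hP.growth k
  have hp := hP.pos k
  have h1 : ∑ j ∈ Finset.range k, 5 ^ (ν j) * N j * 60 =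
      30 * ∑ j ∈ Finset.range k, 2 * 5 ^ (ν j) * N j := by
    rw [Finset.mul_sum]
    exact Finset.sum_congr rfl fun j _ => by ring
  rw [h1] at h
  have h2 : 1 ≤ 2 ^ k := Nat.one_le_two_pow
  nlinarith [Nat.zero_le (∑ j ∈ Finset.range k, 2 * 5 ^ (ν j) * N j)]

/-- the square of `DD` -/
theorem DDsq (ν N : ℕ → ℕ) (k : ℕ) (x : X) :
    DD ν N k x ^ 2 = ∏ j ∈ Finset.range k, bl (N j • x) ^ (2 * 5 ^ (ν j)) := by
  rw [STEP_DD, ← Finset.prod_pow]
  refine Finset.prod_congr rfl fun j _ => ?_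
  rw [← pow_mul, mul_comm]

theorem theta2 (ν N : ℕ → ℕ) (hP : ParS ν N) (h1 : S_H1) (h4 : S_H4) (hRED : S_RED) (φ : X → ℂ) (_hφ : Uni φ) (hInv : Inv2 ν N φ) (k : ℕ) (s : ℤ) (Ψ : X → ℂ)
    (hΨ : Uni Ψ) (i : ℕ → ℕ) (hi : ∀ j, i j ≤ 2 * 5 ^ (ν j))
    (hrep : ∀ᵐ x ∂mu, TT ν N (k + 1) x * φ x =
      e s x * Ψ (N k • x) * ∏ j ∈ Finset.range k, bl (N j • x) ^ (i j))
    (ω g : X) (hg : N k • g = ω) (hg0 : N (k + 1) • g = 0) :
    An (fun y => bl y ^ (2 * 5 ^ (ν k)) * Ψ (y + ω) * conj (Ψ y)) := by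
  have hbu : Uni bl := STEP_Uni_cont h4.1 h4.2.1
  have hNk : 0 < N k := hP.pos k
  have hA := hInv (k + 1) g hg0
  have hΘ : Uni (fun y => bl y ^ (2 * 5 ^ (ν k)) * Ψ (y + ω) * conj (Ψ y)) :=
    STEP_Uni_mul (STEP_Uni_mul (STEP_Uni_pow hbu _) (STEP_Uni_comp hΨ (STEP_ta ω)))
      (STEP_Uni_conj hΨ)
  set Θ : X → ℂ := fun y => bl y ^ (2 * 5 ^ (ν k)) * Ψ (y + ω) * conj (Ψ y) with hΘdef
  set F : X → ℂ := fun x => e s g * Θ (N k • x) * ∏ j ∈ Finset.range k,
    (bl (N j • x) ^ (2 * 5 ^ (ν j) - i j) * bl (N j • x + N j • g) ^ (i j)) with hFdef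
  have hFu : Uni F := by
    refine STEP_Uni_mul (STEP_Uni_mul (STEP_Uni_const (STEP_norm_e s g))
      (STEP_Uni_comp hΘ (STEP_mp (N k) hNk))) (STEP_Uni_prod _ _ fun j _ => ?_)
    refine STEP_Uni_mul (STEP_Uni_pow (STEP_Uni_comp hbu (STEP_mp (N j) (hP.pos j))) _)
      (STEP_Uni_pow (f := fun x => bl (N j • x + N j • g)) ?_ _)
    exact STEP_Uni_comp (STEP_Uni_comp hbu (STEP_ta (N j • g))) (STEP_mp (N j) (hP.pos j))
  have hAF : ∀ᵐ x ∂mu, DD ν N (k + 1) x ^ 2 * (TT ν N (k + 1) (x + g) * φ (x + g)) *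
      conj (TT ν N (k + 1) x * φ x) = F x := by
    have hr2 := (STEP_ta g).quasiMeasurePreserving.ae (p := fun y => TT ν N (k + 1) y * φ y =
      e s y * Ψ (N k • y) * ∏ j ∈ Finset.range k, bl (N j • y) ^ (i j)) hrep
    filter_upwards [hrep, hr2] with x hx hx2
    rw [hx, hx2, DDsq, Finset.prod_range_succ, hFdef]
    simp only [hΘdef]
    rw [smul_add, hg, STEP_e_add, map_mul, map_mul, map_prod]
    have e2 : e s x * conj (e s x) = 1 := by
      rw [Complex.mul_conj, Complex.normSq_eq_norm_sq, STEP_norm_e]; norm_num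
    have e3 : (∏ j ∈ Finset.range k, bl (N j • x) ^ (2 * 5 ^ (ν j))) *
        (∏ j ∈ Finset.range k, bl (N j • (x + g)) ^ (i j)) *
        (∏ j ∈ Finset.range k, conj (bl (N j • x) ^ (i j))) =
        ∏ j ∈ Finset.range k,
          (bl (N j • x) ^ (2 * 5 ^ (ν j) - i j) * bl (N j • x + N j • g) ^ (i j)) := by
      rw [← Finset.prod_mul_distrib, ← Finset.prod_mul_distrib]
      refine Finset.prod_congr rfl fun j _ => ?_
      rw [← STEP_alg (bl (N j • x)) (h4.2.1 _) _ _ (hi j), smul_add]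
      ring
    rw [← e3]
    linear_combination (e s g * (∏ j ∈ Finset.range k, bl (N j • x) ^ (2 * 5 ^ (ν j))) *
      bl (N k • x) ^ (2 * 5 ^ (ν k)) * Ψ (N k • x + ω) *
      (∏ j ∈ Finset.range k, bl (N j • (x + g)) ^ (i j)) * conj (Ψ (N k • x)) *
      (∏ j ∈ Finset.range k, conj (bl (N j • x) ^ (i j)))) * e2
  have hAnF : An F := STEP_An_congr hAF hA
  -- the polynomials
  set c : ℕ → ℂ := fun j => e 1 (N j • g) with hc
  set p : Polynomial ℂ := ∏ j ∈ Finset.range k,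
    ((Polynomial.X ^ (N j) - Polynomial.C (1 / 2)) ^ (2 * 5 ^ (ν j) - i j) *
      (Polynomial.C (c j) * Polynomial.X ^ (N j) - Polynomial.C (1 / 2)) ^ (i j)) with hp
  set q : Polynomial ℂ := ∏ j ∈ Finset.range k,
    ((1 - Polynomial.C (1 / 2) * Polynomial.X ^ (N j)) ^ (2 * 5 ^ (ν j) - i j) *
      (1 - Polynomial.C (1 / 2 * c j) * Polynomial.X ^ (N j)) ^ (i j)) with hq
  have hFq : ∀ x, F x * q.eval (e 1 x) = e s g * (Θ (N k • x) * p.eval (e 1 x)) := by
    intro x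
    rw [hFdef]
    simp only []
    rw [hq, hp, Polynomial.eval_prod, Polynomial.eval_prod]
    have e4 : (∏ j ∈ Finset.range k,
        (bl (N j • x) ^ (2 * 5 ^ (ν j) - i j) * bl (N j • x + N j • g) ^ (i j))) *
        (∏ j ∈ Finset.range k, Polynomial.eval (e 1 x)
          ((1 - Polynomial.C (1 / 2) * Polynomial.X ^ (N j)) ^ (2 * 5 ^ (ν j) - i j) *
      (1 - Polynomial.C (1 / 2 * c j) * Polynomial.X ^ (N j)) ^ (i j))) =
        ∏ j ∈ Finset.range k, Polynomial.eval (e 1 x)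
          ((Polynomial.X ^ (N j) - Polynomial.C (1 / 2)) ^ (2 * 5 ^ (ν j) - i j) *
      (Polynomial.C (c j) * Polynomial.X ^ (N j) - Polynomial.C (1 / 2)) ^ (i j)) := by
      rw [← Finset.prod_mul_distrib]
      refine Finset.prod_congr rfl fun j _ => ?_
      simp only [Polynomial.eval_mul, Polynomial.eval_pow, Polynomial.eval_sub,
        Polynomial.eval_one, Polynomial.eval_C, Polynomial.eval_X]
      have b1 := STEP_bl (N j • x)
      have b2 := STEP_bl (N j • x + N j • g)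
      rw [STEP_e_pow] at b1
      rw [STEP_e_add, STEP_e_pow (N j) x] at b2
      have b3 : bl (N j • x + N j • g) * (1 - 1 / 2 * c j * e 1 x ^ N j) =
          c j * e 1 x ^ N j - 1 / 2 := by
        rw [hc]
        linear_combination b2
      rw [← b1, ← b3, mul_pow, mul_pow]
      ring
    rw [← e4]
    ring
  have hAn1 : An (fun x => F x * q.eval (e 1 x)) := by
    refine (h1 F _ (STEP_Uni_memLp hFu) hAnF (STEP_Bd_cont ?_) (STEP_An_poly q)).2
    exact q.continuous.comp (STEP_cont_e 1)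
  have hAn2 : An (fun x => Θ (N k • x) * p.eval (e 1 x)) := by
    intro n hn
    have h5 := hAn1 n hn
    have h6 : (fun x => F x * q.eval (e 1 x)) =
        fun x => e s g * (Θ (N k • x) * p.eval (e 1 x)) := funext hFq
    rw [h6, fourierCoeff.const_mul] at h5
    rcases mul_eq_zero.1 h5 with h | h
    · exfalso
      have := STEP_norm_e s g
      rw [h, norm_zero] at this
      norm_num at this
    · exact h
  refine hRED Θ (N k) p hΘ hNk ?_ ?_ hAn2
  · refine lt_of_le_of_lt ?_ (growth2 ν N hP k)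
    rw [hp]
    refine le_trans (Polynomial.natDegree_prod_le _ _) (Finset.sum_le_sum fun j _ => ?_)
    refine le_trans Polynomial.natDegree_mul_le ?_
    have d1 : (Polynomial.X ^ (N j) - Polynomial.C (1 / 2) : Polynomial ℂ).natDegree ≤ N j := by
      refine le_trans (Polynomial.natDegree_sub_le _ _) ?_
      simp
    have d2 : (Polynomial.C (c j) * Polynomial.X ^ (N j) - Polynomial.C (1 / 2) :
        Polynomial ℂ).natDegree ≤ N j := by
      refine le_trans (Polynomial.natDegree_sub_le _ _) ?_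
      refine max_le (Polynomial.natDegree_C_mul_X_pow_le _ _) ?_
      simp
    have d3 := Polynomial.natDegree_pow_le (p := (Polynomial.X ^ (N j) - Polynomial.C (1 / 2) :
      Polynomial ℂ)) (n := 2 * 5 ^ (ν j) - i j)
    have d4 := Polynomial.natDegree_pow_le (p := (Polynomial.C (c j) * Polynomial.X ^ (N j) -
      Polynomial.C (1 / 2) : Polynomial ℂ)) (n := i j)
    have d5 : (2 * 5 ^ (ν j) - i j) * N j + i j * N j = 2 * 5 ^ (ν j) * N j := by
      rw [← add_mul, Nat.sub_add_cancel (hi j)]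
    calc _ ≤ (2 * 5 ^ (ν j) - i j) * N j + i j * N j :=
          add_le_add (le_trans d3 (Nat.mul_le_mul_left _ d1))
            (le_trans d4 (Nat.mul_le_mul_left _ d2))
      _ = _ := d5
  · rw [Polynomial.coeff_zero_eq_eval_zero, hp, Polynomial.eval_prod]
    refine Finset.prod_ne_zero_iff.2 fun j _ => ?_
    have hNj : N j ≠ 0 := (hP.pos j).ne'
    simp only [Polynomial.eval_mul, Polynomial.eval_pow, Polynomial.eval_sub,
        Polynomial.eval_C, Polynomial.eval_X]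
    rw [zero_pow hNj]
    refine mul_ne_zero (pow_ne_zero _ (by norm_num)) (pow_ne_zero _ ?_)
    rw [mul_zero]
    norm_num

end STEP2aux

open STEP2aux

theorem t_STEP2 (hK1 : S_K1) (hK2 : S_K2) (hDIV : S_DIV) (hRED : S_RED) (h1 : S_H1)
    (h4 : S_H4) (hE6 : S_E6) : S_STEP2 := by
  intro ν N hP φ hφ hInv k hRep
  obtain ⟨s, Ψ0, i, hΨ0, hi, hrep⟩ := hRep
  have hbu : Uni bl := STEP_Uni_cont h4.1 h4.2.1
  have hNk : 0 < N k := hP.pos k
  obtain ⟨q, hq⟩ := hP.dvd k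
  have hQpos : 0 < 2 * q := by
    rcases Nat.eq_zero_or_pos q with h | h
    · have := hP.pos (k + 1)
      rw [hq, h] at this
      omega
    · omega
  have hNQ : N (k + 1) = 2 * q * N k := by rw [hq]; ring
  set Ψ : X → ℂ := fun y => tt (ν k) y * Ψ0 y with hΨdef
  have hΨ : Uni Ψ := STEP_Uni_mul (hE6 (ν k)).1 hΨ0
  have hrep1 : ∀ᵐ x ∂mu, TT ν N (k + 1) x * φ x =
      e s x * Ψ (N k • x) * ∏ j ∈ Finset.range k, bl (N j • x) ^ (i j) := by
    filter_upwards [hrep] with x hx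
    rw [TT, hΨdef, mul_assoc, hx]
    ring
  have hAn : ∀ ω : X, (2 * q) • ω = 0 →
      An (fun y => bl y ^ (2 * 5 ^ (ν k)) * Ψ (y + ω) * conj (Ψ y)) := by
    intro ω hω
    obtain ⟨g, hg⟩ := STEP_div (N k) hNk ω
    refine theta2 ν N hP h1 h4 hRED φ hφ hInv k s Ψ hΨ i hi hrep1 ω g hg ?_
    rw [hNQ, mul_smul, hg, hω]
  obtain ⟨ψ, B, C, hψ, hB, hBA, hC, hCA, hBC, hΨψ, hcoc⟩ :=
    hK1 (fun y => bl y ^ (2 * 5 ^ (ν k))) Ψ (2 * q) hQpos (STEP_Uni_pow hbu _)
      (STEP_An_pow h1 h4 _) hΨ hAn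
  obtain ⟨σ, F, hF, hψF⟩ := hK2 ψ (2 * q) hQpos hψ hcoc
  obtain ⟨i', c, hi', hc, hBc⟩ := hDIV B C (2 * 5 ^ (ν k)) hB hBA hC hCA hBC
  refine ⟨s + σ * (N k : ℤ), fun y => c * F y, Function.update i k i',
    STEP_Uni_mul (STEP_Uni_const hc) hF, ?_, ?_⟩
  · intro j
    by_cases hj : j = k
    · subst hj; rw [Function.update_self]; exact hi'
    · rw [Function.update_of_ne hj]; exact hi j
  · have hall : ∀ᵐ y ∂mu, Ψ y = e σ y * F ((2 * q) • y) * (c * bl y ^ i') := by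
      filter_upwards [hΨψ, hψF, hBc] with y a1 a2 a3
      rw [a1, a2, a3]
    have hall2 := (STEP_mp (N k) hNk).quasiMeasurePreserving.ae
      (p := fun y => Ψ y = e σ y * F ((2 * q) • y) * (c * bl y ^ i')) hall
    filter_upwards [hrep1, hall2] with x a1 a2
    have e6 : N (k + 1) • x = (2 * q) • (N k • x) := by rw [hNQ, mul_smul]
    rw [a1, a2, Finset.prod_range_succ, Function.update_self, STEP_e_add', STEP_e_nsmul, e6]
    have e5 : ∏ j ∈ Finset.range k, bl (N j • x) ^ (Function.update i k i' j) =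
        ∏ j ∈ Finset.range k, bl (N j • x) ^ (i j) := by
      refine Finset.prod_congr rfl fun j hj => ?_
      rw [Function.update_of_ne (Finset.mem_range.1 hj).ne]
    rw [e5]
    ring


end Pool.Agent.H875A
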