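import Pool.Agent.H875A.AR.Defs

/-! Project AR, task TQU (helper940). -/

set_option autoImplicit false

open MeasureTheory Complex Filter
open scoped ComplexConjugate Matrix Topology InnerProductSpace

namespace Pool.Agent.H875A

open Pool.Agent.H460U (X mu M2 L2 e Uni Bd An bl Vm ell ta tt TT DD)

namespace TQUaux

theorem cont_ell (n : ℕ) : Continuous (fun ξ : ℂ => ell n ξ) := by
  induction n with
  | zero =>
    refine continuous_matrix fun i j => ?_
    fin_cases i <;> fin_cases j
    · show Continuous (fun ξ : ℂ => (1 + ξ) / 2)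
      fun_prop
    · show Continuous (fun ξ : ℂ => (1 - ξ) / 2)
      fun_prop
    · show Continuous (fun ξ : ℂ => (1 - ξ) / 2)
      fun_prop
    · show Continuous (fun ξ : ℂ => (1 + ξ) / 2)
      fun_prop
  | succ n ih =>
    show Continuous (fun ξ : ℂ => (Vm * ell n ξ * Vmᵀ) * (Vmᵀ * ell n ξ * Vm) * ell n ξ *
      (Vmᵀ * ell n ξ * Vm) * (Vm * ell n ξ * Vmᵀ))
    have h1 : Continuous (fun ξ : ℂ => Vm * ell n ξ * Vmᵀ) :=
      (continuous_const.matrix_mul ih).matrix_mul continuous_const
    have h2 : Continuous (fun ξ : ℂ => Vmᵀ * ell n ξ * Vm) :=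
      (continuous_const.matrix_mul ih).matrix_mul continuous_const
    exact (((h1.matrix_mul h2).matrix_mul ih).matrix_mul h2).matrix_mul h1

theorem cont_ta (n : ℕ) : Continuous (fun ξ : ℂ => ta n ξ) := by
  unfold ta
  have h := cont_ell n
  have h0 : Continuous (fun ξ : ℂ => ell n ξ 0 0) := h.matrix_elem 0 0
  have h1 : Continuous (fun ξ : ℂ => ell n ξ 1 1) := h.matrix_elem 1 1
  exact (h0.add h1).div_const 2

open Classical in
theorem meas_F (m : ℕ) : Measurable (fun z : ℂ =>
    if ta m z = 0 then (1 : ℂ) else ta m z / ((‖ta m z‖ : ℝ) : ℂ)) := by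
  have h := (cont_ta m).measurable
  refine Measurable.ite (h (measurableSet_singleton 0)) measurable_const ?_
  exact h.div (Complex.measurable_ofReal.comp h.norm)

end TQUaux

open TQUaux in
theorem t_TQU (h : Pool.Agent.H460U.S_E6) : S_TQU := by
  intro n m c _
  constructor
  · have h1 : AEMeasurable (tt n) mu := (h n).1.1.aemeasurable
    have h2 : AEMeasurable (fun x => c * tt n x) mu := h1.const_mul c
    have h3 : AEMeasurable (tq n m c) mu := by
      have h4 := (meas_F m).comp_aemeasurable h2
      refine h4.congr (ae_of_all _ fun x => ?_)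
      unfold tq
      rfl
    exact h3.aestronglyMeasurable
  · refine ae_of_all _ fun x => ?_
    unfold tq
    split_ifs with h0
    · exact norm_one
    · rw [norm_div, Complex.norm_real, norm_norm]
      exact div_self (norm_ne_zero_iff.2 h0)

end Pool.Agent.H875A
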