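import Pool.Agent.H875A.AR.Defs

/-! Project AR, task TR4: transitivity (adapted from helper616's TRA of project TR). -/

set_option autoImplicit false

open MeasureTheory Complex Filter
open scoped ComplexConjugate Matrix Topology InnerProductSpace

namespace Pool.Agent.H875A

open Pool.Agent.H460U (X mu M2 L2 e Uni Bd An bl Vm ell ta tt TT DD)

noncomputable section

namespace TR4aux

lemma mp (g : X) : MeasurePreserving (fun x : X => x + g) mu mu :=
  measurePreserving_add_right mu g

lemma ae_shift {p : X → Prop} (g : X) (h : ∀ᵐ x ∂mu, p x) : ∀ᵐ x ∂mu, p (x + g) :=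
  (mp g).quasiMeasurePreserving.ae h

lemma uni_shift {f : X → ℂ} (hf : Uni f) (g : X) : Uni (fun x => f (x + g)) := by
  refine ⟨?_, ae_shift (p := fun x => ‖f x‖ = 1) g hf.2⟩
  have h := AEStronglyMeasurable.comp_measurePreserving hf.1 (mp g)
  exact h

lemma uni_e (n : ℤ) : Uni (e n) := by
  refine ⟨(map_continuous (fourier n)).aestronglyMeasurable, Eventually.of_forall fun x => ?_⟩
  change ‖(((n • x).toCircle : Circle) : ℂ)‖ = 1
  exact Circle.norm_coe _

lemma uni_wq (hTD : Pool.Agent.H460U.S_TD) (hSQK : S_SQK) {n m N : ℕ → ℕ} {c : ℕ → ℂ}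
    (hN : ∀ k, 0 < N k) (hc : ∀ k, ‖c k‖ = 1) (k : ℕ) (g : X) :
    Uni (wq n m N c k g) := by
  obtain ⟨-, hDc, hD1, -⟩ := hTD (fun j => n j + m j) N hN k
  have hT := (hSQK n m N c hN hc k).1
  have hT' := uni_shift hT g
  refine ⟨((hDc.aestronglyMeasurable).mul hT'.1).mul hT.1.inv₀, ?_⟩
  filter_upwards [hT.2, hT'.2] with x h1 h2
  simp only [wq, norm_mul, norm_inv, h1, hD1 x, h2]
  norm_num

lemma uni_memLp {f : X → ℂ} (hf : Uni f) : MemLp f 2 mu :=
  MemLp.of_bound hf.1 1 (hf.2.mono fun x hx => hx.le)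

lemma conj_of_norm {z : ℂ} (hz : ‖z‖ = 1) : z * conj z = 1 := by
  rw [Complex.mul_conj, Complex.normSq_eq_norm_sq, hz]
  norm_num

end TR4aux

open TR4aux in
theorem t_TR4 (hNO : S_NO2) (hSQK : S_SQK) (hAG : S_AG4) (hAU : S_AU4)
    (hBH1 : Pool.Agent.H460U.S_BH1) (hBH2 : Pool.Agent.H460U.S_BH2)
    (hERG : Pool.Agent.H460U.S_ERG) (hOP : Pool.Agent.H460U.S_OP)
    (hTD : Pool.Agent.H460U.S_TD) (hH1 : Pool.Agent.H460U.S_H1) : S_TR4 := by
  intro n m N c Φ hP hΦ M hMc hM
  have hmeas := hΦ.meas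
  have hunit := hΦ.unit
  -- the bilateral shift
  have hz : Pool.Agent.H460U.ZInv M 1 := by
    obtain ⟨A, hA⟩ := hOP (e 1) 0 (uni_e 1)
    have hA' : ∀ f : L2, (A f : X → ℂ) =ᵐ[mu] fun x => e 1 x * f x := by
      intro f
      refine (hA f).trans (Eventually.of_forall fun x => ?_)
      simp
    have hin := (hAU Φ hmeas hunit).1 A hA'
    intro f hf h hh
    have : h = A f := Lp.ext (hh.trans (hA' f).symm)
    rw [this]
    exact hM A hin f hf
  -- the rotations
  have hrot : ∀ (k : ℕ) (g : X), N k • g = 0 → ∀ f ∈ M, ∃ h ∈ M,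
      (h : X → ℂ) =ᵐ[mu] fun x => wq n m N c k g x * f (x + g) := by
    intro k g hg f hf
    obtain ⟨A, hA⟩ := hOP (wq n m N c k g) g (uni_wq hTD hSQK hP.scal.pos hP.unit k g)
    exact ⟨A f, hM A (hAG n m N c Φ hP hΦ k g hg A hA) f hf, hA f⟩
  by_cases hz' : Pool.Agent.H460U.ZInv M (-1)
  · -- doubly invariant
    obtain ⟨E, hE, hME⟩ := hBH1 M hMc hz hz'
    have hstep : ∀ (k : ℕ) (g : X), N k • g = 0 → ∀ᵐ x ∂mu, x + g ∈ E → x ∈ E := by
      intro k g hg
      set f : L2 := indicatorConstLp 2 hE (measure_ne_top mu E) (1 : ℂ) with hf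
      have hfE : (f : X → ℂ) =ᵐ[mu] E.indicator fun _ => (1 : ℂ) := indicatorConstLp_coeFn
      have hfM : f ∈ M := by
        rw [hME]
        filter_upwards [hfE] with x hx hxE
        rw [hx, Set.indicator_of_notMem hxE]
      obtain ⟨h, hhM, hh⟩ := hrot k g hg f hfM
      rw [hME] at hhM
      filter_upwards [hhM, hh, ae_shift g hfE,
        (uni_wq hTD hSQK hP.scal.pos hP.unit k g).2] with x h1 h2 h3 h4 h5
      by_contra hx
      have h6 := h1 hx
      rw [h2, h3, Set.indicator_of_mem h5, mul_one] at h6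
      rw [h6] at h4
      simp at h4
    have hiff : ∀ k (g : X), N k • g = 0 → ∀ᵐ x ∂mu, (x + g ∈ E ↔ x ∈ E) := by
      intro k g hg
      have h1 := hstep k g hg
      have h2 := hstep k (-g) (by rw [smul_neg, hg, neg_zero])
      have h3 := ae_shift g h2
      filter_upwards [h1, h3] with x h4 h5
      refine ⟨h4, fun h6 => h5 ?_⟩
      rwa [add_neg_cancel_right]
    rcases hERG N hP.scal.zero hP.scal.pos hP.scal.dvd E hE hiff with h0 | h0
    · left
      rw [Submodule.eq_bot_iff]
      intro f hf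
      rw [hME] at hf
      apply Lp.ext
      refine EventuallyEq.trans ?_ (Lp.coeFn_zero ℂ 2 mu).symm
      have h1 : ∀ᵐ x ∂mu, x ∉ E := by
        rw [ae_iff]
        simpa using h0
      filter_upwards [hf, h1] with x h2 h3
      exact h2 h3
    · right
      rw [Submodule.eq_top_iff']
      intro f
      rw [hME]
      have h1 : ∀ᵐ x ∂mu, x ∈ E := by
        rw [ae_iff]
        exact h0
      filter_upwards [h1] with x h2 h3
      exact absurd h2 h3
  · -- simply invariant
    exfalso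
    obtain ⟨φ, hφ, hMφ⟩ := hBH2 M hMc hz hz'
    have hφ2 : Uni (fun x => (φ x) ^ 2) := by
      refine ⟨hφ.1.pow 2, ?_⟩
      filter_upwards [hφ.2] with x hx
      rw [norm_pow, hx, one_pow]
    refine hNO (fun j => n j + m j) N hP.scal (fun x => (φ x) ^ 2) hφ2 ?_
    intro k g hg
    set f : L2 := (uni_memLp hφ).toLp φ with hf
    have hfe : (f : X → ℂ) =ᵐ[mu] φ := (uni_memLp hφ).coeFn_toLp
    have hfM : f ∈ M := by
      rw [hMφ]
      intro l hl
      have h1 : (fun x => conj (φ x) * f x) =ᵐ[mu] (fourier 0 : C(X, ℂ)) := by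
        filter_upwards [hfe, hφ.2] with x h2 h3
        rw [h2, fourier_zero, mul_comm, Complex.mul_conj, Complex.normSq_eq_norm_sq, h3]
        norm_num
      rw [fourierCoeff_congr_ae h1, fourierCoeff_fourier]
      exact Pi.single_eq_of_ne hl.ne _
    obtain ⟨h, hhM, hh⟩ := hrot k g hg f hfM
    rw [hMφ] at hhM
    -- the function `ψ = conj φ * w * φ(. + g)` and its square
    have hw := uni_wq hTD hSQK hP.scal.pos hP.unit (n := n) (m := m) k g
    have hφs := uni_shift hφ g
    have hψ : Uni (fun x => conj (φ x) * (wq n m N c k g x * φ (x + g))) := by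
      refine ⟨(Complex.continuous_conj.comp_aestronglyMeasurable hφ.1).mul (hw.1.mul hφs.1), ?_⟩
      filter_upwards [hφ.2, hw.2, hφs.2] with x h1 h2 h3
      rw [norm_mul, norm_mul, RCLike.norm_conj, h1, h2, h3]
      norm_num
    have hψA : An (fun x => conj (φ x) * (wq n m N c k g x * φ (x + g))) := by
      intro l hl
      rw [← hhM l hl]
      refine congrFun (fourierCoeff_congr_ae ?_) l
      filter_upwards [hh, ae_shift g hfe] with x h1 h2
      rw [h1, h2]
    have hψB : Bd (fun x => conj (φ x) * (wq n m N c k g x * φ (x + g))) :=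
      ⟨hψ.1, 1, hψ.2.mono fun x hx => hx.le⟩
    have hsq := (hH1 _ _ (uni_memLp hψ) hψA hψB hψA).2
    obtain ⟨hTQ, d, hd, hTQ2⟩ := hSQK n m N c hP.scal.pos hP.unit k
    obtain ⟨hTT, -⟩ := hTD (fun j => n j + m j) N hP.scal.pos k
    intro l hl
    rw [← hsq l hl]
    refine congrFun (fourierCoeff_congr_ae ?_) l
    filter_upwards [hTQ2, ae_shift g hTQ2, hTT.2, hTQ.2] with x h1 h2 h3 h4
    have hd0 : d ≠ 0 := by
      intro h0
      rw [h0, norm_zero] at hd
      exact zero_ne_one hd
    have hT0 : TT (fun j => n j + m j) N k x ≠ 0 := by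
      intro h0
      rw [h0, norm_zero] at h3
      exact zero_ne_one h3
    have hQ0 : TQ n m N c k x ≠ 0 := by
      intro h0
      rw [h0, norm_zero] at h4
      exact zero_ne_one h4
    have h5 : conj (TT (fun j => n j + m j) N k x) = (TT (fun j => n j + m j) N k x)⁻¹ :=
      eq_inv_of_mul_eq_one_right (conj_of_norm h3)
    have h6 : (wq n m N c k g x) ^ 2 = DD (fun j => n j + m j) N k x ^ 2 *
        TT (fun j => n j + m j) N k (x + g) * conj (TT (fun j => n j + m j) N k x) := by
      rw [h5]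
      unfold wq
      rw [mul_pow, mul_pow, inv_pow, h1, h2, mul_inv]
      field_simp
    have h7 : conj (φ x) * (wq n m N c k g x * φ (x + g)) *
        (conj (φ x) * (wq n m N c k g x * φ (x + g))) =
        (wq n m N c k g x) ^ 2 * φ (x + g) ^ 2 * conj (φ x) ^ 2 := by ring
    show DD (fun j => n j + m j) N k x ^ 2 * (TT (fun j => n j + m j) N k (x + g) *
        φ (x + g) ^ 2) * conj (TT (fun j => n j + m j) N k x * φ x ^ 2) = _
    rw [h7, h6, map_mul, map_pow]
    ring

end

end Pool.Agent.H875A
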