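import Pool.Agent.H875A.AR.Defs

/-! Project AR (helper875), task TWO (helper131): 2-transitivity. -/

set_option autoImplicit false

open MeasureTheory Complex Filter
open scoped ComplexConjugate Matrix Topology InnerProductSpace

namespace Pool.Agent.H875A

open Pool.Agent.H460U (X mu M2 L2 e Uni Bd An bl Vm ell ta tt TT DD)

noncomputable section

namespace TWOaux

lemma mp (g : X) : MeasurePreserving (fun x : X => x + g) mu mu :=
  measurePreserving_add_right mu g

lemma ae_shift {p : X → Prop} (g : X) (h : ∀ᵐ x ∂mu, p x) : ∀ᵐ x ∂mu, p (x + g) :=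
  (mp g).quasiMeasurePreserving.ae h

lemma uni_shift {f : X → ℂ} (hf : Uni f) (g : X) : Uni (fun x => f (x + g)) := by
  refine ⟨?_, ae_shift (p := fun x => ‖f x‖ = 1) g hf.2⟩
  have h := AEStronglyMeasurable.comp_measurePreserving hf.1 (mp g)
  exact h

lemma uni_e (n : ℤ) : Uni (e n) := by
  refine ⟨(map_continuous (fourier n)).aestronglyMeasurable, Eventually.of_forall fun x => ?_⟩
  change ‖(((n • x).toCircle : Circle) : ℂ)‖ = 1
  exact Circle.norm_coe _

lemma uni_wq (hSQK : S_SQK) (hTD : Pool.Agent.H460U.S_TD) {n m N : ℕ → ℕ} {c : ℕ → ℂ}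
    (hN : ∀ k, 0 < N k) (hc : ∀ k, ‖c k‖ = 1) (k : ℕ) (g : X) : Uni (wq n m N c k g) := by
  obtain ⟨-, hDc, hD1, -⟩ := hTD (fun j => n j + m j) N hN k
  have hT := (hSQK n m N c hN hc k).1
  have hT' := uni_shift hT g
  refine ⟨((hDc.aestronglyMeasurable).mul hT'.1).mul hT.1.inv₀, ?_⟩
  filter_upwards [hT.2, hT'.2] with x h1 h2
  simp only [wq, norm_mul, norm_inv, h1, hD1 x, h2]
  norm_num

/-- the proportional pairs in an invariant subspace -/
lemma key (hTR4 : S_TR4) {n m N : ℕ → ℕ} {c : ℕ → ℂ} {Φ : X → M4} (hP : Par4 n m N c)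
    (hΦ : IsPhi4 n m N c Φ) (M : Submodule ℂ (L2 × L2)) (hMc : IsClosed (M : Set (L2 × L2)))
    (hM : ∀ A : L2 →L[ℂ] L2, InA4 Φ A → ∀ p ∈ M, (A p.1, A p.2) ∈ M) (a b : ℂ) (v : L2)
    (hv : v ≠ 0) (h : (a • v, b • v) ∈ M) : ∀ u : L2, (a • u, b • u) ∈ M := by
  let L : L2 →L[ℂ] L2 × L2 :=
    (a • ContinuousLinearMap.id ℂ L2).prod (b • ContinuousLinearMap.id ℂ L2)
  have hL : ∀ u, L u = (a • u, b • u) := fun u => rfl
  let M' : Submodule ℂ L2 := M.comap (L : L2 →ₗ[ℂ] L2 × L2)
  have hmem : ∀ u, u ∈ M' ↔ (a • u, b • u) ∈ M := fun u => Iff.rfl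
  have hcl : IsClosed (M' : Set L2) := hMc.preimage L.continuous
  rcases hTR4 n m N c Φ hP hΦ M' hcl (by
    intro A hA u hu
    rw [hmem] at hu ⊢
    have h1 := hM A hA _ hu
    simpa only [map_smul] using h1) with h1 | h1
  · exfalso
    apply hv
    have : v ∈ M' := (hmem v).2 h
    rw [h1] at this
    exact (Submodule.mem_bot ℂ).1 this
  · intro u
    rw [← hmem, h1]
    exact Submodule.mem_top

end TWOaux

open TWOaux in
theorem t_TWO (hPAIR : S_PAIR) (hTR4 : S_TR4) (hAG4 : S_AG4) (hAU4 : S_AU4) (hSQK : S_SQK)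
    (hOP : Pool.Agent.H460U.S_OP) (hTD : Pool.Agent.H460U.S_TD) : S_TWO := by
  intro n m N c Φ hP hΦ M hMc hM B p hp
  have hmeas := hΦ.meas
  have hunit := hΦ.unit
  by_cases hbot : M = ⊥
  · subst hbot
    rw [Submodule.mem_bot] at hp ⊢
    rw [hp]
    simp
  -- the bilateral shift
  have hz : ZI M 1 := by
    obtain ⟨A, hA⟩ := hOP (e 1) 0 (uni_e 1)
    have hA' : ∀ f : L2, (A f : X → ℂ) =ᵐ[mu] fun x => e 1 x * f x := by
      intro f
      refine (hA f).trans (Eventually.of_forall fun x => ?_)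
      simp
    have hin := (hAU4 Φ hmeas hunit).1 A hA'
    intro q hq h h1 h2
    have e1 : h.1 = A q.1 := Lp.ext (h1.trans (hA' q.1).symm)
    have e2 : h.2 = A q.2 := Lp.ext (h2.trans (hA' q.2).symm)
    have e3 : h = (A q.1, A q.2) := Prod.ext e1 e2
    rw [e3]
    exact hM A hin q hq
  -- the rotations
  have hrot : RotInv N (wq n m N c) M := by
    intro k g hg q hq h h1 h2
    obtain ⟨A, hA⟩ := hOP (wq n m N c k g) g (uni_wq hSQK hTD hP.scal.pos hP.unit k g)
    have e1 : h.1 = A q.1 := Lp.ext (h1.trans (hA q.1).symm)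
    have e2 : h.2 = A q.2 := Lp.ext (h2.trans (hA q.2).symm)
    have e3 : h = (A q.1, A q.2) := Prod.ext e1 e2
    rw [e3]
    exact hM A (hAG4 n m N c Φ hP hΦ k g hg A hA) q hq
  obtain ⟨α, β, f, hαβ, hf, hfM⟩ := hPAIR n m N c hP M hMc hz hrot hbot
  have hall := key hTR4 hP hΦ M hMc hM α β f hf hfM
  by_cases hprop : ∀ q ∈ M, β • q.1 = α • q.2
  · have h1 := hprop p hp
    by_cases hα : α = 0
    · have hβ : β ≠ 0 := by
        rcases hαβ with h | h
        · exact absurd hα h
        · exact h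
      rw [hα, zero_smul, smul_eq_zero] at h1
      have h2 : p.1 = 0 := h1.resolve_left hβ
      have h3 := hall (β⁻¹ • B p.2)
      rw [hα, zero_smul, smul_smul, mul_inv_cancel₀ hβ, one_smul] at h3
      rw [h2, map_zero]
      exact h3
    · have h3 := hall (α⁻¹ • B p.1)
      rw [smul_smul, mul_inv_cancel₀ hα, one_smul, smul_comm, ← map_smul, h1, ← map_smul,
        smul_smul, inv_mul_cancel₀ hα, one_smul] at h3
      exact h3
  · push Not at hprop
    obtain ⟨q, hq, hne⟩ := hprop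
    by_cases hα : α = 0
    · have hβ : β ≠ 0 := by
        rcases hαβ with h | h
        · exact absurd hα h
        · exact h
      have h1 : q.1 ≠ 0 := by
        intro h
        apply hne
        rw [h, hα, smul_zero, zero_smul]
      have h2 : ((1 : ℂ) • q.1, (0 : ℂ) • q.1) ∈ M := by
        have h3 := hall (β⁻¹ • q.2)
        rw [hα, zero_smul, smul_smul, mul_inv_cancel₀ hβ, one_smul] at h3
        have h4 := M.sub_mem hq h3
        have h5 : q - (0, q.2) = ((1 : ℂ) • q.1, (0 : ℂ) • q.1) := by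
          ext1
          · simp
          · simp
        rw [h5] at h4
        exact h4
      have h3 := key hTR4 hP hΦ M hMc hM 1 0 q.1 h1 h2 (B p.1)
      have h4 := hall (β⁻¹ • B p.2)
      rw [hα, zero_smul, smul_smul, mul_inv_cancel₀ hβ, one_smul] at h4
      have h5 := M.add_mem h3 h4
      rw [one_smul, zero_smul, Prod.mk_add_mk, add_zero, zero_add] at h5
      exact h5
    · have h1 : q.2 - β • (α⁻¹ • q.1) ≠ 0 := by
        intro h
        apply hne
        rw [sub_eq_zero] at h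
        rw [h, smul_comm α β, smul_smul α, mul_inv_cancel₀ hα, one_smul]
      have h2 : ((0 : ℂ) • (q.2 - β • (α⁻¹ • q.1)), (1 : ℂ) • (q.2 - β • (α⁻¹ • q.1))) ∈ M := by
        have h3 := hall (α⁻¹ • q.1)
        rw [smul_smul, mul_inv_cancel₀ hα, one_smul] at h3
        have h4 := M.sub_mem hq h3
        have h5 : q - (q.1, β • (α⁻¹ • q.1)) = ((0 : ℂ) • (q.2 - β • (α⁻¹ • q.1)),
            (1 : ℂ) • (q.2 - β • (α⁻¹ • q.1))) := by
          ext1
          · simp
          · simp
        rw [h5] at h4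
        exact h4
      have h3 := key hTR4 hP hΦ M hMc hM 0 1 _ h1 h2 (B p.2 - β • (α⁻¹ • B p.1))
      have h4 := hall (α⁻¹ • B p.1)
      rw [smul_smul, mul_inv_cancel₀ hα, one_smul] at h4
      have h5 := M.add_mem h3 h4
      rw [one_smul, zero_smul, Prod.mk_add_mk, zero_add, sub_add_cancel] at h5
      exact h5

end

end Pool.Agent.H875A
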