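import Mathlib
import Pool.Agent.H875A.AR.Defs

/-! Task W (helper483) of project AR: Wold trichotomy. -/

set_option autoImplicit false

open MeasureTheory Complex Filter
open scoped ComplexConjugate Matrix Topology InnerProductSpace

namespace Pool.Agent.H875A

open Pool.Agent.H460U (X mu M2 L2 e Uni Bd An bl Vm ell ta tt TT DD)

noncomputable section

namespace Waux

theorem norm_e (n : ℤ) (x : X) : ‖e n x‖ = 1 := by
  unfold Pool.Agent.H460U.e
  rw [fourier_apply]
  exact Circle.norm_coe _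

theorem cont_e (n : ℤ) : Continuous (e n) := by
  unfold Pool.Agent.H460U.e
  exact (fourier n).continuous

theorem e_add (m n : ℤ) (x : X) : e (m + n) x = e m x * e n x := by
  unfold Pool.Agent.H460U.e
  exact fourier_add

theorem e_zero (x : X) : e 0 x = 1 := by
  unfold Pool.Agent.H460U.e
  exact fourier_zero

theorem mem (n : ℤ) (f : L2) : MemLp (fun x => e n x * f x) 2 mu := by
  refine (Lp.memLp f).of_le ((cont_e n).aestronglyMeasurable.mul (Lp.aestronglyMeasurable f)) ?_
  filter_upwards with x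
  rw [norm_mul, norm_e, one_mul]

/-- multiplication by `e n` -/
def me (n : ℤ) : L2 →ₗᵢ[ℂ] L2 where
  toFun f := (mem n f).toLp _
  map_add' f g := by
    rw [← MemLp.toLp_add (mem n f) (mem n g)]
    apply MemLp.toLp_congr
    filter_upwards [Lp.coeFn_add f g] with x hx
    simp only [hx, Pi.add_apply, mul_add]
  map_smul' c f := by
    rw [RingHom.id_apply, ← MemLp.toLp_const_smul c (mem n f)]
    apply MemLp.toLp_congr
    filter_upwards [Lp.coeFn_smul c f] with x hx
    simp only [hx, Pi.smul_apply, smul_eq_mul]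
    ring
  norm_map' f := by
    show ‖(mem n f).toLp _‖ = ‖f‖
    rw [Lp.norm_toLp, Lp.norm_def]
    congr 1
    apply eLpNorm_congr_norm_ae
    filter_upwards with x
    rw [norm_mul, norm_e, one_mul]

theorem me_coe (n : ℤ) (f : L2) : (me n f : X → ℂ) =ᵐ[mu] fun x => e n x * f x :=
  MemLp.coeFn_toLp (mem n f)

theorem me_iff (n : ℤ) (f h : L2) : ((h : X → ℂ) =ᵐ[mu] fun x => e n x * f x) ↔ h = me n f := by
  constructor
  · intro hh
    exact Lp.ext (hh.trans (me_coe n f).symm)
  · rintro rfl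
    exact me_coe n f

theorem me_me (m n : ℤ) (f : L2) : me m (me n f) = me (m + n) f := by
  apply Lp.ext
  filter_upwards [me_coe m (me n f), me_coe n f, me_coe (m + n) f] with x h1 h2 h3
  rw [h1, h2, h3, e_add]
  ring

theorem me_zero (f : L2) : me 0 f = f := by
  apply Lp.ext
  filter_upwards [me_coe 0 f] with x h1
  rw [h1, e_zero, one_mul]

/-- multiplication on pairs -/
def mm (n : ℤ) : L2 × L2 →L[ℂ] L2 × L2 :=
  ((me n).toContinuousLinearMap).prodMap ((me n).toContinuousLinearMap)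

theorem mm_apply (n : ℤ) (p : L2 × L2) : mm n p = (me n p.1, me n p.2) := rfl

theorem mm_mm (m n : ℤ) (p : L2 × L2) : mm m (mm n p) = mm (m + n) p := by
  simp only [mm_apply, me_me]

theorem mm_zero (p : L2 × L2) : mm 0 p = p := by
  simp only [mm_apply, me_zero]

theorem zi_iff (M : Submodule ℂ (L2 × L2)) (n : ℤ) : ZI M n ↔ ∀ p ∈ M, mm n p ∈ M := by
  constructor
  · intro h p hp
    exact h p hp (mm n p) (me_coe n p.1) (me_coe n p.2)
  · intro h p hp q h1 h2
    have e1 := (me_iff n p.1 q.1).1 h1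
    have e2 := (me_iff n p.2 q.2).1 h2
    have : q = mm n p := Prod.ext e1 e2
    rw [this]
    exact h p hp

theorem all_iff (M : Submodule ℂ (L2 × L2)) (p : L2 × L2) :
    (∀ (k : ℕ) (h : L2 × L2),
      (h.1 : X → ℂ) =ᵐ[mu] (fun x => e (-(k : ℤ)) x * p.1 x) →
      (h.2 : X → ℂ) =ᵐ[mu] (fun x => e (-(k : ℤ)) x * p.2 x) → h ∈ M) ↔
    ∀ k : ℕ, mm (-(k : ℤ)) p ∈ M := by
  constructor
  · intro h k
    exact h k (mm (-(k : ℤ)) p) (me_coe _ p.1) (me_coe _ p.2)
  · intro h k q h1 h2
    have e1 := (me_iff _ p.1 q.1).1 h1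
    have e2 := (me_iff _ p.2 q.2).1 h2
    have : q = mm (-(k : ℤ)) p := Prod.ext e1 e2
    rw [this]
    exact h k

/-- the reducing part -/
def RR (M : Submodule ℂ (L2 × L2)) : Submodule ℂ (L2 × L2) :=
  ⨅ k : ℕ, M.comap (mm (-(k : ℤ)) : L2 × L2 →ₗ[ℂ] L2 × L2)

theorem mem_RR (M : Submodule ℂ (L2 × L2)) (p : L2 × L2) :
    p ∈ RR M ↔ ∀ k : ℕ, mm (-(k : ℤ)) p ∈ M := by
  unfold RR
  rw [Submodule.mem_iInf]
  rfl

end Waux

open Waux

theorem t_W (h1 : S_W1) (h2 : S_W2) : S_W := by
  intro M hcl hz hM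
  have hz' := (zi_iff M 1).1 hz
  by_cases hR : RR M = ⊥
  · right
    have hnz : ¬ ZI M (-1) := by
      intro hm
      have hm' := (zi_iff M (-1)).1 hm
      apply hM
      rw [eq_bot_iff, ← hR]
      intro p hp
      rw [mem_RR]
      intro k
      induction k with
      | zero => simpa [mm_zero] using hp
      | succ k ih =>
        have h3 := hm' _ ih
        rw [mm_mm] at h3
        have : (-1 : ℤ) + -(k : ℤ) = -((k + 1 : ℕ) : ℤ) := by push_cast; ring
        rwa [this] at h3
    obtain ⟨Θ, hΘ⟩ := h1 M hcl hz hnz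
    by_cases hex : ∃ Θ' : L2 × L2, Wand M Θ' ∧
        ∀ᵐ x ∂mu, conj (Θ.1 x) * Θ'.1 x + conj (Θ.2 x) * Θ'.2 x = 0
    · right
      obtain ⟨Θ', h3, h4⟩ := hex
      exact ⟨Θ, Θ', hΘ, h3, h4⟩
    · left
      refine ⟨Θ, hΘ, h2 M hcl hz ?_ Θ hΘ ?_⟩
      · intro p hp
        have h3 : p ∈ RR M := (mem_RR M p).2 ((all_iff M p).1 hp)
        rw [hR] at h3
        exact (Submodule.mem_bot ℂ).1 h3
      · intro Θ' h3 h4
        exact hex ⟨Θ', h3, h4⟩
  · left
    refine ⟨RR M, ?_, hR, ?_, ?_, ?_⟩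
    · have : (RR M : Set (L2 × L2)) = ⋂ k : ℕ, (mm (-(k : ℤ))) ⁻¹' (M : Set (L2 × L2)) := by
        ext p
        simp only [SetLike.mem_coe, mem_RR, Set.mem_iInter, Set.mem_preimage]
      rw [this]
      exact isClosed_iInter fun k => hcl.preimage (mm (-(k : ℤ))).continuous
    · rw [zi_iff]
      intro p hp
      rw [mem_RR] at hp ⊢
      intro k
      rw [mm_mm]
      cases k with
      | zero =>
        have h3 := hp 0
        simp only [Nat.cast_zero, neg_zero, mm_zero] at h3
        have h4 := hz' p h3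
        simpa using h4
      | succ k =>
        have h3 := hp k
        have : -((k + 1 : ℕ) : ℤ) + 1 = -(k : ℤ) := by push_cast; ring
        rwa [this]
    · rw [zi_iff]
      intro p hp
      rw [mem_RR] at hp ⊢
      intro k
      rw [mm_mm]
      have h3 := hp (k + 1)
      have : -(k : ℤ) + -1 = -((k + 1 : ℕ) : ℤ) := by push_cast; ring
      rwa [this]
    · intro p
      rw [mem_RR, all_iff]

end

end Pool.Agent.H875A
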