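import Pool.Agent.H875A.AR.Defs

/-! W1: a non-reducing closed invariant subspace of `L² ⊕ L²` has a wandering vector.
The lemmas on uniqueness of Fourier coefficients of integrable functions are copied from
`Pool.Agent.H460U.TR.BH1`. -/

set_option autoImplicit false

open MeasureTheory Complex Filter
open scoped ComplexConjugate Matrix Topology InnerProductSpace ENNReal BoundedContinuousFunction

namespace Pool.Agent.H875A

open Pool.Agent.H460U (X mu M2 L2 e Uni Bd An bl Vm ell ta tt TT DD)

namespace W1aux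

/-- a real integrable function annihilating all continuous functions vanishes -/
lemma real_ae_zero {u : X → ℝ} (hu : Integrable u mu)
    (h : ∀ f : X →ᵇ ℝ, ∫ t, f t * u t ∂mu = 0) : u =ᵐ[mu] 0 := by
  let a : X → ℝ≥0∞ := fun t => ENNReal.ofReal (u t)
  let b : X → ℝ≥0∞ := fun t => ENNReal.ofReal (-u t)
  have ha : AEMeasurable a mu := hu.aemeasurable.ennreal_ofReal
  have hb : AEMeasurable b mu := hu.neg.aemeasurable.ennreal_ofReal
  have hfa : ∫⁻ t, a t ∂mu ≠ ∞ := hu.lintegral_lt_top.ne
  have hfb : ∫⁻ t, b t ∂mu ≠ ∞ := hu.neg.lintegral_lt_top.ne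
  have : IsFiniteMeasure (mu.withDensity a) := isFiniteMeasure_withDensity hfa
  have : IsFiniteMeasure (mu.withDensity b) := isFiniteMeasure_withDensity hfb
  have h1 : mu.withDensity a = mu.withDensity b := by
    apply ext_of_forall_integral_eq_of_IsFiniteMeasure
    intro f
    rw [integral_withDensity_eq_integral_toReal_smul₀ ha (by simp [a]),
      integral_withDensity_eq_integral_toReal_smul₀ hb (by simp [b]), ← sub_eq_zero,
      ← integral_sub]
    · rw [← h f]
      congr 1
      ext t
      simp only [a, b, ENNReal.toReal_ofReal', smul_eq_mul]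
      rcases le_total (u t) 0 with h | h
      · rw [max_eq_right h, max_eq_left (by linarith)]; ring
      · rw [max_eq_left h, max_eq_right (by linarith)]; ring
    · have h2 : Integrable (fun t => max (u t) 0 * f t) mu :=
        (hu.pos_part).mul_bdd (c := ‖f‖) f.continuous.aestronglyMeasurable
          (ae_of_all _ fun t => f.norm_coe_le_norm t)
      refine h2.congr (ae_of_all _ fun t => ?_)
      simp [a, ENNReal.toReal_ofReal']
    · have h2 : Integrable (fun t => max (-u t) 0 * f t) mu :=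
        (hu.neg_part).mul_bdd (c := ‖f‖) f.continuous.aestronglyMeasurable
          (ae_of_all _ fun t => f.norm_coe_le_norm t)
      refine h2.congr (ae_of_all _ fun t => ?_)
      simp [b, ENNReal.toReal_ofReal']
  rw [withDensity_eq_iff ha hb hfa] at h1
  filter_upwards [h1] with t ht
  have h2 := congrArg ENNReal.toReal ht
  simp only [a, b, ENNReal.toReal_ofReal'] at h2
  show u t = 0
  rcases le_total (u t) 0 with h | h
  · rw [max_eq_right h, max_eq_left (by linarith)] at h2; linarith
  · rw [max_eq_left h, max_eq_right (by linarith)] at h2; linarith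

/-- a complex integrable function annihilating all continuous functions vanishes -/
lemma complex_ae_zero {k : X → ℂ} (hk : Integrable k mu)
    (h : ∀ f : C(X, ℂ), ∫ t, f t * k t ∂mu = 0) : k =ᵐ[mu] 0 := by
  have hr : (fun t => (k t).re) =ᵐ[mu] 0 := by
    apply real_ae_zero hk.re
    intro f
    let fc : C(X, ℂ) := ⟨fun t => (f t : ℂ), by fun_prop⟩
    have h1 := congrArg Complex.re (h fc)
    have h2 : Integrable (fun t => fc t * k t) mu :=
      hk.bdd_mul (c := ‖fc‖) fc.continuous.aestronglyMeasurable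
        (ae_of_all _ fun t => fc.norm_coe_le_norm t)
    rw [← Complex.reCLM_apply, ← Complex.reCLM.integral_comp_comm h2] at h1
    simpa [fc] using h1
  have hi : (fun t => (k t).im) =ᵐ[mu] 0 := by
    apply real_ae_zero hk.im
    intro f
    let fc : C(X, ℂ) := ⟨fun t => (f t : ℂ), by fun_prop⟩
    have h1 := congrArg Complex.im (h fc)
    have h2 : Integrable (fun t => fc t * k t) mu :=
      hk.bdd_mul (c := ‖fc‖) fc.continuous.aestronglyMeasurable
        (ae_of_all _ fun t => fc.norm_coe_le_norm t)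
    rw [← Complex.imCLM_apply, ← Complex.imCLM.integral_comp_comm h2] at h1
    simpa [fc] using h1
  filter_upwards [hr, hi] with t h1 h2
  exact Complex.ext h1 h2

/-- the functional `f ↦ ∫ f k` on continuous functions -/
noncomputable def intL {k : X → ℂ} (hk : Integrable k mu) : C(X, ℂ) →L[ℂ] ℂ :=
  LinearMap.mkContinuous
    { toFun := fun f => ∫ t, f t * k t ∂mu
      map_add' := by
        intro f g
        have hi : ∀ f : C(X, ℂ), Integrable (fun t => f t * k t) mu := fun f =>
          hk.bdd_mul (c := ‖f‖) f.continuous.aestronglyMeasurable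
            (ae_of_all _ fun t => f.norm_coe_le_norm t)
        rw [← integral_add (hi f) (hi g)]
        congr 1
        ext t
        rw [ContinuousMap.add_apply, add_mul]
      map_smul' := by
        intro c f
        rw [RingHom.id_apply, smul_eq_mul, ← integral_const_mul]
        congr 1
        ext t
        rw [ContinuousMap.smul_apply, smul_eq_mul, mul_assoc] }
    (∫ t, ‖k t‖ ∂mu) (by
      intro f
      show ‖∫ t, f t * k t ∂mu‖ ≤ _
      refine (norm_integral_le_integral_norm _).trans ?_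
      rw [mul_comm, ← integral_const_mul]
      refine integral_mono_of_nonneg (ae_of_all _ fun t => norm_nonneg _)
        (hk.norm.const_mul _) (ae_of_all _ fun t => ?_)
      show ‖f t * k t‖ ≤ ‖f‖ * ‖k t‖
      rw [norm_mul]
      gcongr
      exact f.norm_coe_le_norm t)

lemma intL_apply {k : X → ℂ} (hk : Integrable k mu) (f : C(X, ℂ)) :
    intL hk f = ∫ t, f t * k t ∂mu := rfl

/-- uniqueness of Fourier coefficients in `L¹` -/
lemma ae_zero_of_fourier {k : X → ℂ} (hk : Integrable k mu)
    (h : ∀ n : ℤ, ∫ t, fourier n t * k t ∂mu = 0) : k =ᵐ[mu] 0 := by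
  apply complex_ae_zero hk
  intro f
  have h1 : (Submodule.span ℂ (Set.range (fourier : ℤ → C(X, ℂ)))).topologicalClosure ≤
      LinearMap.ker (intL hk).toLinearMap := by
    apply Submodule.topologicalClosure_minimal
    · rw [Submodule.span_le]
      rintro _ ⟨n, rfl⟩
      exact h n
    · exact (intL hk).isClosed_ker
  rw [span_fourier_closure_eq_top] at h1
  exact h1 (Submodule.mem_top (x := f))


/-- multiplication by `e n` on `L²` -/
theorem memLp_e (n : ℤ) (f : L2) : MemLp (fun x => e n x * f x) 2 mu := by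
  refine (Lp.memLp f).of_le ?_ (ae_of_all _ fun x => ?_)
  · exact ((fourier n).continuous.aestronglyMeasurable).mul (Lp.aestronglyMeasurable f)
  · rw [norm_mul, e, fourier_apply, Circle.norm_coe, one_mul]

noncomputable def mulE (n : ℤ) (f : L2) : L2 := (memLp_e n f).toLp _

theorem coe_mulE (n : ℤ) (f : L2) : (mulE n f : X → ℂ) =ᵐ[mu] fun x => e n x * f x :=
  MemLp.coeFn_toLp _

theorem e_add (m n : ℤ) (x : X) : e (m + n) x = e m x * e n x := by
  simp [e]

/-- the Hilbert space -/
abbrev HH := WithLp 2 (L2 × L2)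

theorem inner_int (f g : L2) : ⟪f, g⟫_ℂ = ∫ x, conj (f x) * g x ∂mu := by
  rw [L2.inner_def]
  apply integral_congr_ae
  refine ae_of_all _ fun x => ?_
  simp only [RCLike.inner_apply]
  ring

theorem integrable_cm (f g : L2) : Integrable (fun x => conj (f x) * g x) mu := by
  have := L2.integrable_inner (𝕜 := ℂ) f g
  refine this.congr (ae_of_all _ fun x => ?_)
  simp [RCLike.inner_apply, mul_comm]

theorem inner_HH (p q : L2 × L2) :
    ⟪(WithLp.toLp 2 p : HH), (WithLp.toLp 2 q : HH)⟫_ℂ =
      ∫ x, (conj (p.1 x) * q.1 x + conj (p.2 x) * q.2 x) ∂mu := by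
  rw [WithLp.prod_inner_apply, integral_add (integrable_cm _ _) (integrable_cm _ _),
    ← inner_int, ← inner_int]

/-- multiplication by `e n` on pairs -/
noncomputable def mul2 (n : ℤ) (p : L2 × L2) : L2 × L2 := (mulE n p.1, mulE n p.2)

theorem mulE_mulE (m n : ℤ) (f : L2) : mulE m (mulE n f) = mulE (m + n) f := by
  apply Lp.ext
  filter_upwards [coe_mulE m (mulE n f), coe_mulE n f, coe_mulE (m + n) f] with x h1 h2 h3
  rw [h1, h2, h3, e_add, mul_assoc]

theorem mulE_zero (f : L2) : mulE 0 f = f := by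
  apply Lp.ext
  filter_upwards [coe_mulE 0 f] with x hx
  rw [hx]; simp [e]

theorem mul2_mul2 (m n : ℤ) (p : L2 × L2) : mul2 m (mul2 n p) = mul2 (m + n) p := by
  simp only [mul2, mulE_mulE]

theorem mul2_zero (p : L2 × L2) : mul2 0 p = p := by
  simp only [mul2, mulE_zero]

theorem mul2_one_mem {M : Submodule ℂ (L2 × L2)} (h : ZI M 1) {p : L2 × L2} (hp : p ∈ M) :
    mul2 1 p ∈ M := h p hp _ (coe_mulE 1 p.1) (coe_mulE 1 p.2)

theorem mul2_mem {M : Submodule ℂ (L2 × L2)} (h : ZI M 1) {p : L2 × L2} (hp : p ∈ M) (k : ℕ) :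
    mul2 k p ∈ M := by
  induction k with
  | zero => rw [Nat.cast_zero, mul2_zero]; exact hp
  | succ k ih =>
    have := mul2_one_mem h ih
    rw [mul2_mul2] at this
    rw [Nat.cast_succ, add_comm]
    exact this

theorem int_e (n : ℤ) (hn : n ≠ 0) : ∫ x : X, (fourier n x : ℂ) ∂mu = 0 := by
  have h := congrFun (fourierCoeff_fourier (T := 1) n) 0
  rw [Pi.single_eq_of_ne (Ne.symm hn)] at h
  unfold fourierCoeff at h
  simpa using h

theorem uni_e (n : ℤ) : Uni (e n) := by
  refine ⟨?_, ae_of_all _ fun x => ?_⟩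
  · exact (fourier n).continuous.aestronglyMeasurable
  · rw [e, fourier_apply]
    exact Circle.norm_coe _

/-- the conjugate of a character -/
theorem conj_e (n : ℤ) (x : X) : conj (fourier n x : ℂ) = fourier (-n) x := by
  rw [fourier_neg]

/-- real functions with vanishing positive frequencies and mean one -/
theorem const_of (F : X → ℝ) (hF : Integrable (fun x => (F x : ℂ)) mu)
    (h0 : ∫ x, (F x : ℂ) ∂mu = 1)
    (h : ∀ k : ℕ, 0 < k → ∫ x, (fourier (k : ℤ) x : ℂ) * (F x : ℂ) ∂mu = 0) :
    ∀ᵐ x ∂mu, F x = 1 := by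
  have hneg : ∀ k : ℕ, 0 < k → ∫ x, (fourier (-(k : ℤ)) x : ℂ) * (F x : ℂ) ∂mu = 0 := by
    intro k hk
    have h1 := congrArg (starRingEnd ℂ) (h k hk)
    rw [map_zero, ← integral_conj] at h1
    rw [← h1]
    apply integral_congr_ae
    refine ae_of_all _ fun x => ?_
    simp only [map_mul, Complex.conj_ofReal, conj_e]
  have hall : ∀ n : ℤ, n ≠ 0 → ∫ x, (fourier n x : ℂ) * (F x : ℂ) ∂mu = 0 := by
    intro n hn
    rcases Int.natAbs_eq n with hh | hh
    · rw [hh]
      exact h _ (Int.natAbs_pos.2 hn)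
    · rw [hh]
      exact hneg _ (Int.natAbs_pos.2 hn)
  have hk : Integrable (fun x => (F x : ℂ) - 1) mu := hF.sub (integrable_const 1)
  have hz := ae_zero_of_fourier hk (by
    intro n
    have h1 : Integrable (fun x => (fourier n x : ℂ) * (F x : ℂ)) mu :=
      hF.bdd_mul (c := 1) (fourier n).continuous.aestronglyMeasurable
        (ae_of_all _ fun x => by
          rw [fourier_apply]
          exact (Circle.norm_coe _).le)
    have h2 : Integrable (fun x : X => (fourier n x : ℂ)) mu :=
      (fourier n).continuous.integrable_of_hasCompactSupport (HasCompactSupport.of_compactSpace _)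
    have h3 : (fun x : X => (fourier n x : ℂ) * ((F x : ℂ) - 1)) =
        fun x => (fourier n x : ℂ) * (F x : ℂ) - (fourier n x : ℂ) := by
      funext x
      ring
    rw [h3, integral_sub h1 h2]
    by_cases hn : n = 0
    · subst hn
      simp [h0]
    · rw [hall n hn, int_e n hn, sub_zero])
  filter_upwards [hz] with x hx
  have : (F x : ℂ) - 1 = 0 := hx
  have h5 : (F x : ℂ) = ((1 : ℝ) : ℂ) := by
    rw [sub_eq_zero.1 this]; simp
  exact_mod_cast h5

end W1aux

open W1aux

/-- W1 -/
theorem t_W1 (hop : Pool.Agent.H460U.S_OP) : S_W1 := by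
  intro M hM h1 hn1
  obtain ⟨A, hA⟩ := hop (e (-1)) 0 (uni_e (-1))
  have hAE : ∀ f : L2, A f = mulE (-1) f := by
    intro f
    apply Lp.ext
    filter_upwards [hA f, coe_mulE (-1) f] with x h2 h3
    rw [h2, h3, add_zero]
  set K : Submodule ℂ (L2 × L2) := M.comap (A.prodMap A).toLinearMap with hK
  have hKmem : ∀ p : L2 × L2, p ∈ K ↔ mul2 (-1) p ∈ M := by
    intro p
    rw [hK, Submodule.mem_comap]
    have : (A.prodMap A).toLinearMap p = mul2 (-1) p := by
      show (A p.1, A p.2) = mul2 (-1) p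
      rw [hAE, hAE]
      rfl
    rw [this]
  have hKc : IsClosed (K : Set (L2 × L2)) := by
    have : (K : Set (L2 × L2)) = (A.prodMap A) ⁻¹' (M : Set (L2 × L2)) := rfl
    rw [this]
    exact hM.preimage (A.prodMap A).continuous
  have hKM : K ≤ M := by
    intro p hp
    have h2 := mul2_one_mem h1 ((hKmem p).1 hp)
    rw [mul2_mul2] at h2
    norm_num at h2
    rwa [mul2_zero] at h2
  obtain ⟨p, hpM, hpK⟩ : ∃ p ∈ M, p ∉ K := by
    by_contra hcon
    push Not at hcon
    apply hn1
    intro p hp h ha hb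
    have h2 := (hKmem p).1 (hcon p hp)
    have h3 : h = mul2 (-1) p := by
      apply Prod.ext
      · apply Lp.ext
        filter_upwards [ha, coe_mulE (-1) p.1] with x h4 h5
        rw [h4]
        exact h5.symm
      · apply Lp.ext
        filter_upwards [hb, coe_mulE (-1) p.2] with x h4 h5
        rw [h4]
        exact h5.symm
    rw [h3]
    exact h2
  -- the Hilbert space
  set L : HH ≃L[ℂ] (L2 × L2) := WithLp.prodContinuousLinearEquiv 2 ℂ L2 L2 with hL
  have hLs : ∀ q : L2 × L2, L.symm q = WithLp.toLp 2 q := fun q => rfl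
  set K' : Submodule ℂ HH := K.comap L.toLinearMap with hK'
  have hK'mem : ∀ q : HH, q ∈ K' ↔ L q ∈ K := fun q => Iff.rfl
  have hK'c : IsClosed (K' : Set HH) := hKc.preimage L.continuous
  have : CompleteSpace K' := hK'c.completeSpace_coe
  set p' : HH := L.symm p with hp'
  set θ : HH := p' - K'.starProjection p' with hθ
  have hθo : θ ∈ K'ᗮ := K'.sub_starProjection_mem_orthogonal p'
  have hθ0 : θ ≠ 0 := by
    intro h0
    apply hpK
    have h2 : p' ∈ K' := by
      rw [sub_eq_zero.1 h0]
      exact K'.starProjection_apply_mem p'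
    have h3 := (hK'mem p').1 h2
    rwa [hp', ContinuousLinearEquiv.apply_symm_apply] at h3
  have hθM : L θ ∈ M := by
    rw [hθ, map_sub]
    refine M.sub_mem ?_ (hKM ((hK'mem _).1 (K'.starProjection_apply_mem p')))
    rw [hp', ContinuousLinearEquiv.apply_symm_apply]
    exact hpM
  set c : ℂ := ((‖θ‖⁻¹ : ℝ) : ℂ) with hc
  set Θ : L2 × L2 := c • L θ with hΘ
  have hΘM : Θ ∈ M := M.smul_mem c hθM
  have hΘ' : L.symm Θ = c • θ := by
    rw [hΘ, map_smul, ContinuousLinearEquiv.symm_apply_apply]
  have horth : ∀ q ∈ M, ∀ k : ℕ, 0 < k →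
      ∫ x, (fourier (k : ℤ) x : ℂ) * (conj (Θ.1 x) * q.1 x + conj (Θ.2 x) * q.2 x) ∂mu = 0 := by
    intro q hq k hk
    have h2 : mul2 k q ∈ K := by
      rw [hKmem, mul2_mul2]
      obtain ⟨j, rfl⟩ : ∃ j : ℕ, k = j + 1 := ⟨k - 1, by omega⟩
      have h3 : (-1 : ℤ) + ((j + 1 : ℕ) : ℤ) = (j : ℤ) := by push_cast; ring
      rw [h3]
      exact mul2_mem h1 hq j
    have h4 : L.symm (mul2 k q) ∈ K' := by
      rw [hK'mem, ContinuousLinearEquiv.apply_symm_apply]
      exact h2
    have h5 : ⟪L.symm Θ, L.symm (mul2 k q)⟫_ℂ = 0 := by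
      rw [hΘ', inner_smul_left]
      rw [Submodule.inner_left_of_mem_orthogonal h4 hθo, mul_zero]
    rw [hLs, hLs, inner_HH] at h5
    rw [← h5]
    apply integral_congr_ae
    filter_upwards [coe_mulE k q.1, coe_mulE k q.2] with x h6 h7
    show _ = conj (Θ.1 x) * (mulE k q.1 : X → ℂ) x + conj (Θ.2 x) * (mulE k q.2 : X → ℂ) x
    rw [h6, h7]
    simp only [e]
    ring
  have hnorm : ∫ x, (conj (Θ.1 x) * Θ.1 x + conj (Θ.2 x) * Θ.2 x) ∂mu = 1 := by
    rw [← inner_HH, ← hLs, hΘ', inner_self_eq_norm_sq_to_K, norm_smul, hc]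
    have h2 : ‖θ‖ ≠ 0 := norm_ne_zero_iff.2 hθ0
    rw [Complex.norm_real, norm_inv, norm_norm, inv_mul_cancel₀ h2]
    simp
  have hreal : ∀ x, conj (Θ.1 x) * Θ.1 x + conj (Θ.2 x) * Θ.2 x =
      ((‖Θ.1 x‖ ^ 2 + ‖Θ.2 x‖ ^ 2 : ℝ) : ℂ) := by
    intro x
    rw [Complex.conj_mul', Complex.conj_mul']
    push_cast
    ring
  refine ⟨Θ, hΘM, ?_, ?_⟩
  · refine const_of (fun x => ‖Θ.1 x‖ ^ 2 + ‖Θ.2 x‖ ^ 2) ?_ ?_ ?_
    · refine ((integrable_cm Θ.1 Θ.1).add (integrable_cm Θ.2 Θ.2)).congr (ae_of_all _ fun x => ?_)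
      exact hreal x
    · rw [← hnorm]
      refine integral_congr_ae (ae_of_all _ fun x => ?_)
      exact (hreal x).symm
    · intro k hk
      rw [← horth Θ hΘM k hk]
      refine integral_congr_ae (ae_of_all _ fun x => ?_)
      show _ = (fourier (k : ℤ) x : ℂ) * (conj (Θ.1 x) * Θ.1 x + conj (Θ.2 x) * Θ.2 x)
      rw [hreal x]
  · intro q hq n hn
    obtain ⟨k, rfl⟩ : ∃ k : ℕ, n = -(k : ℤ) := ⟨n.natAbs, by omega⟩
    have hk : 0 < k := by omega
    unfold fourierCoeff
    rw [neg_neg]
    simp only [smul_eq_mul]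
    exact horth q hq k hk

end Pool.Agent.H875A
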