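import Pool.Agent.H875A.AR.Defs

set_option autoImplicit false

open MeasureTheory Complex Filter
open scoped ComplexConjugate Matrix Topology InnerProductSpace

namespace Pool.Agent.H875A

open Pool.Agent.H460U (X mu M2 L2 e Uni Bd An bl Vm ell ta tt TT DD)

namespace W2aux

theorem memLp_mul (b : X → ℂ) (hb : AEStronglyMeasurable b mu)
    (hb1 : ∀ᵐ x ∂mu, ‖b x‖ ≤ 1) (f : L2) : MemLp (fun x => b x * f x) 2 mu := by
  refine (Lp.memLp f).mono (hb.mul (Lp.aestronglyMeasurable f)) ?_
  filter_upwards [hb1] with x hx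
  rw [norm_mul]
  calc ‖b x‖ * ‖f x‖ ≤ 1 * ‖f x‖ := by gcongr
    _ = ‖f x‖ := one_mul _

theorem exists_mulOp (b : X → ℂ) (hb : AEStronglyMeasurable b mu)
    (hb1 : ∀ᵐ x ∂mu, ‖b x‖ ≤ 1) :
    ∃ T : L2 →L[ℂ] L2, ∀ f : L2, (T f : X → ℂ) =ᵐ[mu] fun x => b x * f x := by
  have key : ∀ f : L2, (((memLp_mul b hb hb1 f).toLp _ : L2) : X → ℂ) =ᵐ[mu]
      fun x => b x * f x := fun f => MemLp.coeFn_toLp _
  refine ⟨LinearMap.mkContinuous
    { toFun := fun f => (memLp_mul b hb hb1 f).toLp _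
      map_add' := ?_
      map_smul' := ?_ } 1 ?_, ?_⟩
  · intro f g
    apply Lp.ext
    filter_upwards [key (f + g), key f, key g, Lp.coeFn_add f g,
      Lp.coeFn_add ((memLp_mul b hb hb1 f).toLp _) ((memLp_mul b hb hb1 g).toLp _)]
      with x h1 h2 h3 h4 h5
    rw [h1, h5, Pi.add_apply, h2, h3, h4, Pi.add_apply]
    ring
  · intro c f
    apply Lp.ext
    filter_upwards [key (c • f), key f, Lp.coeFn_smul c f,
      Lp.coeFn_smul c ((memLp_mul b hb hb1 f).toLp _)] with x h1 h2 h3 h4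
    simp only [RingHom.id_apply]
    rw [h1, h4, Pi.smul_apply, h2, h3, Pi.smul_apply, smul_eq_mul, smul_eq_mul]
    ring
  · intro f
    rw [one_mul]
    apply Lp.norm_le_norm_of_ae_le
    filter_upwards [key f, hb1] with x h1 h2
    simp only [LinearMap.coe_mk, AddHom.coe_mk]
    rw [h1, norm_mul]
    calc ‖b x‖ * ‖f x‖ ≤ 1 * ‖f x‖ := by gcongr
      _ = ‖f x‖ := one_mul _
  · intro f
    exact key f

theorem e_add (m n : ℤ) (x : X) : e (m + n) x = e m x * e n x := by
  unfold e
  exact fourier_add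

theorem e_zero (x : X) : e 0 x = 1 := by
  unfold e
  exact fourier_zero

theorem e_norm (n : ℤ) (x : X) : ‖e n x‖ = 1 := by
  unfold e
  rw [fourier_apply]
  exact Circle.norm_coe _

theorem e_meas (n : ℤ) : AEStronglyMeasurable (fun x => e n x) mu := by
  unfold e
  exact (fourier n).continuous.aestronglyMeasurable

theorem An_congr (f g : X → ℂ) (h : f =ᵐ[mu] g) (hf : An f) : An g := by
  intro n hn
  rw [← hf n hn]
  unfold fourierCoeff
  apply integral_congr_ae
  filter_upwards [h] with x hx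
  rw [hx]

end W2aux

open W2aux in
theorem t_W2 (h1 : S_W1) : S_W2 := by
  intro M hMc hM1 hpure Θ hΘ hno p hp
  obtain ⟨hΘM, hΘn, hΘA⟩ := hΘ
  have hb1 : ∀ᵐ x ∂mu, ‖Θ.1 x‖ ≤ 1 := by
    filter_upwards [hΘn] with x hx
    nlinarith [sq_nonneg ‖Θ.2 x‖, norm_nonneg (Θ.1 x)]
  have hb2 : ∀ᵐ x ∂mu, ‖Θ.2 x‖ ≤ 1 := by
    filter_upwards [hΘn] with x hx
    nlinarith [sq_nonneg ‖Θ.1 x‖, norm_nonneg (Θ.2 x)]
  have hm1 : AEStronglyMeasurable (fun x => Θ.1 x) mu := Lp.aestronglyMeasurable Θ.1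
  have hm2 : AEStronglyMeasurable (fun x => Θ.2 x) mu := Lp.aestronglyMeasurable Θ.2
  obtain ⟨T1, hT1⟩ := exists_mulOp (fun x => Θ.1 x) hm1 hb1
  obtain ⟨T2, hT2⟩ := exists_mulOp (fun x => Θ.2 x) hm2 hb2
  have hc : Continuous (fun z : ℂ => conj z) := Complex.continuous_conj
  obtain ⟨C1, hC1⟩ := exists_mulOp (fun x => conj (Θ.1 x))
    (hc.comp_aestronglyMeasurable hm1) (by
      filter_upwards [hb1] with x hx
      rwa [RCLike.norm_conj])
  obtain ⟨C2, hC2⟩ := exists_mulOp (fun x => conj (Θ.2 x))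
    (hc.comp_aestronglyMeasurable hm2) (by
      filter_upwards [hb2] with x hx
      rwa [RCLike.norm_conj])
  obtain ⟨E, hE⟩ := exists_mulOp (fun x => e 1 x) (e_meas 1)
    (Eventually.of_forall fun x => (e_norm 1 x).le)
  set L : L2 →L[ℂ] L2 × L2 := T1.prod T2 with hL
  have hL1 : ∀ h : L2, (L h).1 = T1 h := fun h => rfl
  have hL2 : ∀ h : L2, (L h).2 = T2 h := fun h => rfl
  -- (B)
  have hLn : ∀ n : ℕ, L (fourierLp 2 (n : ℤ)) ∈ M := by
    intro n
    induction n with
    | zero =>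
      have : L (fourierLp 2 ((0 : ℕ) : ℤ)) = Θ := by
        apply Prod.ext
        · apply Lp.ext
          rw [hL1]
          filter_upwards [hT1 (fourierLp 2 ((0 : ℕ) : ℤ)), coeFn_fourierLp (T := (1 : ℝ)) 2
            ((0 : ℕ) : ℤ)] with x hx1 hx2
          rw [hx1, hx2]
          simp
        · apply Lp.ext
          rw [hL2]
          filter_upwards [hT2 (fourierLp 2 ((0 : ℕ) : ℤ)), coeFn_fourierLp (T := (1 : ℝ)) 2
            ((0 : ℕ) : ℤ)] with x hx1 hx2
          rw [hx1, hx2]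
          simp
      rw [this]
      exact hΘM
    | succ n ih =>
      refine hM1 _ ih _ ?_ ?_
      · rw [hL1, hL1]
        filter_upwards [hT1 (fourierLp 2 ((n + 1 : ℕ) : ℤ)), hT1 (fourierLp 2 (n : ℤ)),
          coeFn_fourierLp (T := (1 : ℝ)) 2 ((n + 1 : ℕ) : ℤ),
          coeFn_fourierLp (T := (1 : ℝ)) 2 (n : ℤ)] with x hx1 hx2 hx3 hx4
        rw [hx1, hx2, hx3, hx4]
        have : fourier (((n + 1 : ℕ) : ℤ)) x = e 1 x * fourier (n : ℤ) x := by
          have h := e_add 1 (n : ℤ) x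
          unfold e at h
          unfold e
          rw [← h]
          congr 2
          push_cast
          ring
        rw [this]
        ring
      · rw [hL2, hL2]
        filter_upwards [hT2 (fourierLp 2 ((n + 1 : ℕ) : ℤ)), hT2 (fourierLp 2 (n : ℤ)),
          coeFn_fourierLp (T := (1 : ℝ)) 2 ((n + 1 : ℕ) : ℤ),
          coeFn_fourierLp (T := (1 : ℝ)) 2 (n : ℤ)] with x hx1 hx2 hx3 hx4
        rw [hx1, hx2, hx3, hx4]
        have : fourier (((n + 1 : ℕ) : ℤ)) x = e 1 x * fourier (n : ℤ) x := by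
          have h := e_add 1 (n : ℤ) x
          unfold e at h
          unfold e
          rw [← h]
          congr 2
          push_cast
          ring
        rw [this]
        ring
  have hB : ∀ h : L2, An (fun x => h x) → L h ∈ M := by
    intro h hh
    have hs := (hasSum_fourier_series_L2 h).mapL L
    refine hMc.mem_of_tendsto hs (Eventually.of_forall fun s => ?_)
    refine Submodule.sum_mem _ fun i _ => ?_
    rw [map_smul]
    rcases lt_or_ge i 0 with hi | hi
    · have h0 := hh i hi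
      have h0' : fourierCoeff (⇑h) i = 0 := h0
      rw [h0', zero_smul]
      exact Submodule.zero_mem _
    · obtain ⟨n, rfl⟩ := Int.eq_ofNat_of_zero_le hi
      exact Submodule.smul_mem _ _ (hLn n)
  -- (D)
  set K : L2 × L2 →L[ℂ] L2 := C1.comp (ContinuousLinearMap.fst ℂ L2 L2) +
    C2.comp (ContinuousLinearMap.snd ℂ L2 L2) with hK
  have hKa : ∀ q : L2 × L2, K q = C1 q.1 + C2 q.2 := fun q => rfl
  have hKae : ∀ q : L2 × L2, (K q : X → ℂ) =ᵐ[mu]
      fun x => conj (Θ.1 x) * q.1 x + conj (Θ.2 x) * q.2 x := by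
    intro q
    rw [hKa]
    filter_upwards [Lp.coeFn_add (C1 q.1) (C2 q.2), hC1 q.1, hC2 q.2] with x hx1 hx2 hx3
    rw [hx1, Pi.add_apply, hx2, hx3]
  set M' : Submodule ℂ (L2 × L2) := M ⊓ LinearMap.ker (K : L2 × L2 →ₗ[ℂ] L2) with hM'
  have hM'mem : ∀ q, q ∈ M' ↔ q ∈ M ∧ K q = 0 := by
    intro q
    rw [hM', Submodule.mem_inf, LinearMap.mem_ker]
    rfl
  have hM'c : IsClosed (M' : Set (L2 × L2)) := by
    have : (M' : Set (L2 × L2)) = (M : Set (L2 × L2)) ∩ {q | K q = 0} := by
      ext q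
      exact hM'mem q
    rw [this]
    exact hMc.inter (isClosed_eq K.continuous continuous_const)
  have hKzero : ∀ q : L2 × L2, K q = 0 ↔
      ∀ᵐ x ∂mu, conj (Θ.1 x) * q.1 x + conj (Θ.2 x) * q.2 x = 0 := by
    intro q
    rw [Lp.eq_zero_iff_ae_eq_zero]
    constructor
    · intro h
      filter_upwards [h, hKae q] with x hx1 hx2
      rw [← hx2, hx1]
      rfl
    · intro h
      filter_upwards [h, hKae q] with x hx1 hx2
      rw [hx2, hx1]
      rfl
  have hKmul : ∀ (n : ℤ) (q r : L2 × L2), (r.1 : X → ℂ) =ᵐ[mu] (fun x => e n x * q.1 x) →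
      (r.2 : X → ℂ) =ᵐ[mu] (fun x => e n x * q.2 x) → K q = 0 → K r = 0 := by
    intro n q r hr1 hr2 hq
    rw [hKzero] at hq ⊢
    filter_upwards [hq, hr1, hr2] with x hx1 hx2 hx3
    rw [hx2, hx3]
    linear_combination (e n x) * hx1
  have hM'1 : ZI M' 1 := by
    intro q hq r hr1 hr2
    rw [hM'mem] at hq ⊢
    exact ⟨hM1 q hq.1 r hr1 hr2, hKmul 1 q r hr1 hr2 hq.2⟩
  -- the decomposition
  have hdec : ∀ q ∈ M, q - L (K q) ∈ M' := by
    intro q hq
    rw [hM'mem]
    refine ⟨Submodule.sub_mem _ hq (hB (K q) (An_congr _ _ (hKae q).symm (hΘA q hq))), ?_⟩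
    rw [hKzero]
    have e1 : ((q - L (K q)).1 : L2) = q.1 - T1 (K q) := rfl
    have e2 : ((q - L (K q)).2 : L2) = q.2 - T2 (K q) := rfl
    rw [e1, e2]
    filter_upwards [Lp.coeFn_sub q.1 (T1 (K q)), Lp.coeFn_sub q.2 (T2 (K q)), hT1 (K q),
      hT2 (K q), hKae q, hΘn] with x hx1 hx2 hx3 hx4 hx5 hx6
    rw [hx1, hx2, Pi.sub_apply, Pi.sub_apply, hx3, hx4]
    have h6 : conj (Θ.1 x) * Θ.1 x + conj (Θ.2 x) * Θ.2 x = 1 := by
      rw [mul_comm, Complex.mul_conj, mul_comm, Complex.mul_conj, Complex.normSq_eq_norm_sq,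
        Complex.normSq_eq_norm_sq, ← Complex.ofReal_add, hx6, Complex.ofReal_one]
    have h5 := hx5
    linear_combination (-(K q x)) * h6 - h5
  -- M' = ⊥
  have hbot : ∀ q ∈ M', q = 0 := by
    by_cases hz : ZI M' (-1)
    · intro q hq
      apply hpure
      intro k
      have : ∀ h : L2 × L2, (h.1 : X → ℂ) =ᵐ[mu] (fun x => e (-(k : ℤ)) x * q.1 x) →
          (h.2 : X → ℂ) =ᵐ[mu] (fun x => e (-(k : ℤ)) x * q.2 x) → h ∈ M' := by
        induction k with
        | zero =>
          intro h hh1 hh2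
          have : h = q := by
            apply Prod.ext
            · apply Lp.ext
              filter_upwards [hh1] with x hx
              rw [hx]
              simp [e_zero]
            · apply Lp.ext
              filter_upwards [hh2] with x hx
              rw [hx]
              simp [e_zero]
          rw [this]
          exact hq
        | succ k ih =>
          intro h hh1 hh2
          have hek : ∀ x, e 1 x * e (-((k + 1 : ℕ) : ℤ)) x = e (-(k : ℤ)) x := by
            intro x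
            rw [← e_add]
            congr 1
            push_cast
            ring
          have he1 : ∀ x, e (-1) x * e 1 x = 1 := by
            intro x
            rw [← e_add]
            simp [e_zero]
          have h' : (E h.1, E h.2) ∈ M' := by
            apply ih
            · show (E h.1 : X → ℂ) =ᵐ[mu] _
              filter_upwards [hE h.1, hh1] with x hx1 hx2
              rw [hx1, hx2, ← mul_assoc, hek]
            · show (E h.2 : X → ℂ) =ᵐ[mu] _
              filter_upwards [hE h.2, hh2] with x hx1 hx2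
              rw [hx1, hx2, ← mul_assoc, hek]
          refine hz _ h' h ?_ ?_
          · filter_upwards [hE h.1] with x hx1
            show h.1 x = e (-1) x * (E h.1) x
            rw [hx1, ← mul_assoc, he1, one_mul]
          · filter_upwards [hE h.2] with x hx1
            show h.2 x = e (-1) x * (E h.2) x
            rw [hx1, ← mul_assoc, he1, one_mul]
      intro h hh1 hh2
      exact ((hM'mem h).1 (this h hh1 hh2)).1
    · exfalso
      obtain ⟨Θ', hΘ'M, hΘ'n, hΘ'A⟩ := h1 M' hM'c hM'1 hz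
      have hK' : K Θ' = 0 := ((hM'mem Θ').1 hΘ'M).2
      have hort := (hKzero Θ').1 hK'
      refine hno Θ' ⟨((hM'mem Θ').1 hΘ'M).1, hΘ'n, ?_⟩ hort
      intro q hq
      refine An_congr _ _ ?_ (hΘ'A _ (hdec q hq))
      have e1 : ((q - L (K q)).1 : L2) = q.1 - T1 (K q) := rfl
      have e2 : ((q - L (K q)).2 : L2) = q.2 - T2 (K q) := rfl
      rw [e1, e2]
      filter_upwards [Lp.coeFn_sub q.1 (T1 (K q)), Lp.coeFn_sub q.2 (T2 (K q)), hT1 (K q),
        hT2 (K q), hort] with x hx1 hx2 hx3 hx4 hx5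
      rw [hx1, hx2, Pi.sub_apply, Pi.sub_apply, hx3, hx4]
      have h5 : conj (Θ'.1 x) * Θ.1 x + conj (Θ'.2 x) * Θ.2 x = 0 := by
        have := congrArg conj hx5
        simp only [map_add, map_mul, Complex.conj_conj, map_zero] at this
        linear_combination this
      linear_combination (-(K q x)) * h5
  have hfin := hbot _ (hdec p hp)
  have hp1 : p.1 = T1 (K p) := by
    have := congrArg Prod.fst hfin
    exact sub_eq_zero.1 this
  have hp2 : p.2 = T2 (K p) := by
    have := congrArg Prod.snd hfin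
    exact sub_eq_zero.1 this
  have ha1 : (p.1 : X → ℂ) =ᵐ[mu] fun x => Θ.1 x * K p x := by
    rw [hp1]
    have := hT1 (K p)
    rw [← hp1] at this ⊢
    exact this
  have ha2 : (p.2 : X → ℂ) =ᵐ[mu] fun x => Θ.2 x * K p x := by
    have := hT2 (K p)
    rw [← hp2] at this
    exact this
  filter_upwards [ha1, ha2] with x hx1 hx2
  rw [hx1, hx2]
  ring

end Pool.Agent.H875A
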